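import Pool.Agent.Y133.Half.HRPred

/-!
# Groups acting on the cohomology with extended coefficients
-/

open CategoryTheory AlgebraicGeometry

open scoped TensorProduct

universe u v w x

namespace Pool.Agent.H60ZO

open Module
open Pool.Agent.H914 Pool.Agent.H914.VarClass Pool.Agent.H914.VarClass.Obj
  Pool.Agent.H914.WeilCohomology
open Pool.Agent.Y133.Half (ClassPred exists_dual_class)

variable {k : Type u} [Field k] {𝒱 : VarClass k} {ops : CycleOps 𝒱}

/-- The cohomology with coefficients in `E`. -/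
abbrev HE (W : WeilCohomology.{u, v} ops) (E : Type w) [Field E] [Algebra W.K E] (X : 𝒱.Obj) :
    Type (max v w) :=
  E ⊗[W.K] W.H X

/-- The pull-back in the cohomology with coefficients in `E`. -/
noncomputable def mapE (W : WeilCohomology.{u, v} ops) (E : Type w) [Field E] [Algebra W.K E]
    {X Y : 𝒱.Obj} (f : X ⟶ Y) : HE W E Y →ₐ[E] HE W E X :=
  Algebra.TensorProduct.map (AlgHom.id E E) (W.map f)

/-- A family, indexed by `Γ`, of semilinear automorphisms of the cohomology with coefficients in `E`,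
compatible with all structures; `χ` describes the effect on the inverse of the Tate twist. -/
structure Act (W : WeilCohomology.{u, v} ops) (E : Type w) [Field E] [Algebra W.K E]
    (Γ : Type x) where
  σ : Γ → (E ≃ₐ[W.K] E)
  χ : Γ → Eˣ
  h : ∀ X : 𝒱.Obj, Γ → (HE W E X →+* HE W E X)
  h_smul : ∀ (X : 𝒱.Obj) (t : Γ) (r : E) (a : HE W E X), h X t (r • a) = σ t r • h X t a
  h_surj : ∀ (X : 𝒱.Obj) (t : Γ), Function.Surjective (h X t)
  gr_mem : ∀ {X : 𝒱.Obj} (t : Γ) {i : ℕ} {c : W.H X}, c ∈ W.gr X i →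
    h X t (1 ⊗ₜ[W.K] c) ∈ (W.gr X i).baseChange E
  nat : ∀ {X Y : 𝒱.Obj} (f : X ⟶ Y) (t : Γ) (y : HE W E Y),
    h X t (mapE W E f y) = mapE W E f (h Y t y)
  cyc : ∀ {X : 𝒱.Obj} {j : ℕ} {z : X.Cycles}, X.IsCyc j z → ∀ t : Γ,
    h X t (1 ⊗ₜ[W.K] W.cl X z) = ((χ t : E) ^ j) • (1 ⊗ₜ[W.K] W.cl X z)
  deg : ∀ {X : 𝒱.Obj} {c : W.H X}, c ∈ W.gr X (2 * X.dim) → ∀ t : Γ,
    h X t (1 ⊗ₜ[W.K] c) = ((χ t : E) ^ X.dim) • (1 ⊗ₜ[W.K] c)

variable {W : WeilCohomology.{u, v} ops} {E : Type w} [Field E] [Algebra W.K E] {X Y Z : 𝒱.Obj}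

/-- The orientation. -/
noncomputable def trE (W : WeilCohomology.{u, v} ops) (E : Type w) [Field E] [Algebra W.K E]
    (X : 𝒱.Obj) : HE W E X →ₗ[E] E :=
  (TensorProduct.AlgebraTensorModule.rid W.K E E).toLinearMap ∘ₗ (W.tr X).baseChange E

lemma trE_tmul (r : E) (c : W.H X) :
    trE W E X (r ⊗ₜ[W.K] c) = r * algebraMap W.K E (W.tr X c) := by
  rw [trE, LinearMap.comp_apply, LinearMap.baseChange_tmul]
  change TensorProduct.AlgebraTensorModule.rid W.K E E (r ⊗ₜ[W.K] W.tr X c) = _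
  rw [TensorProduct.AlgebraTensorModule.rid_tmul, Algebra.smul_def, mul_comm]

/-- The push-forward. -/
noncomputable def pushE (W : WeilCohomology.{u, v} ops) (E : Type w) [Field E] [Algebra W.K E]
    (f : X ⟶ Y) : HE W E X →ₗ[E] HE W E Y := (W.push f).baseChange E

lemma pushE_tmul (f : X ⟶ Y) (r : E) (c : W.H X) :
    pushE W E f (r ⊗ₜ[W.K] c) = r ⊗ₜ[W.K] W.push f c := LinearMap.baseChange_tmul _ _ _

lemma mapE_tmul (f : X ⟶ Y) (r : E) (c : W.H Y) :
    mapE W E f (r ⊗ₜ[W.K] c) = r ⊗ₜ[W.K] W.map f c := Algebra.TensorProduct.map_tmul _ _ _ _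

lemma tr_pushE (f : X ⟶ Y) (a : HE W E X) (b : HE W E Y) :
    trE W E Y (pushE W E f a * b) = trE W E X (a * mapE W E f b) := by
  induction a using TensorProduct.induction_on with
  | zero => rw [map_zero, zero_mul, zero_mul, map_zero, map_zero]
  | add a a' ha ha' => rw [map_add, add_mul, map_add, ha, ha', add_mul, map_add]
  | tmul r c =>
    induction b using TensorProduct.induction_on with
    | zero => rw [map_zero, mul_zero, mul_zero, map_zero, map_zero]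
    | add b b' hb hb' => rw [mul_add, map_add, hb, hb', map_add, mul_add, map_add]
    | tmul s d =>
      rw [pushE_tmul, mapE_tmul, Algebra.TensorProduct.tmul_mul_tmul,
        Algebra.TensorProduct.tmul_mul_tmul, trE_tmul, trE_tmul, W.tr_push]

lemma trE_nondeg {a : HE W E X} (h : ∀ b, trE W E X (a * b) = 0) : a = 0 := by
  let e := Module.finBasis W.K (W.H X)
  have h1 : ∀ i, (e.baseChange E).repr a i = 0 := by
    intro i
    obtain ⟨y, hy⟩ := exists_dual_class W (e.coord i)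
    have h2 := h (1 ⊗ₜ[W.K] y)
    have h3 : a = ∑ l, (e.baseChange E).repr a l • (e.baseChange E) l := (Basis.sum_repr _ a).symm
    rw [h3, Finset.sum_mul, map_sum] at h2
    rw [← h2, Finset.sum_eq_single i]
    · rw [smul_mul_assoc, map_smul, Basis.baseChange_apply,
        Algebra.TensorProduct.tmul_mul_tmul, trE_tmul, hy]
      simp
    · intro l _ hl
      rw [smul_mul_assoc, map_smul, Basis.baseChange_apply,
        Algebra.TensorProduct.tmul_mul_tmul, trE_tmul, hy]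
      simp [Finsupp.single_apply, hl]
    · intro h; exact absurd (Finset.mem_univ i) h
  rw [← (e.baseChange E).sum_repr a]
  simp [h1]

lemma trE_ext {a b : HE W E X} (h : ∀ c, trE W E X (a * c) = trE W E X (b * c)) : a = b := by
  rw [← sub_eq_zero]
  apply trE_nondeg
  intro c
  rw [sub_mul, map_sub, h, sub_self]

/-- Multiplication by a class which is injective in degree `i`. -/
lemma mulE_inj {i : ℕ} {w : W.H X} (hw : ∀ x ∈ W.gr X i, w * x = 0 → x = 0) {z : HE W E X}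
    (hz : z ∈ (W.gr X i).baseChange E) (h : (1 ⊗ₜ[W.K] w) * z = 0) : z = 0 := by
  have h1 : z ∈ LinearMap.range ((W.gr X i).subtype.baseChange E) := hz
  obtain ⟨z', rfl⟩ := h1
  let g : W.gr X i →ₗ[W.K] W.H X := LinearMap.mulLeft W.K w ∘ₗ (W.gr X i).subtype
  have hg : Function.Injective g := by
    rw [← LinearMap.ker_eq_bot, LinearMap.ker_eq_bot']
    rintro ⟨x, hx⟩ h0
    exact Subtype.ext (hw x hx h0)
  have h2 : g.baseChange E z' = 0 := by
    rw [← h]
    have h3 : ∀ z' : E ⊗[W.K] W.gr X i, g.baseChange E z' =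
        (1 ⊗ₜ[W.K] w) * ((W.gr X i).subtype.baseChange E z') := by
      intro z'
      induction z' using TensorProduct.induction_on with
      | zero => rw [map_zero, map_zero, mul_zero]
      | add a b ha hb => rw [map_add, map_add, ha, hb, mul_add]
      | tmul r c =>
        rw [LinearMap.baseChange_tmul, LinearMap.baseChange_tmul,
          Algebra.TensorProduct.tmul_mul_tmul, one_mul]
        rfl
    exact h3 z'
  have h4 : Function.Injective (g.baseChange E) :=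
    Module.Flat.lTensor_preserves_injective_linearMap (M := E) g hg
  have h5 : z' = 0 := h4 (h2.trans (map_zero _).symm)
  rw [h5, map_zero]

lemma trE_gr {i : ℕ} (hi : i ≠ 2 * X.dim) {z : HE W E X} (hz : z ∈ (W.gr X i).baseChange E) :
    trE W E X z = 0 := by
  have h1 : z ∈ LinearMap.range ((W.gr X i).subtype.baseChange E) := hz
  obtain ⟨z', rfl⟩ := h1
  induction z' using TensorProduct.induction_on with
  | zero => rw [map_zero, map_zero]
  | add a b ha hb => rw [map_add, map_add, ha ⟨a, rfl⟩, hb ⟨b, rfl⟩, add_zero]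
  | tmul r c =>
    rw [LinearMap.baseChange_tmul, trE_tmul]
    change r * algebraMap W.K E (W.tr X (c : W.H X)) = 0
    rw [W.tr_eq_zero c.2 hi, map_zero, mul_zero]

section

variable {Γ : Type x} (A : Act W E Γ)

lemma tr_h (t : Γ) (a : HE W E X) :
    trE W E X (A.h X t a) = (A.χ t : E) ^ X.dim * A.σ t (trE W E X a) := by
  induction a using TensorProduct.induction_on with
  | zero => rw [map_zero, map_zero, map_zero, mul_zero]
  | add a b ha hb => rw [map_add, map_add, ha, hb, map_add, map_add, mul_add]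
  | tmul r c =>
    have h1 : r ⊗ₜ[W.K] c = r • ((1 : E) ⊗ₜ[W.K] c) := by
      rw [TensorProduct.smul_tmul', smul_eq_mul, mul_one]
    rw [h1, A.h_smul, map_smul, map_smul, smul_eq_mul, smul_eq_mul, map_mul, mul_left_comm]
    congr 1
    refine gr_induction (W.isInternal X) (p := fun c => trE W E X (A.h X t (1 ⊗ₜ[W.K] c)) =
      (A.χ t : E) ^ X.dim * A.σ t (trE W E X (1 ⊗ₜ[W.K] c))) ?_ ?_ c
    · intro i c hc
      by_cases hi : i = 2 * X.dim
      · subst hi
        rw [A.deg hc, map_smul, smul_eq_mul, trE_tmul, one_mul, AlgEquiv.commutes]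
      · rw [trE_gr hi (A.gr_mem t hc), trE_tmul, W.tr_eq_zero hc hi]
        simp
    · intro a b ha hb
      rw [TensorProduct.tmul_add, map_add, map_add, ha, hb, map_add, map_add, mul_add]

/-- The action on classes of degree `2 j`, corrected by the effect on the Tate twist. -/
noncomputable def tw (X : 𝒱.Obj) (j : ℕ) (t : Γ) (a : HE W E X) : HE W E X :=
  (((A.χ t) ^ j)⁻¹ : Eˣ).val • (A.h X t a)

lemma tw_apply (j : ℕ) (t : Γ) (a : HE W E X) :
    tw A X j t a = (((A.χ t) ^ j)⁻¹ : Eˣ).val • A.h X t a := rfl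

lemma tw_add (j : ℕ) (t : Γ) (a b : HE W E X) :
    tw A X j t (a + b) = tw A X j t a + tw A X j t b := by
  rw [tw_apply, tw_apply, tw_apply, map_add, smul_add]

lemma tw_zero (j : ℕ) (t : Γ) : tw A X j t (0 : HE W E X) = 0 := by
  rw [tw_apply, map_zero, smul_zero]

lemma tw_smul (j : ℕ) (t : Γ) (r : E) (a : HE W E X) :
    tw A X j t (r • a) = A.σ t r • tw A X j t a := by
  rw [tw_apply, tw_apply, A.h_smul, smul_comm]

lemma tw_mul (i j : ℕ) (t : Γ) (a b : HE W E X) :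
    tw A X (i + j) t (a * b) = tw A X i t a * tw A X j t b := by
  rw [tw_apply, tw_apply, tw_apply, map_mul, smul_mul_smul_comm, ← Units.val_mul, pow_add,
    mul_inv]

lemma tw_map (f : X ⟶ Y) (j : ℕ) (t : Γ) (y : HE W E Y) :
    tw A X j t (mapE W E f y) = mapE W E f (tw A Y j t y) := by
  rw [tw_apply, tw_apply, A.nat, map_smul]

lemma tw_push (f : X ⟶ Y) {j l : ℕ} (hl : l + X.dim = j + Y.dim) (t : Γ) (a : HE W E X) :
    tw A Y l t (pushE W E f a) = pushE W E f (tw A X j t a) := by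
  apply trE_ext
  intro c
  obtain ⟨c', rfl⟩ : ∃ c', A.h Y t c' = c := A.h_surj Y t c
  have h1 : trE W E Y (tw A Y l t (pushE W E f a) * A.h Y t c') =
      (((A.χ t) ^ l)⁻¹ : Eˣ).val *
        ((A.χ t : E) ^ Y.dim * A.σ t (trE W E X (a * mapE W E f c'))) := by
    rw [tw_apply, smul_mul_assoc, map_smul, ← map_mul, tr_h, tr_pushE, smul_eq_mul]
  have h2 : trE W E Y (pushE W E f (tw A X j t a) * A.h Y t c') =
      (((A.χ t) ^ j)⁻¹ : Eˣ).val *
        ((A.χ t : E) ^ X.dim * A.σ t (trE W E X (a * mapE W E f c'))) := by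
    rw [tr_pushE, ← A.nat, tw_apply, smul_mul_assoc, map_smul, ← map_mul, tr_h, smul_eq_mul]
  rw [h1, h2, ← mul_assoc, ← mul_assoc]
  congr 1
  rw [← Units.val_pow_eq_pow_val, ← Units.val_pow_eq_pow_val, ← Units.val_mul, ← Units.val_mul]
  congr 1
  rw [inv_mul_eq_iff_eq_mul, mul_comm (((A.χ t) ^ j)⁻¹), ← mul_assoc, ← pow_add, hl,
    add_comm j, pow_add, mul_inv_cancel_right]

/-- The class `c` of degree `2 j` on `X` has a finite orbit, up to the Tate twist. -/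
def FinOrb (X : 𝒱.Obj) (j : ℕ) (c : W.H X) : Prop :=
  (Set.range fun t : Γ => tw A X j t (1 ⊗ₜ[W.K] c)).Finite

variable {A}

lemma FinOrb.of_fixed {j : ℕ} {c : W.H X} (h : ∀ t, tw A X j t (1 ⊗ₜ[W.K] c) = 1 ⊗ₜ[W.K] c) :
    FinOrb A X j c := by
  apply (Set.finite_singleton ((1 : E) ⊗ₜ[W.K] c)).subset
  rintro _ ⟨t, rfl⟩
  exact h t

lemma FinOrb.zero {j : ℕ} : FinOrb A X j (0 : W.H X) :=
  FinOrb.of_fixed fun t => by rw [TensorProduct.tmul_zero, tw_zero]

lemma FinOrb.add {j : ℕ} {a b : W.H X} (ha : FinOrb A X j a) (hb : FinOrb A X j b) :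
    FinOrb A X j (a + b) := by
  apply (Set.Finite.image2 (· + ·) ha hb).subset
  rintro _ ⟨t, rfl⟩
  exact ⟨_, ⟨t, rfl⟩, _, ⟨t, rfl⟩, by simp only [TensorProduct.tmul_add, tw_add]⟩

lemma FinOrb.smul {j : ℕ} (r : W.K) {a : W.H X} (ha : FinOrb A X j a) :
    FinOrb A X j (r • a) := by
  apply (ha.image fun x => algebraMap W.K E r • x).subset
  rintro _ ⟨t, rfl⟩
  refine ⟨_, ⟨t, rfl⟩, ?_⟩
  have h1 : (1 : E) ⊗ₜ[W.K] (r • a) = algebraMap W.K E r • ((1 : E) ⊗ₜ[W.K] a) := by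
    rw [TensorProduct.tmul_smul, ← algebraMap_smul E r]
  simp only [h1, tw_smul, AlgEquiv.commutes]

lemma FinOrb.mul {i j : ℕ} {a b : W.H X} (ha : FinOrb A X i a) (hb : FinOrb A X j b) :
    FinOrb A X (i + j) (a * b) := by
  apply (Set.Finite.image2 (· * ·) ha hb).subset
  rintro _ ⟨t, rfl⟩
  refine ⟨_, ⟨t, rfl⟩, _, ⟨t, rfl⟩, ?_⟩
  have h1 : (1 : E) ⊗ₜ[W.K] (a * b) = (1 ⊗ₜ[W.K] a) * (1 ⊗ₜ[W.K] b) := by
    rw [Algebra.TensorProduct.tmul_mul_tmul, one_mul]
  simp only [h1, tw_mul]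

lemma FinOrb.map (f : X ⟶ Y) {j : ℕ} {a : W.H Y} (ha : FinOrb A Y j a) :
    FinOrb A X j (W.map f a) := by
  apply (ha.image fun x => mapE W E f x).subset
  rintro _ ⟨t, rfl⟩
  refine ⟨_, ⟨t, rfl⟩, ?_⟩
  simp only [← tw_map, mapE_tmul]

lemma FinOrb.push (f : X ⟶ Y) {j l : ℕ} (hl : l + X.dim = j + Y.dim) {a : W.H X}
    (ha : FinOrb A X j a) : FinOrb A Y l (W.push f a) := by
  apply (ha.image fun x => pushE W E f x).subset
  rintro _ ⟨t, rfl⟩
  refine ⟨_, ⟨t, rfl⟩, ?_⟩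
  simp only [← tw_push A f hl, pushE_tmul]

lemma tw_cl {j : ℕ} {z : X.Cycles} (hz : X.IsCyc j z) (t : Γ) :
    tw A X j t (1 ⊗ₜ[W.K] W.cl X z) = 1 ⊗ₜ[W.K] W.cl X z := by
  rw [tw_apply, A.cyc hz, smul_smul, ← Units.val_pow_eq_pow_val, ← Units.val_mul,
    inv_mul_cancel, Units.val_one, one_smul]

lemma FinOrb.cl {j : ℕ} {z : X.Cycles} (hz : X.IsCyc j z) : FinOrb A X j (W.cl X z) :=
  FinOrb.of_fixed fun t => tw_cl hz t

lemma tw_pow {D : X.Cycles} (hD : X.IsCyc 1 D) (m : ℕ) (t : Γ) :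
    tw A X m t (1 ⊗ₜ[W.K] (W.cl X D ^ m)) = 1 ⊗ₜ[W.K] (W.cl X D ^ m) := by
  induction m with
  | zero =>
    rw [pow_zero, tw_apply, pow_zero, inv_one, Units.val_one, one_smul]
    exact map_one (A.h X t)
  | succ m ih =>
    have h1 : (1 : E) ⊗ₜ[W.K] (W.cl X D ^ (m + 1)) =
        (1 ⊗ₜ[W.K] (W.cl X D ^ m)) * (1 ⊗ₜ[W.K] W.cl X D) := by
      rw [Algebra.TensorProduct.tmul_mul_tmul, one_mul, pow_succ]
    rw [h1, tw_mul, ih, tw_cl hD]

lemma tw_mem {i j : ℕ} {c : W.H X} (hc : c ∈ W.gr X i) (t : Γ) :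
    tw A X j t (1 ⊗ₜ[W.K] c) ∈ (W.gr X i).baseChange E :=
  Submodule.smul_mem _ _ (A.gr_mem t hc)

/-- Finiteness of the orbit is stable under the inverse of the Lefschetz isomorphism. -/
lemma FinOrb.lift {D : X.Cycles} (hD : X.IsCyc 1 D) {m j : ℕ} {x : W.H X}
    (hinj : ∀ y ∈ W.gr X (2 * j), W.cl X D ^ m * y = 0 → y = 0) (hx : x ∈ W.gr X (2 * j))
    (h : FinOrb A X (m + j) (W.cl X D ^ m * x)) : FinOrb A X j x := by
  refine Set.Finite.of_finite_image (f := fun y => (1 ⊗ₜ[W.K] (W.cl X D ^ m)) * y) ?_ ?_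
  · apply h.subset
    rintro _ ⟨_, ⟨t, rfl⟩, rfl⟩
    refine ⟨t, ?_⟩
    have h1 : (1 : E) ⊗ₜ[W.K] (W.cl X D ^ m * x) =
        (1 ⊗ₜ[W.K] (W.cl X D ^ m)) * (1 ⊗ₜ[W.K] x) := by
      rw [Algebra.TensorProduct.tmul_mul_tmul, one_mul]
    simp only [h1, tw_mul, tw_pow hD]
  · rintro _ ⟨s, rfl⟩ _ ⟨t, rfl⟩ h1
    rw [← sub_eq_zero]
    apply mulE_inj hinj (Submodule.sub_mem _ (tw_mem hx s) (tw_mem hx t))
    rw [mul_sub, sub_eq_zero]
    exact h1

end

/-- The classes with the property `R` and a finite orbit. -/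
def finPred {Γ : Type x} (A : Act W E Γ) (R : ClassPred W) : ClassPred W where
  P X j c := R.P X j c ∧ FinOrb A X j c
  gr h := R.gr h.1
  zero := ⟨R.zero, FinOrb.zero⟩
  add ha hb := ⟨R.add ha.1 hb.1, ha.2.add hb.2⟩
  smul r _ ha := ⟨R.smul r ha.1, ha.2.smul r⟩
  cl hz := ⟨R.cl hz, FinOrb.cl hz⟩
  mul ha hb := ⟨R.mul ha.1 hb.1, ha.2.mul hb.2⟩
  map f _ _ h := ⟨R.map f h.1, h.2.map f⟩
  push f _ _ hl _ h := ⟨R.push f hl h.1, h.2.push f hl⟩

end Pool.Agent.H60ZO
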