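import Pool.Agent.H60ZO.Law
import Pool.Agent.R920.DB.Main
import Pool.Agent.H37PG.Gal

/-!
# Finite orbits under the automorphisms of the complex numbers which fix the de Rham cohomology
-/

open CategoryTheory AlgebraicGeometry Filter Topology

open scoped TensorProduct ENNReal

universe u v w x

namespace Pool.Agent.H60ZO

open Module
open Pool.Agent.H914 Pool.Agent.H914.VarClass Pool.Agent.H914.VarClass.Obj
  Pool.Agent.H914.WeilCohomology
open Pool.Agent.Y133.Half (ClassPred pw)
open Pool.Agent.Y133.Per Pool.Agent.R920.DB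

section Lin

variable {F : Subfield ℂ} {V : Type*} [AddCommGroup V] [Module ℂ V]

/-- A basis consisting of elements of `U`, with respect to which the elements of `U` have coordinates
in `F`. -/
lemma exists_fbasis [FiniteDimensional ℂ V] (U : Submodule F V) (hD : Submodule.span ℂ (U : Set V) = ⊤)
    (B : V →ₗ[ℂ] V →ₗ[ℂ] ℂ) (hB : ∀ v, (∀ w, B v w = 0) → v = 0)
    (hDB : ∀ v ∈ U, ∀ w ∈ U, B v w ∈ F) :
    ∃ e : Basis (Fin (finrank ℂ V)) ℂ V, (∀ i, e i ∈ U) ∧ ∀ v ∈ U, ∀ i, e.repr v i ∈ F := by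
  classical
  obtain ⟨s, hs, hspan, hli⟩ := exists_linearIndependent ℂ (U : Set V)
  rw [hD] at hspan
  have hfin : Finite s := hli.finite
  have : Fintype s := Fintype.ofFinite s
  let e₀ : Basis s ℂ V := Basis.mk hli (by rw [Subtype.range_coe, hspan])
  have hcard : Fintype.card s = finrank ℂ V := (finrank_eq_card_basis e₀).symm
  let e : Basis (Fin (finrank ℂ V)) ℂ V := e₀.reindex (Fintype.equivFinOfCardEq hcard)
  have he : ∀ i, e i ∈ U := by
    intro i
    rw [Basis.reindex_apply, Basis.mk_apply]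
    exact hs (Subtype.property _)
  refine ⟨e, he, ?_⟩
  let U' : Submodule F V := Submodule.span F (Set.range e)
  have hU' : U' ≤ U := by
    apply Submodule.span_le.2
    rintro _ ⟨i, rfl⟩
    exact he i
  have hspan' : Submodule.span ℂ (U' : Set V) = ⊤ := by
    rw [eq_top_iff, ← e.span_eq]
    exact Submodule.span_mono (Submodule.subset_span)
  let U'' : Submodule F V :=
    { carrier := {v | ∀ i, e.repr v i ∈ F}
      add_mem' := fun {a b} ha hb i => by
        rw [map_add, Finsupp.add_apply]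
        exact F.add_mem (ha i) (hb i)
      zero_mem' := fun i => by
        rw [map_zero, Finsupp.zero_apply]
        exact F.zero_mem
      smul_mem' := fun r v hv i => by
        have h1 : r • v = (r : ℂ) • v := rfl
        rw [h1, map_smul, Finsupp.smul_apply, smul_eq_mul]
        exact F.mul_mem r.2 (hv i) }
  intro v hv
  have h1 : v ∈ U' := mem_of_pair U' hspan' B hB
    (fun v hv w hw => hDB v (hU' hv) w (hU' hw)) (fun w hw => hDB v hv w (hU' hw))
  have h2 : U' ≤ U'' := by
    apply Submodule.span_le.2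
    rintro _ ⟨i, rfl⟩ j
    rw [e.repr_self, Finsupp.single_apply]
    split
    · exact F.one_mem
    · exact F.zero_mem
  exact h2 h1

/-- The semilinear map which fixes the elements of the basis. -/
noncomputable def semi {n : ℕ} (e : Basis (Fin n) ℂ V) (g : ℂ ≃+* ℂ) : V →+ V where
  toFun v := ∑ i, g (e.repr v i) • e i
  map_zero' := by simp
  map_add' a b := by
    simp only [map_add, Finsupp.add_apply, add_smul, Finset.sum_add_distrib]

lemma semi_apply {n : ℕ} (e : Basis (Fin n) ℂ V) (g : ℂ ≃+* ℂ) (v : V) :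
    semi e g v = ∑ i, g (e.repr v i) • e i := rfl

lemma semi_smul {n : ℕ} (e : Basis (Fin n) ℂ V) (g : ℂ ≃+* ℂ) (r : ℂ) (v : V) :
    semi e g (r • v) = g r • semi e g v := by
  rw [semi_apply, semi_apply, Finset.smul_sum]
  refine Finset.sum_congr rfl fun i _ => ?_
  rw [map_smul, Finsupp.smul_apply, smul_eq_mul, map_mul, mul_smul]

lemma semi_fix {n : ℕ} (e : Basis (Fin n) ℂ V) (g : ℂ ≃+* ℂ) (hg : ∀ x ∈ F, g x = x) {v : V}
    (hv : ∀ i, e.repr v i ∈ F) : semi e g v = v := by
  rw [semi_apply]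
  conv_rhs => rw [← e.sum_repr v]
  exact Finset.sum_congr rfl fun i _ => by rw [hg _ (hv i)]

lemma semi_basis {n : ℕ} (e : Basis (Fin n) ℂ V) (g : ℂ ≃+* ℂ) (i : Fin n) :
    semi e g (e i) = e i := by
  rw [semi_apply, Finset.sum_eq_single i]
  · rw [e.repr_self, Finsupp.single_eq_same, map_one, one_smul]
  · intro j _ hj
    rw [e.repr_self, Finsupp.single_eq_of_ne (by simpa using hj), map_zero, zero_smul]
  · intro h; exact absurd (Finset.mem_univ i) h

lemma semi_symm {n : ℕ} (e : Basis (Fin n) ℂ V) (g : ℂ ≃+* ℂ) (v : V) :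
    semi e g (semi e g.symm v) = v := by
  rw [semi_apply e g.symm, map_sum]
  conv_rhs => rw [← e.sum_repr v]
  refine Finset.sum_congr rfl fun i _ => ?_
  rw [semi_smul, semi_basis, RingEquiv.apply_symm_apply]

/-- Two additive maps which are semilinear and agree on a spanning set are equal. -/
lemma semi_ext {V' : Type*} [AddCommGroup V'] [Module ℂ V'] {S : Set V}
    (hS : Submodule.span ℂ S = ⊤) (g : ℂ ≃+* ℂ) {p q : V →+ V'}
    (hp : ∀ (r : ℂ) v, p (r • v) = g r • p v) (hq : ∀ (r : ℂ) v, q (r • v) = g r • q v)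
    (h : ∀ v ∈ S, p v = q v) : p = q := by
  apply AddMonoidHom.ext
  intro v
  have hv : v ∈ Submodule.span ℂ S := by rw [hS]; exact Submodule.mem_top
  induction hv using Submodule.span_induction with
  | mem x hx => exact h x hx
  | zero => rw [map_zero, map_zero]
  | add a b _ _ ha hb => rw [map_add, map_add, ha, hb]
  | smul r a _ ha => rw [hp, hq, ha]

end Lin

/-- The automorphisms of `ℂ` which fix the elements of `F`. -/
def AutF (F : Subfield ℂ) : Type := {g : ℂ ≃+* ℂ // ∀ x ∈ F, g x = x}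

/-- A number with a finite orbit is algebraic over `F`. -/
lemma algebraic_of_finite {F : Subfield ℂ} {a : ℂ}
    (h : (Set.range fun g : AutF F => g.1 a).Finite) : IsAlgebraic F a := by
  by_contra ha
  have hn : ∀ n : ℕ, Transcendental F (a + n) := by
    intro n hn
    apply ha
    have h1 : IsAlgebraic F ((n : ℂ)) := isAlgebraic_algebraMap (n : F)
    have h2 := hn.sub h1
    rwa [add_sub_cancel_right] at h2
  have h2 : ∀ n : ℕ, a + n ∈ Set.range fun g : AutF F => g.1 a := by
    intro n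
    obtain ⟨σ, hσ, hσa⟩ := Pool.Agent.H37PG.exists_aut (k := F) (F := ℂ) ha (hn n)
    exact ⟨⟨σ, fun x hx => hσ ⟨x, hx⟩⟩, hσa⟩
  have h3 : (Set.range fun n : ℕ => a + n).Finite := h.subset (by rintro _ ⟨n, rfl⟩; exact h2 n)
  have h4 : Function.Injective fun n : ℕ => a + (n : ℂ) := by
    intro m n hmn
    have := add_left_cancel hmn
    exact_mod_cast this
  exact Set.infinite_range_of_injective h4 h3

variable {k : Type u} [Field k] {𝒱 : VarClass k} {ops : CycleOps 𝒱}
variable {W : WeilCohomology.{u, v} ops} [Algebra W.K ℂ] {F : Subfield ℂ} {X Y Z : 𝒱.Obj}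

instance (X : 𝒱.Obj) : FiniteDimensional ℂ (Base W.K (W.H X)) :=
  inferInstanceAs (Module.Finite ℂ (ℂ ⊗[W.K] W.H X))

lemma exists_dRbasis (D : DeRham W F) (X : 𝒱.Obj) :
    ∃ e : Basis (Fin (finrank ℂ (Base W.K (W.H X)))) ℂ (Base W.K (W.H X)),
      (∀ i, e i ∈ D.dR X) ∧ ∀ v ∈ D.dR X, ∀ i, e.repr v i ∈ F := by
  have h0 : twoPiI ^ X.dim ≠ 0 := pow_ne_zero _ twoPiI_ne
  let B : Base W.K (W.H X) →ₗ[ℂ] Base W.K (W.H X) →ₗ[ℂ] ℂ :=
    (twoPiI ^ X.dim)⁻¹ • ((LinearMap.mul ℂ (Base W.K (W.H X))).compr₂ (baseTr (W.tr X)))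
  have hBe : ∀ v w, B v w = (twoPiI ^ X.dim)⁻¹ * baseTr (W.tr X) (v * w) := fun v w => rfl
  refine exists_fbasis (dRSub D X) (D.form X).span B ?_ ?_
  · intro v hv
    apply baseTr_nondeg _ (Pool.Agent.Y133.Half.exists_dual_class W)
    intro b
    have h1 := hv b
    rw [hBe] at h1
    exact (mul_eq_zero.1 h1).resolve_left (inv_ne_zero h0)
  · intro v hv w hw
    obtain ⟨r, hr, h⟩ := (D.form X).tr _ ((D.form X).mul v hv w hw)
    rw [hBe, h, ← mul_assoc, inv_mul_cancel₀ h0, one_mul]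
    exact hr

/-- The basis. -/
noncomputable def dRb (D : DeRham W F) (X : 𝒱.Obj) :
    Basis (Fin (finrank ℂ (Base W.K (W.H X)))) ℂ (Base W.K (W.H X)) :=
  (exists_dRbasis D X).choose

lemma dRb_mem (D : DeRham W F) (X : 𝒱.Obj) (i) : dRb D X i ∈ D.dR X :=
  (exists_dRbasis D X).choose_spec.1 i

lemma dRb_repr (D : DeRham W F) {v : Base W.K (W.H X)} (hv : v ∈ D.dR X) (i) :
    (dRb D X).repr v i ∈ F := (exists_dRbasis D X).choose_spec.2 v hv i

/-- The semilinear map fixing the de Rham cohomology. -/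
noncomputable def dRs (D : DeRham W F) (X : 𝒱.Obj) (g : AutF F) :
    Base W.K (W.H X) →+ Base W.K (W.H X) := semi (dRb D X) g.1

lemma dRs_smul (D : DeRham W F) (g : AutF F) (r : ℂ) (v : Base W.K (W.H X)) :
    dRs D X g (r • v) = g.1 r • dRs D X g v := semi_smul _ _ _ _

lemma dRs_fix (D : DeRham W F) (g : AutF F) {v : Base W.K (W.H X)} (hv : v ∈ D.dR X) :
    dRs D X g v = v := semi_fix _ _ g.2 (dRb_repr D hv)

lemma dRs_mul (D : DeRham W F) (g : AutF F) (a b : Base W.K (W.H X)) :
    dRs D X g (a * b) = dRs D X g a * dRs D X g b := by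
  have h1 : ∀ a ∈ D.dR X, ∀ b, dRs D X g (a * b) = dRs D X g a * dRs D X g b := by
    intro a ha b
    have h2 := semi_ext (D.form X).span g.1
      (p := (dRs D X g).comp (AddMonoidHom.mulLeft a))
      (q := (AddMonoidHom.mulLeft (dRs D X g a)).comp (dRs D X g)) ?_ ?_ ?_
    · exact congrArg (fun f => f b) h2
    · intro r v
      simp only [AddMonoidHom.comp_apply, AddMonoidHom.coe_mulLeft, mul_smul_comm, dRs_smul]
    · intro r v
      simp only [AddMonoidHom.comp_apply, AddMonoidHom.coe_mulLeft, mul_smul_comm, dRs_smul]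
    · intro v hv
      simp only [AddMonoidHom.comp_apply, AddMonoidHom.coe_mulLeft]
      rw [dRs_fix D g ha, dRs_fix D g hv, dRs_fix D g ((D.form X).mul a ha v hv)]
  have h2 := semi_ext (D.form X).span g.1
      (p := (dRs D X g).comp (AddMonoidHom.mulRight b))
      (q := (AddMonoidHom.mulRight (dRs D X g b)).comp (dRs D X g)) ?_ ?_ ?_
  · exact congrArg (fun f => f a) h2
  · intro r v
    simp only [AddMonoidHom.comp_apply, AddMonoidHom.coe_mulRight, smul_mul_assoc, dRs_smul]
  · intro r v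
    simp only [AddMonoidHom.comp_apply, AddMonoidHom.coe_mulRight, smul_mul_assoc, dRs_smul]
  · intro v hv
    simp only [AddMonoidHom.comp_apply, AddMonoidHom.coe_mulRight]
    exact h1 v hv b

lemma twist_zero_one : (twist 0 (1 : W.H X) : Base W.K (W.H X)) = 1 := by
  rw [twist, pow_zero]
  rfl

lemma one_mem_dR (D : DeRham W F) (X : 𝒱.Obj) : (1 : Base W.K (W.H X)) ∈ D.dR X := by
  have h1 : IsDRB D X 0 (1 : W.H X) := by
    rw [← W.cl_fund]
    exact IsDRB.cl X.V.fundCycle_mem
  rw [← twist_zero_one]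
  exact h1.2

/-- The ring homomorphism. -/
noncomputable def dRr (D : DeRham W F) (X : 𝒱.Obj) (g : AutF F) :
    Base W.K (W.H X) →+* Base W.K (W.H X) where
  toFun := dRs D X g
  map_one' := dRs_fix D g (one_mem_dR D X)
  map_mul' := dRs_mul D g
  map_zero' := map_zero _
  map_add' := map_add _

lemma dRr_apply (D : DeRham W F) (g : AutF F) (v : Base W.K (W.H X)) :
    dRr D X g v = dRs D X g v := rfl

lemma dRs_nat (D : DeRham W F) (g : AutF F) (f : X ⟶ Y) (y : Base W.K (W.H Y)) :
    dRs D X g (baseMap (W.map f) y) = baseMap (W.map f) (dRs D Y g y) := by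
  have h2 := semi_ext (D.form Y).span g.1
      (p := (dRs D X g).comp ((baseMap (W.map f)).toLinearMap.toAddMonoidHom))
      (q := ((baseMap (W.map f)).toLinearMap.toAddMonoidHom).comp (dRs D Y g)) ?_ ?_ ?_
  · exact congrArg (fun f => f y) h2
  · intro r v
    change dRs D X g (baseMap (W.map f) (r • v)) = g.1 r • dRs D X g (baseMap (W.map f) v)
    rw [map_smul, dRs_smul]
  · intro r v
    change baseMap (W.map f) (dRs D Y g (r • v)) = g.1 r • baseMap (W.map f) (dRs D Y g v)
    rw [dRs_smul, map_smul]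
  · intro v hv
    change dRs D X g (baseMap (W.map f) v) = baseMap (W.map f) (dRs D Y g v)
    rw [dRs_fix D g hv, dRs_fix D g (D.map f v hv)]

lemma dRs_gr {D : DeRham W F} (hD : IsGraded D) (g : AutF F) {i : ℕ} {c : W.H X}
    (hc : c ∈ W.gr X i) : dRs D X g (tm 1 c) ∈ baseSub (W.gr X i) := by
  by_cases hi : i ≤ 2 * X.dim
  · have h2 : (dRs D X g).comp (bproj W X i).toAddMonoidHom =
        ((bproj W X i).toAddMonoidHom).comp (dRs D X g) := by
      apply semi_ext (D.form X).span g.1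
      · intro r v
        change dRs D X g (bproj W X i (r • v)) = g.1 r • dRs D X g (bproj W X i v)
        rw [map_smul, dRs_smul]
      · intro r v
        change bproj W X i (dRs D X g (r • v)) = g.1 r • bproj W X i (dRs D X g v)
        rw [dRs_smul, map_smul]
      · intro v hv
        change dRs D X g (bproj W X i v) = bproj W X i (dRs D X g v)
        rw [dRs_fix D g hv, dRs_fix D g (bproj_dR hD hi hv)]
    have h3 : (tm 1 c : Base W.K (W.H X)) = bproj W X i (tm 1 c) := (bproj_same (tm_mem 1 hc)).symm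
    rw [h3]
    have h4 := congrArg (fun f => f (tm 1 c)) h2
    change dRs D X g (bproj W X i (tm 1 c)) = bproj W X i (dRs D X g (tm 1 c)) at h4
    rw [h4]
    exact bproj_mem i _
  · rw [W.gr_eq_bot X i (by omega), Submodule.mem_bot] at hc
    rw [hc, tm_zero, map_zero]
    exact Submodule.zero_mem _

/-- The character. -/
noncomputable def chi (g : AutF F) : ℂˣ :=
  Units.mk0 (twoPiI / g.1 twoPiI) (div_ne_zero twoPiI_ne (by
    rw [Ne, map_eq_zero]
    exact twoPiI_ne))

lemma g_ne (g : AutF F) : g.1 twoPiI ≠ 0 := by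
  rw [Ne, map_eq_zero]
  exact twoPiI_ne

lemma dRs_twist (D : DeRham W F) (g : AutF F) {j : ℕ} {c : W.H X} (hc : twist j c ∈ D.dR X) :
    dRs D X g (tm 1 c) = ((chi g : ℂˣ) : ℂ) ^ j • tm 1 c := by
  have h1 := dRs_fix D g hc
  have h2 : (twist j c : Base W.K (W.H X)) = twoPiI ^ j • tm 1 c := by
    rw [twist, smul_tm, mul_one]
  rw [h2, dRs_smul, map_pow] at h1
  have h3 : g.1 twoPiI ^ j ≠ 0 := pow_ne_zero _ (g_ne g)
  have h4 := congrArg (fun v => (g.1 twoPiI ^ j)⁻¹ • v) h1
  simp only [smul_smul] at h4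
  rw [inv_mul_cancel₀ h3, one_smul] at h4
  rw [h4]
  congr 1
  rw [chi, Units.val_mk0, div_pow, div_eq_inv_mul]

/-- The automorphism over the coefficient field. -/
noncomputable def sg (D : DeRham W F) (X₀ : 𝒱.Obj) (g : AutF F) : ℂ ≃ₐ[W.K] ℂ :=
  AlgEquiv.ofRingEquiv (f := g.1) fun r => g.2 _ ((D.form X₀).scal r)

/-- Every variety has a divisor satisfying the hard Lefschetz theorem. -/
def HasLefschetz (W : WeilCohomology.{u, v} ops) : Prop :=
  ∀ X : 𝒱.Obj, ∃ E : X.Cycles, X.IsCyc 1 E ∧ HardLefschetz W X E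

omit [Algebra W.K ℂ] in
lemma top_eq (hW : HasLefschetz W) {c : W.H X} (hc : c ∈ W.gr X (2 * X.dim)) :
    ∃ (E : X.Cycles) (r : W.K), X.IsCyc 1 E ∧ c = r • W.cl X E ^ X.dim := by
  obtain ⟨E, hE, hL⟩ := hW X
  obtain ⟨x, hx, h⟩ := (hL 0 (Nat.zero_le _)).2 c hc
  rw [LinearMap.pow_mulLeft, LinearMap.mulLeft_apply, Nat.sub_zero] at h
  rw [W.gr_zero, Submodule.mem_span_singleton] at hx
  obtain ⟨r, rfl⟩ := hx
  exact ⟨E, r, hE, by rw [← h, mul_smul_comm, mul_one]⟩

lemma drb_top (D : DeRham W F) (hW : HasLefschetz W) {c : W.H X}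
    (hc : c ∈ W.gr X (2 * X.dim)) : IsDRB D X X.dim c := by
  obtain ⟨E, r, hE, rfl⟩ := top_eq hW hc
  have h1 : IsDRB D X (1 * X.dim) (W.cl X E ^ X.dim) :=
    ClassPred.pow (Q := drbPred D) ((drbPred D).cl hE) X.dim
  rw [one_mul] at h1
  exact h1.smul r

/-- The family of semilinear automorphisms fixing the de Rham cohomology. -/
noncomputable def dRAct (D : DeRham W F) (hD : IsGraded D) (hW : HasLefschetz W) (X₀ : 𝒱.Obj) :
    Act W ℂ (AutF F) where
  σ g := sg D X₀ g
  χ g := chi g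
  h X g := dRr D X g
  h_smul X g r a := dRs_smul D g r a
  h_surj X g v := ⟨semi (dRb D X) g.1.symm v, semi_symm _ _ _⟩
  gr_mem {X} g i c hc := by
    rw [Submodule.baseChange_eq_span]
    have h1 := dRs_gr hD g hc
    refine Submodule.span_mono ?_ h1
    rintro _ ⟨c, hc, rfl⟩
    exact ⟨c, hc, rfl⟩
  nat f g y := dRs_nat D g f y
  cyc hz g := dRs_twist D g ((drbPred D).cl hz).2
  deg hc g := dRs_twist D g (drb_top D hW hc).2

lemma chi_pow_inv (g : AutF F) (j : ℕ) :
    (((chi g) ^ j)⁻¹ : ℂˣ).val = (twoPiI ^ j)⁻¹ * g.1 twoPiI ^ j := by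
  rw [← inv_pow, Units.val_pow_eq_pow_val, Units.val_inv_eq_inv_val, chi, Units.val_mk0, inv_div,
    div_pow, div_eq_inv_mul]

lemma dRAct_tw (D : DeRham W F) (hD : IsGraded D) (hW : HasLefschetz W) (X₀ : 𝒱.Obj) (j : ℕ)
    (g : AutF F) (c : W.H X) : tw (dRAct D hD hW X₀) X j g (1 ⊗ₜ[W.K] c) =
      (twoPiI ^ j)⁻¹ • dRs D X g (twist j c) := by
  have h2 : (twist j c : Base W.K (W.H X)) = twoPiI ^ j • tm 1 c := by
    rw [twist, smul_tm, mul_one]
  rw [h2, dRs_smul, smul_smul, map_pow, ← chi_pow_inv]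
  rfl

/-- The classes with finite orbits are the de Rham-Betti classes, if `F` is algebraically closed in
the field of complex numbers. -/
lemma drb_finOrb_iff (D : DeRham W F) (hD : IsGraded D) (hW : HasLefschetz W) (X₀ : 𝒱.Obj)
    (hF : ∀ a : ℂ, IsAlgebraic F a → a ∈ F) {j : ℕ} {c : W.H X} (hc : c ∈ W.gr X (2 * j)) :
    IsDRB D X j c ↔ FinOrb (dRAct D hD hW X₀) X j c := by
  constructor
  · intro h
    apply FinOrb.of_fixed
    intro g
    rw [dRAct_tw, dRs_fix D g h.2, twist, smul_tm, inv_mul_cancel₀ (pow_ne_zero _ twoPiI_ne)]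
    rfl
  · intro h
    refine ⟨hc, ?_⟩
    have h0 : twoPiI ^ j ≠ 0 := pow_ne_zero _ twoPiI_ne
    have h1 : ∀ i, (dRb D X).repr (twist j c) i ∈ F := by
      intro i
      apply hF
      apply algebraic_of_finite
      apply (h.image fun v => (dRb D X).repr (twoPiI ^ j • (show Base W.K (W.H X) from v)) i).subset
      rintro _ ⟨g, rfl⟩
      refine ⟨_, ⟨g, rfl⟩, ?_⟩
      change (dRb D X).repr (twoPiI ^ j • (show Base W.K (W.H X) from
        tw (dRAct D hD hW X₀) X j g (1 ⊗ₜ[W.K] c))) i = _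
      rw [dRAct_tw]
      change (dRb D X).repr (twoPiI ^ j • ((twoPiI ^ j)⁻¹ • dRs D X g (twist j c))) i = _
      rw [smul_smul, mul_inv_cancel₀ h0, one_smul, dRs, semi_apply, map_sum,
        Finsupp.finsetSum_apply, Finset.sum_eq_single i]
      · rw [map_smul, Basis.repr_self, Finsupp.smul_apply, Finsupp.single_eq_same, smul_eq_mul,
          mul_one]
      · intro l _ hl
        rw [map_smul, Basis.repr_self, Finsupp.smul_apply,
          Finsupp.single_eq_of_ne (by simpa using hl.symm), smul_zero]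
      · intro h; exact absurd (Finset.mem_univ i) h
    rw [← (dRb D X).sum_repr (twist j c)]
    have h2 : ∀ s : Finset (Fin (finrank ℂ (Base W.K (W.H X)))),
        ∑ i ∈ s, (dRb D X).repr (twist j c) i • (dRb D X) i ∈ D.dR X := by
      intro s
      induction s using Finset.induction_on with
      | empty => exact (D.form X).zero
      | insert a s ha ih =>
        rw [Finset.sum_insert ha]
        exact (D.form X).add _ ((D.form X).smul _ (h1 a) _ (dRb_mem D X a)) _ ih
    exact h2 _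

end Pool.Agent.H60ZO
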