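import Pool.Agent.H914R2.WBase2
import Pool.Agent.H37PG.Gal
import Pool.Agent.H977R3.CM.Aut

/-!
# Subspaces stable under the automorphisms of the complex numbers
-/

open scoped TensorProduct

namespace Pool.Agent.H60ZO

open Module
open Pool.Agent.H914 (sig sig_tmul sig_smul base_induction)

section Fixed

/-- A complex number fixed by all automorphisms over `K` is in `K`. -/
theorem mem_range_of_fixed {K : Type*} [Field K] [CharZero K] [Algebra K ℂ] {a : ℂ}
    (h : ∀ τ : ℂ ≃ₐ[K] ℂ, τ a = a) : a ∈ Set.range (algebraMap K ℂ) := by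
  have halg : IsAlgebraic K a := by
    by_contra ha
    have ha' : Transcendental K a := ha
    have hn : Transcendental K (a + 1) := by
      intro hn
      apply ha
      have h1 : IsAlgebraic K (1 : ℂ) := isAlgebraic_one
      have h2 := hn.sub h1
      rwa [add_sub_cancel_right] at h2
    obtain ⟨σ, hσ, hσa⟩ := Pool.Agent.H37PG.exists_aut (k := K) (F := ℂ) ha' hn
    have h3 := h (AlgEquiv.ofRingEquiv (f := σ) hσ)
    change σ a = a at h3
    rw [hσa] at h3
    simp at h3
  let M := algebraicClosure K ℂ
  have hM : IsAlgClosure K M := inferInstance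
  have hG : IsGalois K M := IsAlgClosure.isGalois K M
  have haM : a ∈ M := mem_algebraicClosure_iff.2 halg
  have h1 : (⟨a, haM⟩ : M) ∈ (⊥ : IntermediateField K M) := by
    rw [InfiniteGalois.mem_bot_iff_fixed]
    intro g
    obtain ⟨σ, hσ⟩ := Pool.Agent.H977R3.CM.exists_aut (algebraMap M ℂ) (g : M ≃+* M)
    have h2 : ∀ c : K, σ (algebraMap K ℂ c) = algebraMap K ℂ c := by
      intro c
      have h3 := hσ (algebraMap K M c)
      rw [← IsScalarTower.algebraMap_apply] at h3
      rw [h3]
      change algebraMap M ℂ (g (algebraMap K M c)) = _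
      rw [AlgEquiv.commutes, ← IsScalarTower.algebraMap_apply]
    have h4 := h (AlgEquiv.ofRingEquiv (f := σ) h2)
    change σ a = a at h4
    have h5 := hσ ⟨a, haM⟩
    change σ a = ((g ⟨a, haM⟩ : M) : ℂ) at h5
    apply Subtype.ext
    rw [← h5, h4]
  rw [IntermediateField.mem_bot] at h1
  obtain ⟨c, hc⟩ := h1
  exact ⟨c, congrArg Subtype.val hc⟩

end Fixed

section Lin

variable {K L V : Type*} [Field K] [Field L] [Algebra K L] [AddCommGroup V] [Module K V]

/-- Contraction with a functional on the field of coefficients. -/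
noncomputable def ctr (f : L →ₗ[K] K) : L ⊗[K] V →ₗ[K] V :=
  (TensorProduct.lid K V).toLinearMap ∘ₗ TensorProduct.map f LinearMap.id

lemma ctr_tmul (f : L →ₗ[K] K) (l : L) (v : V) : ctr f (l ⊗ₜ[K] v) = f l • v := by
  rw [ctr, LinearMap.comp_apply, TensorProduct.map_tmul]
  exact TensorProduct.lid_tmul _ _

lemma ctr_expand (e : Basis (Fin (finrank K V)) K V) (f : L →ₗ[K] K) (x : L ⊗[K] V) :
    ctr f x = ∑ a, f ((e.baseChange L).repr x a) • e a := by
  conv_lhs => rw [← (e.baseChange L).sum_repr x]
  rw [map_sum]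
  refine Finset.sum_congr rfl fun a _ => ?_
  rw [Basis.baseChange_apply, TensorProduct.smul_tmul', smul_eq_mul, mul_one, ctr_tmul]

lemma ctr_mem {p : Submodule K V} {x : L ⊗[K] V} (hx : x ∈ p.baseChange L) (f : L →ₗ[K] K) :
    ctr f x ∈ p := by
  obtain ⟨y, rfl⟩ : x ∈ LinearMap.range (p.subtype.baseChange L) := hx
  induction y using TensorProduct.induction_on with
  | zero => rw [map_zero, map_zero]; exact p.zero_mem
  | add a b ha hb =>
    rw [map_add, map_add]
    exact p.add_mem ha hb
  | tmul l v =>
    rw [LinearMap.baseChange_tmul, ctr_tmul]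
    exact p.smul_mem _ v.2

/-- Membership in the extension of a subspace. -/
lemma mem_bc_iff [FiniteDimensional K V] {p : Submodule K V} {x : L ⊗[K] V} :
    x ∈ p.baseChange L ↔ ∀ f : L →ₗ[K] K, ctr f x ∈ p := by
  refine ⟨fun hx f => ctr_mem hx f, fun h => ?_⟩
  let e := Module.finBasis K V
  obtain ⟨b⟩ : Nonempty (Basis (Basis.ofVectorSpaceIndex K L) K L) := ⟨Basis.ofVectorSpace K L⟩
  -- the finite dimensional span of the coefficients
  classical
  let S : Finset (Basis.ofVectorSpaceIndex K L) :=
    Finset.univ.biUnion fun a => (b.repr ((e.baseChange L).repr x a)).support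
  have h1 : x = ∑ i ∈ S, b i ⊗ₜ[K] ctr (b.coord i) x := by
    conv_lhs => rw [← (e.baseChange L).sum_repr x]
    have h2 : ∀ i, ctr (b.coord i) x = ∑ a, (b.repr ((e.baseChange L).repr x a) i) • e a :=
      fun i => ctr_expand e _ _
    simp_rw [h2, TensorProduct.tmul_sum]
    rw [Finset.sum_comm]
    refine Finset.sum_congr rfl fun a _ => ?_
    rw [Basis.baseChange_apply, TensorProduct.smul_tmul', smul_eq_mul, mul_one]
    have h3 : (e.baseChange L).repr x a =
        ∑ i ∈ S, (b.repr ((e.baseChange L).repr x a) i) • b i := by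
      conv_lhs => rw [← b.linearCombination_repr ((e.baseChange L).repr x a)]
      rw [Finsupp.linearCombination_apply, Finsupp.sum]
      apply Finset.sum_subset
      · intro i hi
        exact Finset.mem_biUnion.2 ⟨a, Finset.mem_univ _, hi⟩
      · intro i _ hi
        rw [Finsupp.notMem_support_iff.1 hi, zero_smul]
    conv_lhs => rw [h3]
    rw [TensorProduct.sum_tmul]
    refine Finset.sum_congr rfl fun i _ => ?_
    rw [TensorProduct.tmul_smul, TensorProduct.smul_tmul']
  rw [h1]
  exact Submodule.sum_mem _ fun i _ => Submodule.tmul_mem_baseChange_of_mem _ (h _)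

variable (K L) in
lemma exists_fun_one : ∃ f : L →ₗ[K] K, f 1 = 1 := by
  obtain ⟨f, hf⟩ := LinearMap.exists_leftInverse_of_injective (Algebra.linearMap K L)
    (LinearMap.ker_eq_bot.2 (algebraMap K L).injective)
  refine ⟨f, ?_⟩
  have h1 := congrArg (fun g : K →ₗ[K] K => g 1) hf
  simpa using h1

lemma one_tmul_mem_iff [FiniteDimensional K V] {p : Submodule K V} {v : V} :
    (1 : L) ⊗ₜ[K] v ∈ p.baseChange L ↔ v ∈ p := by
  refine ⟨fun h => ?_, fun h => Submodule.tmul_mem_baseChange_of_mem _ h⟩
  obtain ⟨f, hf⟩ := exists_fun_one K L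
  have h1 := ctr_mem h f
  rwa [ctr_tmul, hf, one_smul] at h1

/-- **Descent**: a subspace stable under the automorphisms over `K` is spanned by the vectors
which are rational over `K`, if only the elements of `K` are fixed by all automorphisms. -/
theorem descent [FiniteDimensional K V]
    (hfix : ∀ a : L, (∀ τ : L ≃ₐ[K] L, τ a = a) → a ∈ Set.range (algebraMap K L))
    (D : Submodule L (L ⊗[K] V)) (hD : ∀ (τ : L ≃ₐ[K] L), ∀ x ∈ D, sig τ x ∈ D)
    (p : Submodule K V) (hp : ∀ v, v ∈ p ↔ (1 : L) ⊗ₜ[K] v ∈ D) {x : L ⊗[K] V} (hx : x ∈ D) :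
    x ∈ p.baseChange L := by
  classical
  obtain ⟨C, hC⟩ := Submodule.exists_isCompl p
  let e := Module.finBasis K C
  -- the vectors with coefficients in `L`
  let F : (Fin (finrank K C) → L) → L ⊗[K] V := fun l => ∑ i, l i ⊗ₜ[K] ((e i : C) : V)
  have hF : ∀ m, ∀ l : Fin (finrank K C) → L, (Finset.univ.filter fun i => l i ≠ 0).card ≤ m →
      F l ∈ D → l = 0 := by
    intro m
    induction m with
    | zero =>
      intro l hl _
      funext i
      by_contra hi
      have h1 : i ∈ Finset.univ.filter fun i => l i ≠ 0 := by simp; exact hi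
      rw [Nat.le_zero, Finset.card_eq_zero] at hl
      rw [hl] at h1
      simp at h1
    | succ m ih =>
      intro l hl hlD
      by_contra hne
      obtain ⟨i₀, hi₀⟩ : ∃ i, l i ≠ 0 := by
        by_contra h
        push Not at h
        exact hne (funext h)
      -- scaling
      let l' : Fin (finrank K C) → L := fun i => (l i₀)⁻¹ * l i
      have hl' : F l' ∈ D := by
        have h1 : F l' = (l i₀)⁻¹ • F l := by
          simp only [F, l', Finset.smul_sum, TensorProduct.smul_tmul', smul_eq_mul]
        rw [h1]
        exact D.smul_mem _ hlD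
      have hl1 : l' i₀ = 1 := inv_mul_cancel₀ hi₀
      have hτ : ∀ τ : L ≃ₐ[K] L, ∀ i, τ (l' i) = l' i := by
        intro τ
        have h1 : F (fun i => τ (l' i) - l' i) ∈ D := by
          have h2 : F (fun i => τ (l' i) - l' i) = sig τ (F l') - F l' := by
            simp only [F, map_sum, sig_tmul, TensorProduct.sub_tmul, Finset.sum_sub_distrib]
          rw [h2]
          exact D.sub_mem (hD τ _ hl') hl'
        have h2 := ih _ ?_ h1
        · intro i
          exact sub_eq_zero.1 (congrFun h2 i)
        · have h3 : (Finset.univ.filter fun i => τ (l' i) - l' i ≠ 0) ⊆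
              (Finset.univ.filter fun i => l i ≠ 0).erase i₀ := by
            intro i hi
            rw [Finset.mem_filter] at hi
            rw [Finset.mem_erase, Finset.mem_filter]
            refine ⟨?_, Finset.mem_univ _, ?_⟩
            · rintro rfl
              apply hi.2
              rw [hl1, map_one, sub_self]
            · intro h0
              apply hi.2
              change τ ((l i₀)⁻¹ * l i) - (l i₀)⁻¹ * l i = 0
              rw [h0, mul_zero, map_zero, sub_self]
          refine (Finset.card_le_card h3).trans ?_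
          have h4 : i₀ ∈ Finset.univ.filter fun i => l i ≠ 0 :=
            Finset.mem_filter.2 ⟨Finset.mem_univ _, hi₀⟩
          rw [Finset.card_erase_of_mem h4]
          omega
      choose c hc using fun i => hfix (l' i) fun τ => hτ τ i
      have h4 : F l' = (1 : L) ⊗ₜ[K] (((∑ i, c i • e i : C)) : V) := by
        have h5 : (((∑ i, c i • e i : C)) : V) = ∑ i, c i • ((e i : C) : V) := by
          simp
        rw [h5, TensorProduct.tmul_sum]
        refine Finset.sum_congr rfl fun i _ => ?_
        rw [TensorProduct.tmul_smul, ← hc, TensorProduct.smul_tmul', Algebra.smul_def, mul_one]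
      rw [h4] at hl'
      have h6 : (((∑ i, c i • e i : C)) : V) ∈ p := (hp _).2 hl'
      have h7 : (((∑ i, c i • e i : C)) : V) ∈ p ⊓ C := ⟨h6, Subtype.property _⟩
      rw [hC.inf_eq_bot, Submodule.mem_bot] at h7
      have h8 : (∑ i, c i • e i : C) = 0 := Subtype.ext h7
      have h9 := Fintype.linearIndependent_iff.1 e.linearIndependent c h8 i₀
      have h10 := hc i₀
      rw [h9, map_zero, hl1] at h10
      exact zero_ne_one h10
  -- decomposition
  let P : V →ₗ[K] V := p.subtype ∘ₗ p.projectionOnto C hC
  let P' : V →ₗ[K] C := C.projectionOnto p hC.symm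
  have hdec : ∀ x : L ⊗[K] V, x = P.baseChange L x + (C.subtype ∘ₗ P').baseChange L x := by
    intro x
    rw [← LinearMap.add_apply, ← LinearMap.baseChange_add]
    have h1 : P + C.subtype ∘ₗ P' = LinearMap.id := by
      apply LinearMap.ext
      intro v
      change ((p.projectionOnto C hC v : p) : V) + ((C.projectionOnto p hC.symm v : C) : V) = v
      rw [Submodule.coe_projectionOnto_apply, Submodule.coe_projectionOnto_apply]
      exact Submodule.projection_add_projection_eq_self hC v
    rw [h1, LinearMap.baseChange_id, LinearMap.id_apply]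
  have hPm : ∀ x : L ⊗[K] V, P.baseChange L x ∈ p.baseChange L := by
    intro x
    rw [LinearMap.baseChange_comp]
    exact ⟨_, rfl⟩
  have hpD : p.baseChange L ≤ D := by
    rw [Submodule.baseChange_eq_span, Submodule.span_le]
    rintro _ ⟨v, hv, rfl⟩
    exact (hp v).1 hv
  have hCF : ∀ x : L ⊗[K] V, ∃ l, (C.subtype ∘ₗ P').baseChange L x = F l := by
    intro x
    have h1 : ∀ y : L ⊗[K] C, ∃ l, C.subtype.baseChange L y = F l := by
      intro y
      refine ⟨fun i => (e.baseChange L).repr y i, ?_⟩
      conv_lhs => rw [← (e.baseChange L).sum_repr y]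
      rw [map_sum]
      refine Finset.sum_congr rfl fun i _ => ?_
      rw [map_smul, Basis.baseChange_apply, LinearMap.baseChange_tmul, TensorProduct.smul_tmul',
        smul_eq_mul, mul_one]
      rfl
    obtain ⟨l, hl⟩ := h1 (P'.baseChange L x)
    refine ⟨l, ?_⟩
    rw [LinearMap.baseChange_comp, LinearMap.comp_apply]
    exact hl
  obtain ⟨l, hl⟩ := hCF x
  have h1 : F l ∈ D := by
    rw [← hl]
    have h2 : (C.subtype ∘ₗ P').baseChange L x = x - P.baseChange L x := by
      rw [eq_sub_iff_add_eq, add_comm]
      exact (hdec x).symm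
    rw [h2]
    exact D.sub_mem hx (hpD (hPm x))
  have h2 := hF _ l le_rfl h1
  rw [hdec x, hl, h2]
  have h3 : F 0 = 0 := by simp [F]
  rw [h3, add_zero]
  exact hPm x

/-- The extension of an intersection. -/
lemma mem_iInf_bc [FiniteDimensional K V] {ι : Sort*} {p : ι → Submodule K V} {x : L ⊗[K] V}
    (h : ∀ i, x ∈ (p i).baseChange L) : x ∈ (⨅ i, p i).baseChange L := by
  rw [mem_bc_iff]
  intro f
  rw [Submodule.mem_iInf]
  exact fun i => ctr_mem (h i) f

end Lin

end Pool.Agent.H60ZO
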