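import Pool.Agent.H60ZO.Galois
import Pool.Agent.H60ZO.Desc
import Pool.Agent.Y133.Half.PairBase

/-!
# Galois actions after an extension of the coefficients
-/

open CategoryTheory AlgebraicGeometry Filter Topology

open scoped TensorProduct ENNReal

universe u v w x

namespace Pool.Agent.H60ZO

open Module
open Pool.Agent.H914 Pool.Agent.H914.VarClass Pool.Agent.H914.VarClass.Obj
  Pool.Agent.H914.WeilCohomology
open Pool.Agent.Y133.Half (ClassPred pw HasIndex dimBy)
open Gal

section Alg

variable {K E L : Type*} [Field K] [Field E] [Algebra K E] [Field L] [Algebra K L]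
  {A B : Type*} [Ring A] [Algebra K A] [Ring B] [Algebra K B]

/-- The change of coefficients. -/
noncomputable def phi (ι : E →ₐ[K] L) (A : Type*) [Ring A] [Algebra K A] :
    E ⊗[K] A →ₐ[K] L ⊗[K] A :=
  Algebra.TensorProduct.map ι (AlgHom.id K A)

lemma phi_tmul (ι : E →ₐ[K] L) (r : E) (a : A) : phi ι A (r ⊗ₜ[K] a) = ι r ⊗ₜ[K] a :=
  Algebra.TensorProduct.map_tmul _ _ _ _

lemma phi_smul (ι : E →ₐ[K] L) (r : E) (y : E ⊗[K] A) :
    phi ι A (r • y) = ι r • phi ι A y := by
  induction y using TensorProduct.induction_on with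
  | zero => rw [smul_zero, map_zero, smul_zero]
  | add a b ha hb => rw [smul_add, map_add, ha, hb, map_add, smul_add]
  | tmul s c =>
    rw [TensorProduct.smul_tmul', phi_tmul, phi_tmul, TensorProduct.smul_tmul', smul_eq_mul,
      smul_eq_mul, map_mul]

lemma phi_inj (ι : E →ₐ[K] L) : Function.Injective (phi ι A) := by
  have h1 : Function.Injective (LinearMap.rTensor A ι.toLinearMap) :=
    Module.Flat.rTensor_preserves_injective_linearMap (M := A) ι.toLinearMap ι.injective
  intro a b h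
  exact h1 h

lemma phi_map (ι : E →ₐ[K] L) (f : A →ₐ[K] B) (y : E ⊗[K] A) :
    phi ι B (Algebra.TensorProduct.map (AlgHom.id E E) f y) =
      Algebra.TensorProduct.map (AlgHom.id L L) f (phi ι A y) := by
  induction y using TensorProduct.induction_on with
  | zero => simp
  | add a b ha hb => rw [map_add, map_add, ha, hb, map_add, map_add]
  | tmul s c =>
    rw [Algebra.TensorProduct.map_tmul, phi_tmul, phi_tmul, Algebra.TensorProduct.map_tmul]
    rfl

lemma phi_sig (ι : E →ₐ[K] L) (τ : L ≃ₐ[K] L) (y : E ⊗[K] A) :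
    sig τ (phi ι A y) = phi ((τ : L →ₐ[K] L).comp ι) A y := by
  induction y using TensorProduct.induction_on with
  | zero => rw [map_zero, map_zero, map_zero]
  | add a b ha hb => rw [map_add, map_add, ha, hb, map_add]
  | tmul s c =>
    rw [phi_tmul, phi_tmul, sig_tmul]
    rfl

/-- The extension along `ι` of an automorphism of `E ⊗ A`. -/
noncomputable def ext (ι : E →ₐ[K] L) (g : E ⊗[K] A →ₐ[E] E ⊗[K] A) :
    L ⊗[K] A →ₐ[L] L ⊗[K] A :=
  Algebra.TensorProduct.lift (Algebra.ofId L _)
    ((phi ι A).comp ((g.restrictScalars K).comp Algebra.TensorProduct.includeRight))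
    fun x _ => show Commute _ _ from Algebra.commutes x _

lemma ext_tmul (ι : E →ₐ[K] L) (g : E ⊗[K] A →ₐ[E] E ⊗[K] A) (r : L) (a : A) :
    ext ι g (r ⊗ₜ[K] a) = r • phi ι A (g ((1 : E) ⊗ₜ[K] a)) := by
  rw [ext, Algebra.TensorProduct.lift_tmul, Algebra.smul_def]
  rfl

lemma ext_phi (ι : E →ₐ[K] L) (g : E ⊗[K] A →ₐ[E] E ⊗[K] A) (y : E ⊗[K] A) :
    ext ι g (phi ι A y) = phi ι A (g y) := by
  induction y using TensorProduct.induction_on with
  | zero => rw [map_zero, map_zero, map_zero, map_zero]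
  | add a b ha hb => rw [map_add, map_add, ha, hb, map_add, map_add]
  | tmul s c =>
    rw [phi_tmul, ext_tmul, ← phi_smul, ← map_smul, TensorProduct.smul_tmul', smul_eq_mul, mul_one]

/-- Induction for the extended algebra. -/
lemma ext_ind {P : L ⊗[K] A → Prop} (h1 : ∀ a : A, P (1 ⊗ₜ[K] a)) (hadd : ∀ x y, P x → P y → P (x + y))
    (hsmul : ∀ (r : L) x, P x → P (r • x)) (x : L ⊗[K] A) : P x := by
  induction x using TensorProduct.induction_on with
  | zero =>
    have := hsmul 0 _ (h1 0)
    rwa [zero_smul] at this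
  | add a b ha hb => exact hadd _ _ ha hb
  | tmul s c =>
    have := hsmul s _ (h1 c)
    rwa [TensorProduct.smul_tmul', smul_eq_mul, mul_one] at this

lemma ext_comp (ι : E →ₐ[K] L) (g g' : E ⊗[K] A →ₐ[E] E ⊗[K] A) (x : L ⊗[K] A) :
    ext ι (g.comp g') x = ext ι g (ext ι g' x) := by
  refine ext_ind (P := fun x => ext ι (g.comp g') x = ext ι g (ext ι g' x)) ?_ ?_ ?_ x
  · intro a
    rw [ext_tmul, ext_tmul, one_smul, one_smul, ext_phi]
    rfl
  · intro x y hx hy
    rw [map_add, map_add, map_add, hx, hy]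
  · intro r x hx
    rw [map_smul, map_smul, map_smul, hx]

lemma ext_id (ι : E →ₐ[K] L) (x : L ⊗[K] A) : ext ι (AlgHom.id E (E ⊗[K] A)) x = x := by
  refine ext_ind (P := fun x => ext ι (AlgHom.id E (E ⊗[K] A)) x = x) ?_ ?_ ?_ x
  · intro a
    rw [ext_tmul, one_smul, AlgHom.id_apply, phi_tmul, map_one]
  · intro x y hx hy
    rw [map_add, hx, hy]
  · intro r x hx
    rw [map_smul, hx]

lemma ext_sig (ι : E →ₐ[K] L) (τ : L ≃ₐ[K] L) (g : E ⊗[K] A →ₐ[E] E ⊗[K] A) (x : L ⊗[K] A) :
    ext ((τ : L →ₐ[K] L).comp ι) g (sig τ x) = sig τ (ext ι g x) := by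
  induction x using TensorProduct.induction_on with
  | zero => simp
  | add a b ha hb => rw [map_add, map_add, ha, hb, map_add, map_add]
  | tmul s c => rw [sig_tmul, ext_tmul, ext_tmul, sig_smul, phi_sig]

lemma ext_map (ι : E →ₐ[K] L) (f : A →ₐ[K] B) (g : E ⊗[K] A →ₐ[E] E ⊗[K] A)
    (g' : E ⊗[K] B →ₐ[E] E ⊗[K] B) (h : ∀ y, g' (Algebra.TensorProduct.map (AlgHom.id E E) f y) =
      Algebra.TensorProduct.map (AlgHom.id E E) f (g y)) (x : L ⊗[K] A) :
    ext ι g' (Algebra.TensorProduct.map (AlgHom.id L L) f x) =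
      Algebra.TensorProduct.map (AlgHom.id L L) f (ext ι g x) := by
  refine ext_ind (P := fun x => ext ι g' (Algebra.TensorProduct.map (AlgHom.id L L) f x) =
      Algebra.TensorProduct.map (AlgHom.id L L) f (ext ι g x)) ?_ ?_ ?_ x
  · intro a
    have h1 := h ((1 : E) ⊗ₜ[K] a)
    rw [Algebra.TensorProduct.map_tmul, AlgHom.id_apply] at h1
    rw [Algebra.TensorProduct.map_tmul, AlgHom.id_apply, ext_tmul, ext_tmul, one_smul, one_smul,
      h1, phi_map]
  · intro x y hx hy
    rw [map_add, map_add, hx, hy, map_add, map_add]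
  · intro r x hx
    rw [map_smul, map_smul, map_smul, map_smul, hx]

lemma ext_bc (ι : E →ₐ[K] L) {g : E ⊗[K] A →ₐ[E] E ⊗[K] A} {p : Submodule K A}
    (h : ∀ a ∈ p, g ((1 : E) ⊗ₜ[K] a) ∈ p.baseChange E) {x : L ⊗[K] A}
    (hx : x ∈ p.baseChange L) : ext ι g x ∈ p.baseChange L := by
  have h1 : ∀ y ∈ p.baseChange E, phi ι A y ∈ p.baseChange L := by
    intro y hy
    refine base_induction (P := fun y => phi ι A y ∈ p.baseChange L) ?_ ?_ ?_ hy
    · rw [map_zero]; exact Submodule.zero_mem _
    · intro x y hx hy; rw [map_add]; exact Submodule.add_mem _ hx hy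
    · intro l a ha
      rw [phi_tmul]
      exact Submodule.tmul_mem_baseChange_of_mem _ ha
  refine base_induction (P := fun x => ext ι g x ∈ p.baseChange L) ?_ ?_ ?_ hx
  · rw [map_zero]; exact Submodule.zero_mem _
  · intro x y hx hy; rw [map_add]; exact Submodule.add_mem _ hx hy
  · intro l a ha
    rw [ext_tmul]
    exact Submodule.smul_mem _ _ (h1 _ (h a ha))

section Two

variable {F : Type*} [Field F] [Algebra K F] [Algebra F L] [IsScalarTower K F L]

variable (K F L A) in
/-- Extending the coefficients in two steps. -/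
noncomputable def kap : L ⊗[F] (F ⊗[K] A) ≃ₗ[L] L ⊗[K] A :=
  TensorProduct.AlgebraTensorModule.cancelBaseChange K F L L A

lemma kap_tmul (l : L) (r : F) (a : A) :
    kap K L A F (l ⊗ₜ[F] (r ⊗ₜ[K] a)) = (r • l) ⊗ₜ[K] a :=
  TensorProduct.AlgebraTensorModule.cancelBaseChange_tmul K F L l a r

lemma kap_one (y : F ⊗[K] A) :
    kap K L A F ((1 : L) ⊗ₜ[F] y) = phi (IsScalarTower.toAlgHom K F L) A y := by
  induction y using TensorProduct.induction_on with
  | zero => rw [TensorProduct.tmul_zero, map_zero, map_zero]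
  | add a b ha hb => rw [TensorProduct.tmul_add, map_add, ha, hb, map_add]
  | tmul s c =>
    rw [kap_tmul, phi_tmul, Algebra.smul_def, mul_one]
    rfl

lemma kap_symm_one (a : A) :
    (kap K L A F).symm ((1 : L) ⊗ₜ[K] a) = (1 : L) ⊗ₜ[F] ((1 : F) ⊗ₜ[K] a) := by
  rw [LinearEquiv.symm_apply_eq, kap_tmul, one_smul]

/-- Induction for the algebra extended twice. -/
lemma two_ind {P : L ⊗[F] (F ⊗[K] A) → Prop} (h1 : ∀ a : A, P (1 ⊗ₜ[F] (1 ⊗ₜ[K] a)))
    (hadd : ∀ x y, P x → P y → P (x + y)) (hsmul : ∀ (r : L) x, P x → P (r • x))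
    (x : L ⊗[F] (F ⊗[K] A)) : P x := by
  have h2 : ∀ y : L ⊗[K] A, P ((kap K L A F).symm y) := by
    intro y
    refine ext_ind (P := fun y => P ((kap K L A F).symm y)) ?_ ?_ ?_ y
    · intro a
      rw [kap_symm_one]
      exact h1 a
    · intro x y hx hy
      rw [map_add]
      exact hadd _ _ hx hy
    · intro r x hx
      rw [map_smul]
      exact hsmul _ _ hx
  have h3 := h2 (kap K L A F x)
  rwa [LinearEquiv.symm_apply_apply] at h3

lemma kap_mul (x y : L ⊗[F] (F ⊗[K] A)) :
    kap K L A F (x * y) = kap K L A F x * kap K L A F y := by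
  refine two_ind (P := fun x => kap K L A F (x * y) = kap K L A F x * kap K L A F y) ?_ ?_ ?_ x
  · intro a
    refine two_ind (P := fun y => kap K L A F ((1 ⊗ₜ[F] (1 ⊗ₜ[K] a)) * y) =
      kap K L A F (1 ⊗ₜ[F] (1 ⊗ₜ[K] a)) * kap K L A F y) ?_ ?_ ?_ y
    · intro b
      rw [Algebra.TensorProduct.tmul_mul_tmul, Algebra.TensorProduct.tmul_mul_tmul, one_mul,
        one_mul, kap_tmul, kap_tmul, kap_tmul, Algebra.TensorProduct.tmul_mul_tmul, one_smul,
        one_mul]
    · intro y z hy hz
      rw [mul_add, map_add, map_add, hy, hz, mul_add]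
    · intro r y hy
      rw [mul_smul_comm, map_smul, map_smul, hy, mul_smul_comm]
  · intro x z hx hz
    rw [add_mul, map_add, map_add, hx, hz, add_mul]
  · intro r x hx
    rw [smul_mul_assoc, map_smul, map_smul, hx, smul_mul_assoc]

lemma kap_symm_mul (x y : L ⊗[K] A) :
    (kap K L A F).symm (x * y) = (kap K L A F).symm x * (kap K L A F).symm y := by
  rw [LinearEquiv.symm_apply_eq, kap_mul, LinearEquiv.apply_symm_apply,
    LinearEquiv.apply_symm_apply]

lemma kap_map (f : A →ₐ[K] B) (x : L ⊗[F] (F ⊗[K] A)) :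
    kap K L B F (Algebra.TensorProduct.map (AlgHom.id L L)
      (Algebra.TensorProduct.map (AlgHom.id F F) f) x) =
        Algebra.TensorProduct.map (AlgHom.id L L) f (kap K L A F x) := by
  induction x using TensorProduct.induction_on with
  | zero => simp
  | add a b ha hb => rw [map_add, map_add, ha, hb, map_add, map_add]
  | tmul l y =>
    induction y using TensorProduct.induction_on with
    | zero => simp
    | add a b ha hb => rw [TensorProduct.tmul_add, map_add, map_add, ha, hb, map_add, map_add]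
    | tmul r a =>
      rw [Algebra.TensorProduct.map_tmul, Algebra.TensorProduct.map_tmul, kap_tmul, kap_tmul,
        Algebra.TensorProduct.map_tmul]
      rfl

lemma kap_symm_bc {p : Submodule K A} {x : L ⊗[K] A} (hx : x ∈ p.baseChange L) :
    (kap K L A F).symm x ∈ (p.baseChange F).baseChange L := by
  refine base_induction (P := fun x => (kap K L A F).symm x ∈
    (p.baseChange F).baseChange L) ?_ ?_ ?_ hx
  · rw [map_zero]; exact Submodule.zero_mem _
  · intro x y hx hy; rw [map_add]; exact Submodule.add_mem _ hx hy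
  · intro l a ha
    have h1 : l ⊗ₜ[K] a = l • ((1 : L) ⊗ₜ[K] a) := by
      rw [TensorProduct.smul_tmul', smul_eq_mul, mul_one]
    rw [h1, map_smul, kap_symm_one]
    exact Submodule.smul_mem _ _ (Submodule.tmul_mem_baseChange_of_mem _
      (Submodule.tmul_mem_baseChange_of_mem _ ha))

end Two

end Alg

end Pool.Agent.H60ZO
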