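import Pool.Agent.H60ZO.Emb

/-!
# Galois actions after an extension of the coefficients: the family of automorphisms
-/

open CategoryTheory AlgebraicGeometry Filter Topology

open scoped TensorProduct ENNReal

universe u v w x y

namespace Pool.Agent.H60ZO

open Module
open Pool.Agent.H914 Pool.Agent.H914.VarClass Pool.Agent.H914.VarClass.Obj
  Pool.Agent.H914.WeilCohomology
open Pool.Agent.Y133.Half (ClassPred pw HasIndex dimBy)
open Gal

variable {k : Type u} [Field k] {𝒱 : VarClass k} {ops : CycleOps 𝒱}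
  {W : WeilCohomology.{u, v} ops} {X Y Z : 𝒱.Obj}

section

variable {E : Type w} [Field E] [Algebra W.K E] {Γ : Type x} [Group Γ]
  {F : Type v} [Field F] [Algebra W.K F] {L : Type y} [Field L] [Algebra W.K L] [Algebra F L]
  [IsScalarTower W.K F L]

/-- The extension along `ι` of the action. -/
noncomputable def eact (G : GaloisAction W E Γ) (ι : E →ₐ[W.K] L) (X : 𝒱.Obj) (s : Γ) :
    L ⊗[W.K] W.H X →ₐ[L] L ⊗[W.K] W.H X := ext ι (actHom G X s)

lemma eact_tmul (G : GaloisAction W E Γ) (ι : E →ₐ[W.K] L) (s : Γ) (r : L) (a : W.H X) :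
    eact G ι X s (r ⊗ₜ[W.K] a) = r • phi ι (W.H X) (actHom G X s ((1 : E) ⊗ₜ[W.K] a)) :=
  ext_tmul _ _ _ _

lemma eact_phi (G : GaloisAction W E Γ) (ι : E →ₐ[W.K] L) (s : Γ) (z : E ⊗[W.K] W.H X) :
    eact G ι X s (phi ι (W.H X) z) = phi ι (W.H X) (actHom G X s z) := ext_phi _ _ _

lemma eact_mul (G : GaloisAction W E Γ) (ι : E →ₐ[W.K] L) (s t : Γ) (z : L ⊗[W.K] W.H X) :
    eact G ι X (s * t) z = eact G ι X s (eact G ι X t z) := by
  have h1 : actHom G X (s * t) = (actHom G X s).comp (actHom G X t) :=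
    AlgHom.ext fun z => actHom_mul G s t z
  rw [eact, h1]
  exact ext_comp _ _ _ _

lemma eact_one (G : GaloisAction W E Γ) (ι : E →ₐ[W.K] L) (z : L ⊗[W.K] W.H X) :
    eact G ι X 1 z = z := by
  have h1 : actHom G X 1 = AlgHom.id E _ := AlgHom.ext fun z => actHom_one G z
  rw [eact, h1]
  exact ext_id _ _

lemma eact_map (G : GaloisAction W E Γ) (ι : E →ₐ[W.K] L) (f : X ⟶ Y) (s : Γ)
    (z : L ⊗[W.K] W.H Y) : eact G ι X s (mapE W L f z) = mapE W L f (eact G ι Y s z) :=
  ext_map ι (W.map f) (actHom G Y s) (actHom G X s) (fun z => ga_map G f s z) z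

lemma eact_gr (G : GaloisAction W E Γ) (ι : E →ₐ[W.K] L) (s : Γ) {i : ℕ} {z : L ⊗[W.K] W.H X}
    (hz : z ∈ (W.gr X i).baseChange L) : eact G ι X s z ∈ (W.gr X i).baseChange L :=
  ext_bc ι (fun _ ha => ga_gr G s ha) hz

lemma eact_cyc (G : GaloisAction W E Γ) (ι : E →ₐ[W.K] L) {j : ℕ} {z : X.Cycles}
    (hz : X.IsCyc j z) (s : Γ) : eact G ι X s ((1 : L) ⊗ₜ[W.K] W.cl X z) =
      (ι (G.χ s) ^ j) • ((1 : L) ⊗ₜ[W.K] W.cl X z) := by
  rw [eact_tmul, one_smul, actHom_cyc G hz, phi_smul, map_pow, phi_tmul, map_one]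

lemma eact_deg (G : GaloisAction W E Γ) (ι : E →ₐ[W.K] L) (hW : HasLefschetz W) {c : W.H X}
    (hc : c ∈ W.gr X (2 * X.dim)) (s : Γ) : eact G ι X s ((1 : L) ⊗ₜ[W.K] c) =
      (ι (G.χ s) ^ X.dim) • ((1 : L) ⊗ₜ[W.K] c) := by
  have h1 : actHom G X s ((1 : E) ⊗ₜ[W.K] c) = ((G.χ s : E) ^ X.dim) • ((1 : E) ⊗ₜ[W.K] c) :=
    (galAct G hW).deg hc s
  rw [eact_tmul, one_smul, h1, phi_smul, map_pow, phi_tmul, map_one]

lemma eact_sig (G : GaloisAction W E Γ) (ι : E →ₐ[W.K] L) (τ : L ≃ₐ[W.K] L) (s : Γ)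
    (z : L ⊗[W.K] W.H X) :
    eact G ((τ : L →ₐ[W.K] L).comp ι) X s (sig τ z) = sig τ (eact G ι X s z) :=
  ext_sig _ _ _ _

/-- The coefficients, extended. -/
@[reducible]
noncomputable def baseAlg : Algebra (baseW W F).K L := inferInstanceAs (Algebra F L)

attribute [local instance] baseAlg

/-- The comparison. -/
noncomputable def kp (W : WeilCohomology.{u, v} ops) (F : Type v) [Field F] [Algebra W.K F]
    (L : Type y) [Field L] [Algebra W.K L] [Algebra F L] [IsScalarTower W.K F L] (X : 𝒱.Obj) :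
    HE (baseW W F) L X ≃ₗ[L] L ⊗[W.K] W.H X := kap W.K L (W.H X) F

lemma kp_mul (a b : HE (baseW W F) L X) : kp W F L X (a * b) = kp W F L X a * kp W F L X b := by
  have h : ∀ a b, kap W.K L (W.H X) F (a * b) = kap W.K L (W.H X) F a * kap W.K L (W.H X) F b :=
    kap_mul
  exact h a b

lemma kp_symm_mul (a b : L ⊗[W.K] W.H X) :
    (kp W F L X).symm (a * b) = (kp W F L X).symm a * (kp W F L X).symm b :=
  kap_symm_mul (K := W.K) (F := F) (L := L) (A := W.H X) a b

lemma kp_map (f : X ⟶ Y) (a : HE (baseW W F) L Y) :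
    kp W F L X (mapE (baseW W F) L f a) = mapE W L f (kp W F L Y a) := by
  have h : ∀ a, kap W.K L (W.H X) F (Algebra.TensorProduct.map (AlgHom.id L L)
      (Algebra.TensorProduct.map (AlgHom.id F F) (W.map f)) a) =
        Algebra.TensorProduct.map (AlgHom.id L L) (W.map f) (kap W.K L (W.H Y) F a) :=
    kap_map (W.map f)
  exact h a

/-- The class with coefficients in `F` as a class with coefficients in `L`. -/
noncomputable def ph (W : WeilCohomology.{u, v} ops) (F : Type v) [Field F] [Algebra W.K F]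
    (L : Type y) [Field L] [Algebra W.K L] [Algebra F L] [IsScalarTower W.K F L] (X : 𝒱.Obj) :
    (baseW W F).H X → L ⊗[W.K] W.H X := phi (IsScalarTower.toAlgHom W.K F L) (W.H X)

lemma kp_one (c : (baseW W F).H X) :
    kp W F L X ((1 : L) ⊗ₜ[(baseW W F).K] c) = ph W F L X c :=
  kap_one (K := W.K) (F := F) (L := L) (A := W.H X) c

/-- The family of automorphisms of the extended cohomology theory. -/
noncomputable def embAct (F : Type v) [Field F] [Algebra W.K F] [Algebra F L]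
    [IsScalarTower W.K F L] (G : GaloisAction W E Γ) (ι : E →ₐ[W.K] L) (hW : HasLefschetz W) :
    Act (baseW W F) L Γ where
  σ _ := AlgEquiv.refl
  χ g := Units.map (ι : E →* L) (G.χ g)
  h X g :=
    { toFun := fun a => (kp W F L X).symm (eact G ι X g (kp W F L X a))
      map_zero' := by rw [map_zero, map_zero, map_zero]
      map_add' := fun a b => by rw [map_add, map_add, map_add]
      map_one' := by
        have h1 : kp W F L X 1 = 1 := by
          have h2 := kp_one (W := W) (F := F) (L := L) (X := X) 1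
          have h3 : ph W F L X 1 = 1 := map_one (phi (IsScalarTower.toAlgHom W.K F L) (W.H X))
          rw [h3] at h2
          exact h2
        rw [h1, map_one, LinearEquiv.symm_apply_eq, h1]
      map_mul' := fun a b => by rw [kp_mul, map_mul, kp_symm_mul] }
  h_smul X g r a := by
    change (kp W F L X).symm (eact G ι X g (kp W F L X (r • a))) =
      r • (kp W F L X).symm (eact G ι X g (kp W F L X a))
    rw [map_smul, map_smul, map_smul]
  h_surj X g b := by
    refine ⟨(kp W F L X).symm (eact G ι X g⁻¹ (kp W F L X b)), ?_⟩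
    change (kp W F L X).symm (eact G ι X g (kp W F L X
      ((kp W F L X).symm (eact G ι X g⁻¹ (kp W F L X b))))) = b
    rw [LinearEquiv.apply_symm_apply, ← eact_mul, mul_inv_cancel, eact_one,
      LinearEquiv.symm_apply_apply]
  gr_mem {X} g {i c} hc := by
    change (kp W F L X).symm (eact G ι X g (kp W F L X (1 ⊗ₜ[(baseW W F).K] c))) ∈ _
    rw [kp_one]
    refine kap_symm_bc (K := W.K) (F := F) (L := L) (A := W.H X) (p := W.gr X i) ?_
    apply eact_gr
    refine base_induction (P := fun c : F ⊗[W.K] W.H X => ph W F L X c ∈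
      (W.gr X i).baseChange L) ?_ ?_ ?_ hc
    · change phi (IsScalarTower.toAlgHom W.K F L) (W.H X) 0 ∈ _
      rw [map_zero]; exact Submodule.zero_mem _
    · intro x y hx hy
      change phi (IsScalarTower.toAlgHom W.K F L) (W.H X) (x + y) ∈ _
      rw [map_add]; exact Submodule.add_mem _ hx hy
    · intro l a ha
      change phi (IsScalarTower.toAlgHom W.K F L) (W.H X) (l ⊗ₜ[W.K] a) ∈ _
      rw [phi_tmul]
      exact Submodule.tmul_mem_baseChange_of_mem _ ha
  nat {X Y} f g y := by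
    change (kp W F L X).symm (eact G ι X g (kp W F L X (mapE (baseW W F) L f y))) =
      mapE (baseW W F) L f ((kp W F L Y).symm (eact G ι Y g (kp W F L Y y)))
    rw [LinearEquiv.symm_apply_eq, kp_map, kp_map, LinearEquiv.apply_symm_apply, eact_map]
  cyc {X j z} hz g := by
    change (kp W F L X).symm (eact G ι X g (kp W F L X
      (1 ⊗ₜ[(baseW W F).K] (baseW W F).cl X z))) =
      (ι (G.χ g) ^ j) • (1 ⊗ₜ[(baseW W F).K] (baseW W F).cl X z)
    rw [LinearEquiv.symm_apply_eq, map_smul, kp_one]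
    have h1 : ph W F L X ((baseW W F).cl X z) = (1 : L) ⊗ₜ[W.K] W.cl X z := by
      change phi (IsScalarTower.toAlgHom W.K F L) (W.H X) ((1 : F) ⊗ₜ[W.K] W.cl X z) = _
      rw [phi_tmul, map_one]
    rw [h1, eact_cyc G ι hz]
  deg {X c} hc g := by
    change (kp W F L X).symm (eact G ι X g (kp W F L X (1 ⊗ₜ[(baseW W F).K] c))) =
      (ι (G.χ g) ^ X.dim) • (1 ⊗ₜ[(baseW W F).K] c)
    rw [LinearEquiv.symm_apply_eq, map_smul, kp_one]
    refine base_induction (P := fun c : F ⊗[W.K] W.H X => eact G ι X g (ph W F L X c) =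
      (ι (G.χ g) ^ X.dim) • ph W F L X c) ?_ ?_ ?_ hc
    · change eact G ι X g (phi (IsScalarTower.toAlgHom W.K F L) (W.H X) 0) =
        (ι (G.χ g) ^ X.dim) • (phi (IsScalarTower.toAlgHom W.K F L) (W.H X) 0)
      rw [map_zero, map_zero, smul_zero]
    · intro x y hx hy
      change eact G ι X g (phi (IsScalarTower.toAlgHom W.K F L) (W.H X) (x + y)) =
        (ι (G.χ g) ^ X.dim) • (phi (IsScalarTower.toAlgHom W.K F L) (W.H X) (x + y))
      rw [map_add, map_add, smul_add]
      exact congrArg₂ (· + ·) hx hy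
    · intro l a ha
      change eact G ι X g (phi (IsScalarTower.toAlgHom W.K F L) (W.H X) (l ⊗ₜ[W.K] a)) =
        (ι (G.χ g) ^ X.dim) • (phi (IsScalarTower.toAlgHom W.K F L) (W.H X) (l ⊗ₜ[W.K] a))
      rw [phi_tmul]
      have h1 : (IsScalarTower.toAlgHom W.K F L) l ⊗ₜ[W.K] a =
          ((IsScalarTower.toAlgHom W.K F L) l) • ((1 : L) ⊗ₜ[W.K] a) := by
        rw [TensorProduct.smul_tmul', smul_eq_mul, mul_one]
      rw [h1, map_smul, eact_deg G ι hW ha, smul_comm]

lemma embAct_tw (G : GaloisAction W E Γ) (ι : E →ₐ[W.K] L) (hW : HasLefschetz W) (j : ℕ) (g : Γ)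
    (c : (baseW W F).H X) :
    tw (embAct F G ι hW) X j g (1 ⊗ₜ[(baseW W F).K] c) =
      (kp W F L X).symm (((ι (G.χ g) ^ j)⁻¹ : L) • eact G ι X g (ph W F L X c)) := by
  rw [map_smul, ← kp_one]
  change (((Units.map (ι : E →* L) (G.χ g)) ^ j)⁻¹ : Lˣ).val •
    (kp W F L X).symm (eact G ι X g (kp W F L X (1 ⊗ₜ[(baseW W F).K] c))) = _
  congr 1
  rw [Units.val_inv_eq_inv_val, Units.val_pow_eq_pow_val]
  rfl

end

end Pool.Agent.H60ZO
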