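import Pool.Agent.H60ZO.Emb2

/-!
# Classes with finite orbits under all extensions of an action are rational
-/

open CategoryTheory AlgebraicGeometry Filter Topology

open scoped TensorProduct ENNReal

universe u v w x y

namespace Pool.Agent.H60ZO

open Module
open Pool.Agent.H914 Pool.Agent.H914.VarClass Pool.Agent.H914.VarClass.Obj
  Pool.Agent.H914.WeilCohomology
open Pool.Agent.Y133.Half (ClassPred pw HasIndex dimBy Sys)
open Gal

variable {k : Type u} [Field k] {𝒱 : VarClass k} {ops : CycleOps 𝒱}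
  {W : WeilCohomology.{u, v} ops} {X Y Z : 𝒱.Obj}

attribute [local instance] baseAlg

section Base

variable (F : Type v) [Field F] [Algebra W.K F]

/-- The space of the classes with the property `Q` in degree `2 j`. -/
def csub (Q : ClassPred W) (X : 𝒱.Obj) (j : ℕ) : Submodule W.K (W.H X) where
  carrier := {c | Q.P X j c}
  add_mem' := Q.add
  zero_mem' := Q.zero
  smul_mem' r _ := Q.smul r

lemma mem_csub {Q : ClassPred W} {j : ℕ} {c : W.H X} : c ∈ csub Q X j ↔ Q.P X j c := Iff.rfl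

/-- Extension of the coefficients. -/
noncomputable def basePred (Q : ClassPred W) : ClassPred (baseW W F) where
  P X j c := c ∈ (csub Q X j).baseChange F
  gr {X j c} h := by
    have h1 : csub Q X j ≤ W.gr X (2 * j) := fun c hc => Q.gr hc
    exact Submodule.baseChange_mono F h1 h
  zero {X j} := Submodule.zero_mem _
  add {X j a b} ha hb := Submodule.add_mem _ ha hb
  smul {X j} r {a} ha := Submodule.smul_mem _ r ha
  cl {X j z} hz := Submodule.tmul_mem_baseChange_of_mem (1 : F) (mem_csub.2 (Q.cl hz))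
  mul {X i j a b} ha hb := by
    have hb' : ∃ b' : F ⊗[W.K] W.H X, b' = b := ⟨b, rfl⟩
    obtain ⟨b', rfl⟩ := hb'
    refine base_induction (P := fun a : F ⊗[W.K] W.H X => a * b' ∈
      (csub Q X (i + j)).baseChange F) ?_ ?_ ?_ ha
    · rw [zero_mul]; exact Submodule.zero_mem _
    · intro x x' hx hx'
      rw [add_mul]; exact Submodule.add_mem _ hx hx'
    · intro l a ha
      refine base_induction (P := fun b : F ⊗[W.K] W.H X => l ⊗ₜ[W.K] a * b ∈
        (csub Q X (i + j)).baseChange F) ?_ ?_ ?_ hb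
      · rw [mul_zero]; exact Submodule.zero_mem _
      · intro x y hx hy
        rw [mul_add]; exact Submodule.add_mem _ hx hy
      · intro l' a' ha'
        rw [Algebra.TensorProduct.tmul_mul_tmul]
        exact Submodule.tmul_mem_baseChange_of_mem _ (Q.mul ha ha')
  map {X Y} f {j a} ha := by
    refine base_induction (P := fun c : F ⊗[W.K] W.H Y => (baseW W F).map f c ∈
      (csub Q X j).baseChange F) ?_ ?_ ?_ ha
    · have : (baseW W F).map f (0 : F ⊗[W.K] W.H Y) = (0 : F ⊗[W.K] W.H X) := map_zero _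
      rw [this]; exact Submodule.zero_mem _
    · intro x y hx hy
      have : (baseW W F).map f (x + y : F ⊗[W.K] W.H Y) =
        ((baseW W F).map f x + (baseW W F).map f y : F ⊗[W.K] W.H X) := map_add _ _ _
      rw [this]; exact Submodule.add_mem _ hx hy
    · intro l a ha
      have : (baseW W F).map f (l ⊗ₜ[W.K] a : F ⊗[W.K] W.H Y) =
        (l ⊗ₜ[W.K] W.map f a : F ⊗[W.K] W.H X) := Algebra.TensorProduct.map_tmul _ _ _ _
      rw [this]
      exact Submodule.tmul_mem_baseChange_of_mem _ (mem_csub.2 (Q.map f ha))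
  push {X Y} f {j l} hl {a} ha := by
    refine base_induction (P := fun c : F ⊗[W.K] W.H X => (baseW W F).push f c ∈
      (csub Q Y l).baseChange F) ?_ ?_ ?_ ha
    · have : (baseW W F).push f (0 : F ⊗[W.K] W.H X) = (0 : F ⊗[W.K] W.H Y) := map_zero _
      rw [this]; exact Submodule.zero_mem _
    · intro x y hx hy
      have : (baseW W F).push f (x + y : F ⊗[W.K] W.H X) =
        ((baseW W F).push f x + (baseW W F).push f y : F ⊗[W.K] W.H Y) := map_add _ _ _
      rw [this]; exact Submodule.add_mem _ hx hy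
    · intro r a ha
      have : (baseW W F).push f (r ⊗ₜ[W.K] a : F ⊗[W.K] W.H X) =
        (r ⊗ₜ[W.K] W.push f a : F ⊗[W.K] W.H Y) := LinearMap.baseChange_tmul _ _ _
      rw [this]
      exact Submodule.tmul_mem_baseChange_of_mem _ (mem_csub.2 (Q.push f hl ha))

lemma basePred_C (Q : ClassPred W) (Z : 𝒱.Obj) :
    (basePred F Q).sys.C Z = (Q.sys.base F).C Z := by
  apply le_antisymm
  · intro c hc
    refine ClassPred.sp_ind (Q := basePred F Q) (q := fun c => c ∈ (Q.sys.base F).C Z) ?_ ?_ ?_ hc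
    · intro j x hx
      have h1 : csub Q Z j ≤ Q.sys.C Z := fun c hc => ClassPred.sp_of hc
      exact Submodule.baseChange_mono F h1 hx
    · exact Submodule.zero_mem _
    · intro a b ha hb; exact Submodule.add_mem _ ha hb
  · intro c hc
    refine base_induction (P := fun c : F ⊗[W.K] W.H Z => c ∈ (basePred F Q).sys.C Z)
      ?_ ?_ ?_ hc
    · exact Submodule.zero_mem _
    · intro x y hx hy; exact Submodule.add_mem _ hx hy
    · intro l a ha
      refine ClassPred.sp_ind (Q := Q) (q := fun a => ((l ⊗ₜ[W.K] a : F ⊗[W.K] W.H Z) :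
        (baseW W F).H Z) ∈ (basePred F Q).sys.C Z) ?_ ?_ ?_ ha
      · intro j x hx
        refine ClassPred.sp_of (Q := basePred F Q) (j := j) ?_
        exact Submodule.tmul_mem_baseChange_of_mem l (mem_csub.2 hx)
      · rw [TensorProduct.tmul_zero]; exact Submodule.zero_mem _
      · intro a b ha hb
        rw [TensorProduct.tmul_add]; exact Submodule.add_mem _ ha hb

lemma basePred_nondeg {Q : ClassPred W} {Z : 𝒱.Obj} (h : Q.sys.Nondeg Z) :
    (basePred F Q).sys.Nondeg Z := by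
  have h1 := Sys.Nondeg.base (L := F) h
  intro x hx hxy
  rw [basePred_C] at hx
  exact h1 x hx fun y hy => hxy y (by rw [basePred_C]; exact hy)

lemma dimBy_base (Q : ClassPred W) (Z : 𝒱.Obj) :
    dimBy (baseW W F) (basePred F Q).P Z = dimBy W Q.P Z := by
  have h1 : dimBy (baseW W F) (basePred F Q).P Z =
    finrank (baseW W F).K ((basePred F Q).sys.C Z) := rfl
  rw [h1, basePred_C, Sys.finrank_base]
  rfl

end Base

section Tate

variable {E : Type w} [Field E] [Algebra W.K E] {Γ : Type x} [Group Γ]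

/-- The rational Tate classes. -/
noncomputable def tatePred (hL : HasLefschetz W) (G : GaloisAction W E Γ) : ClassPred W where
  P X j c := IsTate G X j c
  gr h := h.1
  zero := ⟨Submodule.zero_mem _, ((isTate_iff G hL (Submodule.zero_mem _)).2 FinOrb.zero).2⟩
  add ha hb := (isTate_iff G hL (Submodule.add_mem _ ha.1 hb.1)).2
    (((isTate_iff G hL ha.1).1 ha).add ((isTate_iff G hL hb.1).1 hb))
  smul r _ ha := (isTate_iff G hL (Submodule.smul_mem _ _ ha.1)).2
    (((isTate_iff G hL ha.1).1 ha).smul r)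
  cl hz := (isTate_iff G hL (W.cl_mem hz)).2 (FinOrb.cl hz)
  mul ha hb := (isTate_iff G hL (by rw [mul_add]; exact W.mul_mem ha.1 hb.1)).2
    (((isTate_iff G hL ha.1).1 ha).mul ((isTate_iff G hL hb.1).1 hb))
  map f _ _ h := (isTate_iff G hL (W.map_mem f h.1)).2 (((isTate_iff G hL h.1).1 h).map f)
  push {X Y} f {j l} hl {a} h := by
    have h0 : W.push f a ∈ W.gr Y (2 * l) := by
      have h5 := W.push_mem f h.1
      have h6 : ((2 * j : ℕ) : ℤ) + 2 * ((Y.dim : ℤ) - X.dim) = ((2 * l : ℕ) : ℤ) := by omega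
      rw [h6, grZ_natCast] at h5
      exact h5
    exact (isTate_iff G hL h0).2 (((isTate_iff G hL h.1).1 h).push f hl)

lemma tate_fix (G : GaloisAction W E Γ) {j : ℕ} {c : W.H X} {s : Γ} :
    G.act X s (toEC c) = ((G.χ s : E) ^ j) • toEC c ↔
      actHom G X s ((1 : E) ⊗ₜ[W.K] c) = ((G.χ s : E) ^ j) • ((1 : E) ⊗ₜ[W.K] c) := Iff.rfl

variable {L : Type y} [Field L] [Algebra W.K L]

/-- A rational class is multiplied by `χ ^ j` under an element of the group if and only if this
holds after an extension of the coefficients. -/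
lemma eact_rat (G : GaloisAction W E Γ) (ι : E →ₐ[W.K] L) {j : ℕ} {c : W.H X} {s : Γ} :
    eact G ι X s ((1 : L) ⊗ₜ[W.K] c) = (ι (G.χ s) ^ j) • ((1 : L) ⊗ₜ[W.K] c) ↔
      actHom G X s ((1 : E) ⊗ₜ[W.K] c) = ((G.χ s : E) ^ j) • ((1 : E) ⊗ₜ[W.K] c) := by
  have h1 : (1 : L) ⊗ₜ[W.K] c = phi ι (W.H X) ((1 : E) ⊗ₜ[W.K] c) := by rw [phi_tmul, map_one]
  rw [h1, eact_phi, ← map_pow, ← phi_smul]
  exact (phi_inj ι).eq_iff

/-- The classes with coefficients in `L` which are potentially invariant under all extensions of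
the action. -/
noncomputable def potSub (G : GaloisAction W E Γ) (L : Type y) [Field L] [Algebra W.K L]
    (X : 𝒱.Obj) (j : ℕ) : Submodule L (L ⊗[W.K] W.H X) where
  carrier := {z | z ∈ (W.gr X (2 * j)).baseChange L ∧ ∀ ι : E →ₐ[W.K] L, ∃ Δ : Subgroup Γ,
    Δ.FiniteIndex ∧ ∀ s ∈ Δ, eact G ι X s z = (ι (G.χ s) ^ j) • z}
  add_mem' {a b} ha hb := by
    refine ⟨Submodule.add_mem _ ha.1 hb.1, fun ι => ?_⟩
    obtain ⟨Δ, hΔ, h⟩ := ha.2 ι
    obtain ⟨Δ', hΔ', h'⟩ := hb.2 ι
    refine ⟨Δ ⊓ Δ', inferInstance, fun s hs => ?_⟩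
    rw [map_add, h s hs.1, h' s hs.2, smul_add]
  zero_mem' := ⟨Submodule.zero_mem _, fun ι => ⟨⊤, inferInstance, fun s _ => by
    rw [map_zero, smul_zero]⟩⟩
  smul_mem' r a ha := by
    refine ⟨Submodule.smul_mem _ _ ha.1, fun ι => ?_⟩
    obtain ⟨Δ, hΔ, h⟩ := ha.2 ι
    refine ⟨Δ, hΔ, fun s hs => ?_⟩
    rw [map_smul, h s hs, smul_comm]

lemma potSub_sig (G : GaloisAction W E Γ) (τ : L ≃ₐ[W.K] L) {j : ℕ} {z : L ⊗[W.K] W.H X}
    (hz : z ∈ potSub G L X j) : sig τ z ∈ potSub G L X j := by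
  refine ⟨sig_gr τ hz.1, fun ι => ?_⟩
  obtain ⟨Δ, hΔ, h⟩ := hz.2 ((τ.symm : L →ₐ[W.K] L).comp ι)
  refine ⟨Δ, hΔ, fun s hs => ?_⟩
  have h1 := congrArg (sig τ) (h s hs)
  rw [← eact_sig, sig_smul, map_pow] at h1
  have h2 : (τ : L →ₐ[W.K] L).comp ((τ.symm : L →ₐ[W.K] L).comp ι) = ι := by
    apply AlgHom.ext
    intro e
    exact τ.apply_symm_apply _
  have h3 : τ (((τ.symm : L →ₐ[W.K] L).comp ι) (G.χ s)) = ι (G.χ s) := τ.apply_symm_apply _
  rw [h2, h3] at h1
  exact h1

variable [Algebra W.K ℂ]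

/-- The coefficients have characteristic zero. -/
lemma charZeroK : CharZero W.K := W.charZero

attribute [local instance] charZeroK

/-- **Descent**: the potentially invariant classes are spanned by rational ones. -/
theorem pot_rational (hL : HasLefschetz W) (G : GaloisAction W E Γ) (hne : Nonempty (E →ₐ[W.K] ℂ))
    {j : ℕ} {z : ℂ ⊗[W.K] W.H X} (hz : z ∈ potSub G ℂ X j) :
    z ∈ (csub (tatePred hL G) X j).baseChange ℂ := by
  refine descent (fun a h => mem_range_of_fixed h) (potSub G ℂ X j)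
    (fun τ x hx => potSub_sig G τ hx) _ (fun v => ?_) hz
  rw [mem_csub]
  constructor
  · rintro ⟨h1, Δ, hΔ, h2⟩
    refine ⟨Submodule.tmul_mem_baseChange_of_mem _ h1, fun ι => ⟨Δ, hΔ, fun s hs => ?_⟩⟩
    rw [eact_rat]
    exact h2 s hs
  · rintro ⟨h1, h2⟩
    obtain ⟨ι⟩ := hne
    obtain ⟨Δ, hΔ, h3⟩ := h2 ι
    exact ⟨one_tmul_mem_iff.1 h1, Δ, hΔ, fun s hs => (eact_rat G ι).1 (h3 s hs)⟩

variable {F : Type v} [Field F] [Algebra W.K F] [Algebra F L] [IsScalarTower W.K F L]

omit [Algebra W.K ℂ] in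
/-- Finite orbits and potentially invariant classes. -/
lemma embAct_finOrb_iff (G : GaloisAction W E Γ) (ι : E →ₐ[W.K] L) (hW : HasLefschetz W) {j : ℕ}
    {c : (baseW W F).H X} : FinOrb (embAct F G ι hW) X j c ↔
      ∃ Δ : Subgroup Γ, Δ.FiniteIndex ∧ ∀ s ∈ Δ, eact G ι X s (ph W F L X c) =
        (ι (G.χ s) ^ j) • ph W F L X c := by
  have hu : ∀ s : Γ, ι (G.χ s) ^ j ≠ 0 := fun s => pow_ne_zero _ (by
    intro h
    have h1 : (G.χ s : E) = 0 := ι.injective (h.trans (map_zero ι).symm)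
    exact (G.χ s).ne_zero h1)
  have h0 : FinOrb (embAct F G ι hW) X j c ↔ (Set.range fun s : Γ =>
      ((ι (G.χ s) ^ j)⁻¹ : L) • eact G ι X s (ph W F L X c)).Finite := by
    unfold FinOrb
    simp only [embAct_tw]
    constructor
    · intro h
      apply (h.image (kp W F L X)).subset
      rintro _ ⟨s, rfl⟩
      exact ⟨_, ⟨s, rfl⟩, LinearEquiv.apply_symm_apply _ _⟩
    · intro h
      apply (h.image (kp W F L X).symm).subset
      rintro _ ⟨s, rfl⟩
      exact ⟨_, ⟨s, rfl⟩, rfl⟩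
  rw [h0, finite_orbit_iff (fun s z => ((ι (G.χ s) ^ j)⁻¹ : L) • eact G ι X s z) ?_ ?_]
  · refine exists_congr fun Δ => and_congr_right fun _ => forall₂_congr fun s _ => ?_
    rw [inv_smul_eq_iff₀ (hu s)]
  · intro s t a
    change _ = ((ι (G.χ s) ^ j)⁻¹ : L) • eact G ι X s (((ι (G.χ t) ^ j)⁻¹ : L) • eact G ι X t a)
    rw [map_smul, smul_smul, ← eact_mul, map_mul, Units.val_mul, map_mul, mul_pow, mul_inv]
  · intro a
    rw [eact_one, map_one, Units.val_one, map_one, one_pow, inv_one, one_smul]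

end Tate

end Pool.Agent.H60ZO
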