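import Pool.Agent.Y133.Half.DDefs

/-!
# Galois actions and Tate classes: definitions

In the intended use `k` is a number field (or a finitely generated field of characteristic `0`)
embedded in the complex numbers, the varieties are the smooth projective ones over `k`, `W` is the
singular cohomology of their complex points with rational coefficients, `W.K = ℚ`, `E` is the field
`ℚ_ℓ`, `Γ` is the absolute Galois group of `k`, which acts on the `ℓ`-adic cohomology, i.e. on the
cohomology with coefficients in `ℚ_ℓ`, and `χ` is the inverse of the `ℓ`-adic cyclotomic character.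
-/

open CategoryTheory AlgebraicGeometry

open scoped TensorProduct

universe u v w x

namespace Pool.Agent.H60ZO.Gal

open Pool.Agent.H914

section Alg

/-- The algebra `A` over `K` with coefficients in `E`. -/
def EC (K E A : Type*) [Field K] [Field E] [Algebra K E] [Ring A] [Algebra K A] := E ⊗[K] A

variable {K E : Type*} [Field K] [Field E] [Algebra K E] {A B : Type*} [Ring A]
  [Algebra K A] [Ring B] [Algebra K B]

/-- The ring structure. -/
@[instance_reducible]
noncomputable def ecRing : Ring (EC K E A) := (Algebra.TensorProduct.instRing : Ring (E ⊗[K] A))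

noncomputable instance : Ring (EC K E A) := ecRing

/-- The structure of an algebra over `E`. -/
@[instance_reducible]
noncomputable def ecAlgebra : Algebra E (EC K E A) :=
  (Algebra.TensorProduct.leftAlgebra : Algebra E (E ⊗[K] A))

noncomputable instance : Algebra E (EC K E A) := ecAlgebra

/-- The element `c` of `A` as an element of the algebra with coefficients in `E`. -/
noncomputable def toEC (c : A) : EC K E A := (1 : E) ⊗ₜ[K] c

/-- The extension of an algebra homomorphism to coefficients in `E`. -/
noncomputable def mapEC (f : A →ₐ[K] B) : EC K E A →ₐ[E] EC K E B :=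
  Algebra.TensorProduct.map (AlgHom.id E E) f

variable {Γ : Type*} [Group Γ]

/-- The formal properties of the action `h` of the group `Γ` on the cohomology with coefficients in
`E`: it is an action by algebra automorphisms which respects the degree, and `s` multiplies the
elements of `C j` (the classes of the algebraic cycles of codimension `j`) by `χ(s) ^ j`. -/
structure IsAction (χ : Γ →* Eˣ) (G : ℕ → Submodule K A) (C : ℕ → Set A)
    (h : Γ → (EC K E A →ₐ[E] EC K E A)) : Prop where
  one : h 1 = AlgHom.id E _
  mul : ∀ s t, h (s * t) = (h s).comp (h t)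
  gr : ∀ s i, ∀ c ∈ G i, h s (toEC c) ∈ Submodule.span E (toEC '' (G i : Set A))
  cyc : ∀ j, ∀ c ∈ C j, ∀ s, h s (toEC c) = ((χ s : E) ^ j) • toEC c

/-- The extension of `f` to coefficients in `E` commutes with the actions. -/
def Commutes (f : A →ₐ[K] B) (h : Γ → (EC K E A →ₐ[E] EC K E A))
    (h' : Γ → (EC K E B →ₐ[E] EC K E B)) : Prop :=
  ∀ s, (h' s).comp (mapEC f) = (mapEC f).comp (h s)

/-- The elements of a subgroup of finite index multiply `x` by `χ ^ j`. -/
def IsPotentially (χ : Γ →* Eˣ) (h : Γ → (EC K E A →ₐ[E] EC K E A)) (j : ℕ)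
    (x : EC K E A) : Prop :=
  ∃ Δ : Subgroup Γ, Δ.FiniteIndex ∧ ∀ s ∈ Δ, h s x = ((χ s : E) ^ j) • x

end Alg

open Pool.Agent.H914.VarClass Pool.Agent.H914.VarClass.Obj Pool.Agent.H914.WeilCohomology

variable {k : Type u} [Field k] {𝒱 : VarClass k} {ops : CycleOps 𝒱}

/-- An action of the group `Γ` on the cohomology with coefficients in `E`, compatible with
pull-backs, products and degrees, such that `s` multiplies the classes of the algebraic cycles of
codimension `j` by `χ(s) ^ j`. -/
structure GaloisAction (W : WeilCohomology.{u, v} ops) (E : Type w) [Field E] [Algebra W.K E]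
    (Γ : Type x) [Group Γ] where
  /-- the character -/
  χ : Γ →* Eˣ
  /-- the action -/
  act : ∀ X : 𝒱.Obj, Γ → (EC W.K E (W.H X) →ₐ[E] EC W.K E (W.H X))
  isAction : ∀ X, IsAction χ (W.gr X) (algClasses W X) (act X)
  comm : ∀ {X Y : 𝒱.Obj} (f : X ⟶ Y), Commutes (W.map f) (act Y) (act X)

variable {W : WeilCohomology.{u, v} ops} {E : Type w} [Field E] [Algebra W.K E]
  {Γ : Type x} [Group Γ]

/-- The rational class `c` of degree `2 j` is a Tate class: `s` multiplies its image in the
cohomology with coefficients in `E` by `χ(s) ^ j`, for all `s` in a subgroup of finite index. -/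
def IsTate (G : GaloisAction W E Γ) (X : 𝒱.Obj) (j : ℕ) (c : W.H X) : Prop :=
  c ∈ W.gr X (2 * j) ∧ IsPotentially G.χ (G.act X) j (toEC c)

end Pool.Agent.H60ZO.Gal
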