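import Pool.Agent.H60ZO.GDefs

/-!
# Tate classes and invariant classes with coefficients in `E`: definitions
-/

open CategoryTheory AlgebraicGeometry

universe u v w x

namespace Pool.Agent.H60ZO.Gal

open Pool.Agent.H914 Pool.Agent.H914.VarClass Pool.Agent.H914.VarClass.Obj
  Pool.Agent.H914.WeilCohomology

variable {k : Type u} [Field k] {𝒱 : VarClass k} {ops : CycleOps 𝒱}

/-- The element `x` of the algebra with coefficients in `E` is a combination of elements of `S`. -/
def InSpan {K E A : Type*} [Field K] [Field E] [Algebra K E] [Ring A] [Algebra K A] (S : Set A)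
    (x : EC K E A) : Prop := x ∈ Submodule.span E (toEC '' S)

/-- The dimension of the space spanned by the set `S`. -/
noncomputable def dimE {K E A : Type*} [Field K] [Field E] [Algebra K E] [Ring A] [Algebra K A]
    (S : Set (EC K E A)) : ℕ := Module.finrank E (Submodule.span E S)

variable {W : WeilCohomology.{u, v} ops} {E : Type w} [Field E] [Algebra W.K E]
  {Γ : Type x} [Group Γ]

/-- The class `x` with coefficients in `E` is a Tate class of degree `2 j`: `s` multiplies it by
`χ(s) ^ j`, for all `s` in a subgroup of finite index. -/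
def IsTateClass (G : GaloisAction W E Γ) (X : 𝒱.Obj) (j : ℕ) (x : EC W.K E (W.H X)) : Prop :=
  InSpan (W.gr X (2 * j) : Set (W.H X)) x ∧ IsPotentially G.χ (G.act X) j x

/-- The class `x` of degree `2 j` with coefficients in `E` is invariant (after the Tate twist):
`s` multiplies it by `χ(s) ^ j`, for all `s`. -/
def IsInvariant (G : GaloisAction W E Γ) (X : 𝒱.Obj) (j : ℕ) (x : EC W.K E (W.H X)) : Prop :=
  InSpan (W.gr X (2 * j) : Set (W.H X)) x ∧ ∀ s, G.act X s x = ((G.χ s : E) ^ j) • x

end Pool.Agent.H60ZO.Gal
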