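import Pool.Agent.H60ZO.Main
import Pool.Agent.H60ZO.GDefs

/-!
# Galois actions and Tate classes
-/

open CategoryTheory AlgebraicGeometry Filter Topology

open scoped TensorProduct ENNReal

universe u v w x

namespace Pool.Agent.H60ZO

open Module
open Pool.Agent.H914 Pool.Agent.H914.VarClass Pool.Agent.H914.VarClass.Obj
  Pool.Agent.H914.WeilCohomology
open Pool.Agent.Y133.Half (ClassPred pw HasIndex dimBy)
open Pool.Agent.Y133.Hdg (HodgeStr IsHodge hodgePred isHodge_iff)

variable {k : Type u} [Field k] {𝒱 : VarClass k} {ops : CycleOps 𝒱}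

variable {W : WeilCohomology.{u, v} ops} {E : Type w} [Field E] [Algebra W.K E]
  {Γ : Type x} [Group Γ] {X Y Z : 𝒱.Obj}

open Gal

lemma ga_one (G : GaloisAction W E Γ) (y : HE W E X) : G.act X 1 y = y := by
  rw [(G.isAction X).one]
  rfl

lemma ga_mul (G : GaloisAction W E Γ) (s t : Γ) (y : HE W E X) :
    G.act X (s * t) y = G.act X s (G.act X t y) := by
  rw [(G.isAction X).mul]
  rfl

lemma ga_map (G : GaloisAction W E Γ) (f : X ⟶ Y) (s : Γ) (y : HE W E Y) :
    G.act X s (mapE W E f y) = mapE W E f (G.act Y s y) :=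
  DFunLike.congr_fun (G.comm f s) y

lemma ga_cyc (G : GaloisAction W E Γ) {j : ℕ} {z : X.Cycles} (hz : X.IsCyc j z) (s : Γ) :
    G.act X s ((1 : E) ⊗ₜ[W.K] W.cl X z) = ((G.χ s : E) ^ j) • ((1 : E) ⊗ₜ[W.K] W.cl X z) :=
  (G.isAction X).cyc j _ ⟨z, hz, rfl⟩ s

lemma ga_gr (G : GaloisAction W E Γ) (s : Γ) {i : ℕ} {c : W.H X} (hc : c ∈ W.gr X i) :
    G.act X s ((1 : E) ⊗ₜ[W.K] c) ∈ (W.gr X i).baseChange E := by
  have h1 := (G.isAction X).gr s i c hc
  rw [Submodule.baseChange_eq_span]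
  refine Submodule.span_mono ?_ h1
  rintro _ ⟨y, hy, rfl⟩
  exact ⟨y, hy, rfl⟩

/-- The automorphism. -/
noncomputable def actHom (G : GaloisAction W E Γ) (X : 𝒱.Obj) (s : Γ) : HE W E X →ₐ[E] HE W E X :=
  G.act X s

lemma actHom_mul (G : GaloisAction W E Γ) (s t : Γ) (y : HE W E X) :
    actHom G X (s * t) y = actHom G X s (actHom G X t y) := ga_mul G s t y

lemma actHom_one (G : GaloisAction W E Γ) (y : HE W E X) : actHom G X 1 y = y := ga_one G y

lemma actHom_cyc (G : GaloisAction W E Γ) {j : ℕ} {z : X.Cycles} (hz : X.IsCyc j z) (s : Γ) :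
    actHom G X s ((1 : E) ⊗ₜ[W.K] W.cl X z) =
      ((G.χ s : E) ^ j) • ((1 : E) ⊗ₜ[W.K] W.cl X z) := ga_cyc G hz s

/-- The family of automorphisms. -/
noncomputable def galAct (G : GaloisAction W E Γ) (hW : HasLefschetz W) : Act W E Γ where
  σ _ := AlgEquiv.refl
  χ g := G.χ g
  h X g := (actHom G X g : HE W E X →+* HE W E X)
  h_smul X g r a := map_smul (actHom G X g) r a
  h_surj X g y := ⟨actHom G X g⁻¹ y, by
    change actHom G X g (actHom G X g⁻¹ y) = y
    rw [← actHom_mul, mul_inv_cancel, actHom_one]⟩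
  gr_mem g _ _ hc := ga_gr G g hc
  nat f g y := ga_map G f g y
  cyc hz g := ga_cyc G hz g
  deg {X c} hc g := by
    obtain ⟨D, r, hD, rfl⟩ := top_eq hW hc
    have h1 : ∀ m, actHom G X g (1 ⊗ₜ[W.K] (W.cl X D ^ m)) =
        ((G.χ g : E) ^ m) • (1 ⊗ₜ[W.K] (W.cl X D ^ m)) := by
      intro m
      have h2 : (1 : E) ⊗ₜ[W.K] (W.cl X D ^ m) = (1 ⊗ₜ[W.K] W.cl X D) ^ m := by
        rw [Algebra.TensorProduct.tmul_pow, one_pow]
      rw [h2, map_pow, actHom_cyc G hD, pow_one, smul_pow]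
    have h3 : (1 : E) ⊗ₜ[W.K] (r • W.cl X D ^ X.dim) =
        algebraMap W.K E r • ((1 : E) ⊗ₜ[W.K] (W.cl X D ^ X.dim)) := by
      rw [TensorProduct.tmul_smul, ← algebraMap_smul E r]
    change actHom G X g (1 ⊗ₜ[W.K] (r • W.cl X D ^ X.dim)) = _
    rw [h3, map_smul, h1, smul_comm]

lemma galAct_tw (G : GaloisAction W E Γ) (hW : HasLefschetz W) (j : ℕ) (g : Γ) (a : HE W E X) :
    tw (galAct G hW) X j g a = (((G.χ g) ^ j)⁻¹ : Eˣ).val • actHom G X g a := rfl

lemma galAct_fix (G : GaloisAction W E Γ) (hW : HasLefschetz W) {j : ℕ} {g : Γ} {a : HE W E X} :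
    tw (galAct G hW) X j g a = a ↔ actHom G X g a = ((G.χ g : E) ^ j) • a := by
  rw [galAct_tw, ← Units.val_pow_eq_pow_val]
  constructor
  · intro h
    conv_rhs => rw [← h, smul_smul, ← Units.val_mul, mul_inv_cancel, Units.val_one, one_smul]
  · intro h
    rw [h, smul_smul, ← Units.val_mul, inv_mul_cancel, Units.val_one, one_smul]

lemma galAct_comp (G : GaloisAction W E Γ) (hW : HasLefschetz W) (j : ℕ) (s t : Γ)
    (a : HE W E X) : tw (galAct G hW) X j (s * t) a =
      tw (galAct G hW) X j s (tw (galAct G hW) X j t a) := by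
  rw [galAct_tw, galAct_tw, galAct_tw, map_smul, smul_smul, ← Units.val_mul, actHom_mul, map_mul,
    mul_pow, mul_inv]

lemma galAct_one (G : GaloisAction W E Γ) (hW : HasLefschetz W) (j : ℕ) (a : HE W E X) :
    tw (galAct G hW) X j 1 a = a := by
  rw [galAct_tw, actHom_one, map_one, one_pow, inv_one, Units.val_one, one_smul]

/-- An orbit is finite if and only if the stabiliser has finite index. -/
lemma finite_orbit_iff {G : Type*} [Group G] {α : Type*} (f : G → α → α)
    (hmul : ∀ s t a, f (s * t) a = f s (f t a)) (hone : ∀ a, f 1 a = a) (a : α) :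
    (Set.range fun t => f t a).Finite ↔
      ∃ S : Subgroup G, S.FiniteIndex ∧ ∀ t ∈ S, f t a = a := by
  constructor
  · intro hfin
    let S : Subgroup G :=
      { carrier := {t | f t a = a}
        mul_mem' := fun {s t} hs ht => by
          change f (s * t) a = a
          rw [hmul, ht, hs]
        one_mem' := hone a
        inv_mem' := fun {s} hs => by
          change f s⁻¹ a = a
          have h1 : f s⁻¹ (f s a) = a := by rw [← hmul, inv_mul_cancel, hone]
          rwa [show f s a = a from hs] at h1 }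
    have hS : ∀ s t : G, s⁻¹ * t ∈ S ↔ f s a = f t a := by
      intro s t
      change f (s⁻¹ * t) a = a ↔ _
      rw [hmul]
      constructor
      · intro h
        have h2 := congrArg (f s) h
        rw [← hmul, mul_inv_cancel, hone] at h2
        exact h2.symm
      · intro h
        rw [← h, ← hmul, inv_mul_cancel, hone]
    have hq : Finite (G ⧸ S) := by
      have : Finite (Set.range fun t => f t a) := hfin
      let g : G ⧸ S → Set.range (fun t => f t a) := fun q => ⟨f q.out a, ⟨q.out, rfl⟩⟩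
      apply Finite.of_injective g
      intro q q' h
      have h1 : f q.out a = f q'.out a := congrArg Subtype.val h
      rw [← q.out_eq', ← q'.out_eq']
      exact QuotientGroup.eq.2 ((hS _ _).2 h1)
    exact ⟨S, Subgroup.finiteIndex_of_finite_quotient, fun t ht => ht⟩
  · rintro ⟨S, hS, h⟩
    have hq : Finite (G ⧸ S) := inferInstance
    apply (Set.finite_range fun q : G ⧸ S => f q.out a).subset
    rintro _ ⟨t, rfl⟩
    refine ⟨(t : G ⧸ S), ?_⟩
    have h1 : (t : G ⧸ S).out⁻¹ * t ∈ S := by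
      rw [← QuotientGroup.eq]
      exact Quotient.out_eq' _
    have h2 := h _ h1
    have h3 : t = (t : G ⧸ S).out * ((t : G ⧸ S).out⁻¹ * t) := by group
    change f (t : G ⧸ S).out a = f t a
    conv_rhs => rw [h3, hmul, h2]

lemma isTate_iff (G : GaloisAction W E Γ) (hW : HasLefschetz W) {j : ℕ} {c : W.H X}
    (hc : c ∈ W.gr X (2 * j)) :
    IsTate G X j c ↔ FinOrb (galAct G hW) X j c := by
  unfold FinOrb
  rw [finite_orbit_iff (fun t a => tw (galAct G hW) X j t a) (galAct_comp G hW j)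
    (galAct_one G hW j)]
  constructor
  · rintro ⟨-, Δ, hΔ, h⟩
    exact ⟨Δ, hΔ, fun t ht => (galAct_fix G hW).2 (h t ht)⟩
  · rintro ⟨Δ, hΔ, h⟩
    exact ⟨hc, Δ, hΔ, fun t ht => (galAct_fix G hW).1 (h t ht)⟩

variable [Algebra W.K ℝ]

lemma ht_hr (Ψ : HodgeStr W) (G : GaloisAction W E Γ) (hW : HasLefschetz W) (X : 𝒱.Obj) :
    ∃ D, (finPred (galAct G hW) (hodgePred Ψ)).HR X D := by
  obtain ⟨D, hD, hL, hpos⟩ := Ψ.sys.polar X
  refine ⟨D, hD, ?_, ?_⟩
  · rintro j hj v ⟨hv1, hv2⟩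
    obtain ⟨x, hx, hxv⟩ := Pool.Agent.Y133.Half.hodge_lift hD hL hj (isHodge_iff.1 hv1)
    refine ⟨x, ⟨isHodge_iff.2 hx, ?_⟩, hxv⟩
    refine FinOrb.lift hD (m := X.dim - 2 * j)
      (fun y hy h => Pool.Agent.Y133.Half.hl_inj hL hj hy h) hx.1 ?_
    rw [hxv, show X.dim - 2 * j + j = X.dim - j by omega]
    exact hv2
  · rintro j hj x ⟨hx1, -⟩ h0 hx0
    exact hpos j hj x hx1.1 hx1.2 h0 hx0

/-- The zero-one law for the Tate classes among the Hodge classes. -/
theorem law_tate (Ψ : HodgeStr W) (G : GaloisAction W E Γ) (X : 𝒱.Obj) [Nontrivial (W.H X)] :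
    (∀ n j c, IsHodge Ψ (pw X n) j c → IsTate G (pw X n) j c) ↔
      ¬ Tendsto (fun n => (dimBy W (fun Z j c => IsHodge Ψ Z j c ∧
        IsTate G Z j c) (pw X n) : ℝ) / dimBy W (IsHodge Ψ) (pw X n))
          atTop (𝓝 0) := by
  have hW := hasLefschetz Ψ
  have key : (finPred (galAct G hW) (hodgePred Ψ)).P = fun Z j c => IsHodge Ψ Z j c ∧
        IsTate G Z j c := by
    funext Z j c
    apply propext
    refine and_congr_right fun h => ?_
    exact (isTate_iff G hW ((hodgePred Ψ).gr h)).symm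
  constructor
  · intro h
    exact not_tendsto_of_eq (fun n => dimBy_congr fun j c => ⟨fun h1 => h1.1,
      fun h1 => ⟨h1, h n j c h1⟩⟩) fun n => dimBy_pos (hodgePred Ψ) X n
  · intro h n j c hc
    rcases zero_one (galAct G hW) (hodgePred Ψ) X (fun n => by
      obtain ⟨D, hD⟩ := ht_hr Ψ G hW (pw X n)
      exact hD.nondeg) with h1 | h1
    · exact (isTate_iff G hW ((hodgePred Ψ).gr hc)).2 (h1 n j c hc)
    · exfalso
      apply h
      rw [key] at h1
      exact tendsto_zero_of_index h1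

/-- The classes with finite orbits form a system. -/
lemma isSystem_fin {Γ : Type x} (A : Act W E Γ) :
    Pool.Agent.R920.MT.IsSystem (W := W) (fun X j c => c ∈ W.gr X (2 * j) ∧ FinOrb A X j c) where
  lin X j := ⟨{ carrier := {c | c ∈ W.gr X (2 * j) ∧ FinOrb A X j c}
                add_mem' := fun ha hb => ⟨Submodule.add_mem _ ha.1 hb.1, ha.2.add hb.2⟩
                zero_mem' := ⟨Submodule.zero_mem _, FinOrb.zero⟩
                smul_mem' := fun r _ ha => ⟨Submodule.smul_mem _ _ ha.1, ha.2.smul r⟩ },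
              fun _ => Iff.rfl⟩
  cl _ _ _ hz := ⟨W.cl_mem hz, FinOrb.cl hz⟩
  mul _ i j _ _ ha hb := ⟨by rw [mul_add]; exact W.mul_mem ha.1 hb.1, ha.2.mul hb.2⟩
  map _ _ f _ _ h := ⟨W.map_mem f h.1, h.2.map f⟩
  push X Y f j l a hl h := by
    refine ⟨?_, h.2.push f hl⟩
    have h5 := W.push_mem f h.1
    have h6 : ((2 * j : ℕ) : ℤ) + 2 * ((Y.dim : ℤ) - X.dim) = ((2 * l : ℕ) : ℤ) := by omega
    rw [h6, grZ_natCast] at h5
    exact h5
  lift X D j hD hL hj x hx h := by
    refine ⟨hx, FinOrb.lift hD (m := X.dim - 2 * j)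
      (fun y hy h => Pool.Agent.Y133.Half.hl_inj hL hj hy h) hx ?_⟩
    rw [show X.dim - 2 * j + j = X.dim - j by omega]
    exact h.2

lemma mot_tate (Ψ : HodgeStr W) (G : GaloisAction W E Γ) {j : ℕ} {c : W.H X}
    (h : Pool.Agent.R920.MT.IsMotivated W X j c) : IsTate G X j c := by
  have hW := hasLefschetz Ψ
  have h1 := h _ (isSystem_fin (galAct G hW))
  exact (isTate_iff G hW h1.1).2 h1.2

/-- The zero-one law, with motivated classes. -/
theorem law_tate' (Ψ : HodgeStr W) (G : GaloisAction W E Γ) (X : 𝒱.Obj) [Nontrivial (W.H X)] :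
    ((∀ n j c, IsHodge Ψ (pw X n) j c → IsTate G (pw X n) j c) ↔
      ¬ Tendsto (fun n => (dimBy W (fun Z j c => IsHodge Ψ Z j c ∧
        IsTate G Z j c) (pw X n) : ℝ) / dimBy W (IsHodge Ψ) (pw X n))
          atTop (𝓝 0)) ∧
    (¬ Tendsto (fun n => (dimBy W (Pool.Agent.R920.MT.IsMotivated W) (pw X n) : ℝ) /
        dimBy W (IsHodge Ψ) (pw X n)) atTop (𝓝 0) →
      ∀ n j c, IsHodge Ψ (pw X n) j c → IsTate G (pw X n) j c) := by
  refine ⟨law_tate Ψ G X, fun h => (law_tate Ψ G X).2 fun h1 => h (tendsto_of_le (fun n => ?_) h1)⟩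
  unfold dimBy Pool.Agent.Y133.Half.dimOf
  apply Submodule.finrank_mono
  apply Submodule.span_mono
  rintro c ⟨j, hc⟩
  exact ⟨j, mot_hodge Ψ hc, mot_tate Ψ G hc⟩

end Pool.Agent.H60ZO
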