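import Pool.Agent.H60ZO.Law
import Pool.Agent.Y133.Half.Hdg

/-!
# Finite orbits under the action of the circle of Deligne
-/

open CategoryTheory AlgebraicGeometry Filter Topology

open scoped TensorProduct ENNReal

universe u v w x

namespace Pool.Agent.H60ZO

open Module
open Pool.Agent.H914 Pool.Agent.H914.VarClass Pool.Agent.H914.VarClass.Obj
  Pool.Agent.H914.WeilCohomology
open Pool.Agent.Y133.Half (ClassPred pw HodgeSystem IsHodge)

/-- A finite orbit of a divisible commutative group has only one element. -/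
lemma fixed_of_finite {G : Type*} [CommGroup G] {α : Type*} (f : G → α → α)
    (hmul : ∀ s t a, f (s * t) a = f s (f t a)) (hone : ∀ a, f 1 a = a)
    (hdiv : ∀ n : ℕ, 0 < n → ∀ t : G, ∃ s, s ^ n = t) {a : α}
    (hfin : (Set.range fun t => f t a).Finite) (t : G) : f t a = a := by
  let S : Subgroup G :=
    { carrier := {t | f t a = a}
      mul_mem' := fun {s t} hs ht => by
        change f (s * t) a = a
        rw [hmul, ht, hs]
      one_mem' := hone a
      inv_mem' := fun {s} hs => by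
        change f s⁻¹ a = a
        have h1 : f s⁻¹ (f s a) = a := by rw [← hmul, inv_mul_cancel, hone]
        rwa [show f s a = a from hs] at h1 }
  have hS : ∀ s t : G, s⁻¹ * t ∈ S ↔ f s a = f t a := by
    intro s t
    change f (s⁻¹ * t) a = a ↔ _
    rw [hmul]
    constructor
    · intro h
      have h2 := congrArg (f s) h
      rw [← hmul, mul_inv_cancel, hone] at h2
      exact h2.symm
    · intro h
      rw [← h, ← hmul, inv_mul_cancel, hone]
  have hq : Finite (G ⧸ S) := by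
    have : Finite (Set.range fun t => f t a) := hfin
    let g : G ⧸ S → Set.range (fun t => f t a) := fun q => ⟨f q.out a, ⟨q.out, rfl⟩⟩
    apply Finite.of_injective g
    intro q q' h
    have h1 : f q.out a = f q'.out a := congrArg Subtype.val h
    rw [← q.out_eq', ← q'.out_eq']
    exact QuotientGroup.eq.2 ((hS _ _).2 h1)
  obtain ⟨s, hs⟩ := hdiv S.index (Nat.pos_of_ne_zero Subgroup.index_ne_zero_of_finite) t
  have h3 : s ^ S.index ∈ S := Subgroup.pow_index_mem S s
  rw [hs] at h3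
  exact h3

lemma exists_root (n : ℕ) (hn : 0 < n) (t : ℂˣ) : ∃ s : ℂˣ, s ^ n = t := by
  obtain ⟨z, hz⟩ := IsAlgClosed.exists_pow_nat_eq (t : ℂ) hn
  have hz0 : z ≠ 0 := by
    rintro rfl
    rw [zero_pow hn.ne'] at hz
    exact t.ne_zero hz.symm
  refine ⟨Units.mk0 z hz0, Units.ext ?_⟩
  rw [Units.val_pow_eq_pow_val, Units.val_mk0, hz]

/-- The square of the absolute value. -/
noncomputable def nrm : ℂˣ →* ℝˣ := (powMonoidHom 2).comp (Units.map (normHom : ℂ →*₀ ℝ).toMonoidHom)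

lemma nrm_pow (t : ℂˣ) (j : ℕ) : ((nrm t : ℝˣ) : ℝ) ^ j = ‖(t : ℂ)‖ ^ (2 * j) := by
  rw [pow_mul]
  rfl

variable {k : Type u} [Field k] {𝒱 : VarClass k} {ops : CycleOps 𝒱}
variable {W : WeilCohomology.{u, v} ops} [Algebra W.K ℝ] {X Y Z : 𝒱.Obj}

/-- The action given by a Hodge structure. -/
noncomputable def hodgeAct (Ψ : HodgeSystem W) : Act W ℝ ℂˣ where
  σ _ := AlgEquiv.refl
  χ t := nrm t
  h X t := (Ψ.h X t).toRingHom
  h_smul X t r a := map_smul (Ψ.h X t) r a
  h_surj X t := Pool.Agent.Y133.Half.h_surjective Ψ t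
  gr_mem t _ _ hc := Ψ.gr_mem t hc
  nat f t y := Ψ.nat f t y
  cyc hz t := by
    rw [nrm_pow]
    exact Ψ.cyc hz t
  deg hc t := by
    rw [nrm_pow]
    exact Ψ.deg hc t

lemma hodgeAct_tw (Ψ : HodgeSystem W) (j : ℕ) (t : ℂˣ) (a : HE W ℝ X) :
    tw (hodgeAct Ψ) X j t a = (((nrm t) ^ j)⁻¹ : ℝˣ).val • (Ψ.h X t a) := rfl

lemma isHodge_iff_fixed (Ψ : HodgeSystem W) {j : ℕ} {c : W.H X} : IsHodge Ψ X j c ↔
    c ∈ W.gr X (2 * j) ∧ ∀ t, tw (hodgeAct Ψ) X j t (1 ⊗ₜ[W.K] c) = 1 ⊗ₜ[W.K] c := by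
  refine and_congr_right fun _ => forall_congr' fun t => ?_
  rw [hodgeAct_tw, ← nrm_pow, ← Units.val_pow_eq_pow_val]
  constructor
  · intro h
    rw [h, smul_smul, ← Units.val_mul, inv_mul_cancel, Units.val_one, one_smul]
  · intro h
    conv_rhs => rw [← h, smul_smul, ← Units.val_mul, mul_inv_cancel, Units.val_one, one_smul]

lemma hodge_finOrb_iff (Ψ : HodgeSystem W) {j : ℕ} {c : W.H X} (hc : c ∈ W.gr X (2 * j)) :
    IsHodge Ψ X j c ↔ FinOrb (hodgeAct Ψ) X j c := by
  constructor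
  · intro h
    exact FinOrb.of_fixed ((isHodge_iff_fixed Ψ).1 h).2
  · intro h
    refine (isHodge_iff_fixed Ψ).2 ⟨hc, fun t => ?_⟩
    refine fixed_of_finite (fun t a => tw (hodgeAct Ψ) X j t a) ?_ ?_ exists_root h t
    · intro s t a
      rw [hodgeAct_tw, hodgeAct_tw, hodgeAct_tw, Ψ.h_mul, map_smul, smul_smul, ← Units.val_mul,
        map_mul, mul_pow, mul_inv]
      rfl
    · intro a
      rw [hodgeAct_tw, Ψ.h_one, map_one, one_pow, inv_one, Units.val_one, one_smul]
      rfl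

end Pool.Agent.H60ZO
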