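import Pool.Agent.H60ZO.Act
import Pool.Agent.Y133.Half.PairPred

/-!
# The zero-one law for classes with finite orbits
-/

open CategoryTheory AlgebraicGeometry Filter Topology

open scoped TensorProduct ENNReal

universe u v w x

namespace Pool.Agent.H60ZO

open Module
open Pool.Agent.H914 Pool.Agent.H914.VarClass Pool.Agent.H914.VarClass.Obj
  Pool.Agent.H914.WeilCohomology
open Pool.Agent.Y133.Half (ClassPred pw pwAdd HasIndex dimBy GeneratedOver genOver imagesBy)

section Fun

variable (E : Type w) [Field E] (Γ : Type x)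

/-- The functions with finitely many values. -/
def finFun : Subalgebra E (Γ → E) where
  carrier := {f | (Set.range f).Finite}
  mul_mem' {a b} ha hb := by
    apply (Set.Finite.image2 (· * ·) ha hb).subset
    rintro _ ⟨t, rfl⟩
    exact ⟨_, ⟨t, rfl⟩, _, ⟨t, rfl⟩, rfl⟩
  add_mem' {a b} ha hb := by
    apply (Set.Finite.image2 (· + ·) ha hb).subset
    rintro _ ⟨t, rfl⟩
    exact ⟨_, ⟨t, rfl⟩, _, ⟨t, rfl⟩, rfl⟩
  algebraMap_mem' r := by
    apply (Set.finite_singleton r).subset
    rintro _ ⟨t, rfl⟩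
    rfl

variable {E Γ}

lemma mem_finFun {f : Γ → E} : f ∈ finFun E Γ ↔ (Set.range f).Finite := Iff.rfl

/-- A function which is integral over the functions with finitely many values has finitely many
values. -/
lemma finite_of_integral {f : Γ → E} (hf : IsIntegral (finFun E Γ) f) : (Set.range f).Finite := by
  obtain ⟨p, hp, h0⟩ := hf
  let ev : Γ → (finFun E Γ →+* E) := fun t =>
    (Pi.evalRingHom (fun _ : Γ => E) t).comp (algebraMap (finFun E Γ) (Γ → E))
  let n := p.natDegree
  let F : (Fin (n + 1) → E) → Polynomial E := fun c => ∑ i, Polynomial.C (c i) * Polynomial.X ^ (i : ℕ)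
  let co : Γ → (Fin (n + 1) → E) := fun t i => ((p.coeff i : finFun E Γ) : Γ → E) t
  have hco : (Set.range co).Finite := by
    have h1 : {f : Fin (n + 1) → E | ∀ i : Fin (n + 1), f i ∈
        Set.range ((p.coeff i : finFun E Γ) : Γ → E)}.Finite :=
      Set.Finite.pi' fun i => (p.coeff i).2
    apply h1.subset
    rintro _ ⟨t, rfl⟩ i
    exact ⟨t, rfl⟩
  have hF : ∀ t, F (co t) = p.map (ev t) := by
    intro t
    conv_rhs => rw [Polynomial.as_sum_range_C_mul_X_pow p, Polynomial.map_sum, Finset.sum_range]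
    refine Finset.sum_congr rfl fun i _ => ?_
    rw [Polynomial.map_mul, Polynomial.map_C, Polynomial.map_pow, Polynomial.map_X]
    rfl
  have hroot : ∀ t, (F (co t)).IsRoot (f t) := by
    intro t
    rw [hF, Polynomial.IsRoot, Polynomial.eval_map]
    have h1 := congrFun h0 t
    have h2 : Polynomial.eval₂ (ev t) (f t) p =
        (Pi.evalRingHom (fun _ : Γ => E) t) (Polynomial.eval₂ (algebraMap (finFun E Γ) (Γ → E)) f p) := by
      rw [Polynomial.hom_eval₂]
      rfl
    rw [h2]
    exact h1
  have hne : ∀ t, F (co t) ≠ 0 := by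
    intro t
    rw [hF]
    exact (hp.map _).ne_zero
  have hfin : (⋃ c ∈ Set.range co, {e | (F c) ≠ 0 ∧ (F c).IsRoot e}).Finite := by
    apply hco.biUnion
    intro c _
    by_cases hc : F c = 0
    · apply Set.finite_empty.subset
      rintro e ⟨h, -⟩
      exact absurd hc h
    · apply (Polynomial.finite_setOfPred_isRoot hc).subset
      rintro e ⟨-, h⟩
      exact h
  apply hfin.subset
  rintro _ ⟨t, rfl⟩
  simp only [Set.mem_iUnion]
  exact ⟨co t, ⟨t, rfl⟩, hne t, hroot t⟩

end Fun

variable {k : Type u} [Field k] {𝒱 : VarClass k} {ops : CycleOps 𝒱}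
variable {W : WeilCohomology.{u, v} ops} {E : Type w} [Field E] [Algebra W.K E] {X Y Z P Q : 𝒱.Obj}
variable {Γ : Type x} (A : Act W E Γ)

/-- A basis of the cohomology with coefficients in `E`. -/
noncomputable def bE (W : WeilCohomology.{u, v} ops) (E : Type w) [Field E] [Algebra W.K E]
    (Z : 𝒱.Obj) : Basis (Fin (finrank W.K (W.H Z))) E (HE W E Z) :=
  (Module.finBasis W.K (W.H Z)).baseChange E

/-- The coefficient function. -/
noncomputable def cf (Z : 𝒱.Obj) (j : ℕ) (z : W.H Z) (l : HE W E Z →ₗ[E] E) : Γ → E :=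
  fun t => l (tw A Z j t (1 ⊗ₜ[W.K] z))

lemma cf_add (j : ℕ) (z z' : W.H Z) (l : HE W E Z →ₗ[E] E) :
    cf A Z j (z + z') l = cf A Z j z l + cf A Z j z' l := by
  funext t
  simp only [cf, Pi.add_apply, TensorProduct.tmul_add, tw_add, map_add]

lemma cf_zero (j : ℕ) (l : HE W E Z →ₗ[E] E) : cf A Z j (0 : W.H Z) l = 0 := by
  funext t
  simp only [cf, Pi.zero_apply, TensorProduct.tmul_zero, tw_zero, map_zero]

lemma cf_smul (j : ℕ) (r : W.K) (z : W.H Z) (l : HE W E Z →ₗ[E] E) :
    cf A Z j (r • z) l = algebraMap W.K E r • cf A Z j z l := by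
  funext t
  have h1 : (1 : E) ⊗ₜ[W.K] (r • z) = algebraMap W.K E r • ((1 : E) ⊗ₜ[W.K] z) := by
    rw [TensorProduct.tmul_smul, ← algebraMap_smul E r]
  simp only [cf, Pi.smul_apply, h1, tw_smul, AlgEquiv.commutes, map_smul]

lemma cf_expand (j : ℕ) (z : W.H Z) (l : HE W E Z →ₗ[E] E) :
    cf A Z j z l = ∑ a, l (bE W E Z a) • cf A Z j z ((bE W E Z).coord a) := by
  funext t
  rw [Finset.sum_apply]
  simp only [cf, Pi.smul_apply, smul_eq_mul, Basis.coord_apply]
  conv_lhs => rw [← (bE W E Z).sum_repr (tw A Z j t (1 ⊗ₜ[W.K] z)), map_sum]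
  refine Finset.sum_congr rfl fun a _ => ?_
  rw [map_smul, smul_eq_mul, mul_comm]

lemma finOrb_iff (j : ℕ) (z : W.H Z) :
    FinOrb A Z j z ↔ ∀ l, (Set.range (cf A Z j z l)).Finite := by
  constructor
  · intro h l
    apply (h.image l).subset
    rintro _ ⟨t, rfl⟩
    exact ⟨_, ⟨t, rfl⟩, rfl⟩
  · intro h
    refine Set.Finite.of_finite_image (f := (bE W E Z).equivFun) ?_
      (bE W E Z).equivFun.injective.injOn
    have h1 : {f : Fin (finrank W.K (W.H Z)) → E | ∀ a, f a ∈
        Set.range (cf A Z j z ((bE W E Z).coord a))}.Finite :=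
      Set.Finite.pi' fun a => h _
    apply h1.subset
    rintro _ ⟨_, ⟨t, rfl⟩, rfl⟩ a
    exact ⟨t, rfl⟩

/-- External products of functionals. -/
lemma exists_ext (l : HE W E P →ₗ[E] E) (m : HE W E Q →ₗ[E] E) :
    ∃ n : HE W E (P.prod Q) →ₗ[E] E, ∀ a b,
      n (mapE W E (fst P Q) a * mapE W E (snd P Q) b) = l a * m b := by
  let κ : HE W E (P.prod Q) →ₗ[E] E ⊗[W.K] (W.H P ⊗[W.K] W.H Q) :=
    (kappa W P Q).symm.toLinearMap.baseChange E
  let δ : E ⊗[W.K] (W.H P ⊗[W.K] W.H Q) →ₗ[E] (HE W E P) ⊗[E] (HE W E Q) :=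
    (TensorProduct.AlgebraTensorModule.distribBaseChange W.K E (W.H P) (W.H Q)).toLinearMap
  refine ⟨LinearMap.mul' E E ∘ₗ TensorProduct.map l m ∘ₗ δ ∘ₗ κ, fun a b => ?_⟩
  induction a using TensorProduct.induction_on with
  | zero => simp
  | add a a' ha ha' => rw [map_add, add_mul, map_add, ha, ha', map_add, add_mul]
  | tmul r c =>
    induction b using TensorProduct.induction_on with
    | zero => simp
    | add b b' hb hb' => rw [map_add, mul_add, map_add, hb, hb', map_add, mul_add]
    | tmul s d =>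
      rw [mapE_tmul, mapE_tmul, Algebra.TensorProduct.tmul_mul_tmul, ← kappa_tmul]
      simp only [κ, δ, LinearMap.comp_apply, LinearMap.baseChange_tmul, LinearEquiv.coe_coe,
        LinearEquiv.symm_apply_apply]
      rw [TensorProduct.AlgebraTensorModule.distribBaseChange_tmul, TensorProduct.map_tmul,
        LinearMap.mul'_apply]
      have h1 : (r * s) ⊗ₜ[W.K] c = s • (r ⊗ₜ[W.K] c) := by
        rw [TensorProduct.smul_tmul', smul_eq_mul, mul_comm]
      have h2 : s ⊗ₜ[W.K] d = s • ((1 : E) ⊗ₜ[W.K] d) := by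
        rw [TensorProduct.smul_tmul', smul_eq_mul, mul_one]
      rw [h1, h2, map_smul, map_smul, smul_eq_mul, smul_eq_mul]
      ring

/-- Products of coefficient functions. -/
lemma cf_mul {i j : ℕ} (z : W.H P) (w : W.H Q) (l : HE W E P →ₗ[E] E) (m : HE W E Q →ₗ[E] E)
    {T : 𝒱.Obj} (θ : P.prod Q ≅ T) :
    ∃ n, cf A P i z l * cf A Q j w m = cf A T (i + j)
      (W.map θ.inv (W.map (fst P Q) z * W.map (snd P Q) w)) n := by
  obtain ⟨n, hn⟩ := exists_ext l m
  refine ⟨n ∘ₗ (mapE W E θ.hom).toLinearMap, ?_⟩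
  funext t
  simp only [Pi.mul_apply, cf]
  rw [← hn, ← tw_map, ← tw_map, ← tw_mul, mapE_tmul, mapE_tmul,
    Algebra.TensorProduct.tmul_mul_tmul, one_mul, ← mapE_tmul, tw_map, LinearMap.comp_apply,
    AlgHom.toLinearMap_apply]
  congr 1
  have h1 : ∀ y : HE W E (P.prod Q), mapE W E θ.hom (mapE W E θ.inv y) = y := by
    intro y
    induction y using TensorProduct.induction_on with
    | zero => simp
    | add a b ha hb => rw [map_add, map_add, ha, hb]
    | tmul r c => rw [mapE_tmul, mapE_tmul, ← W.map_comp, θ.hom_inv_id, W.map_id]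
  rw [h1]

section Gen

variable {r : ℕ} (c : Fin r → Σ m, W.H (pw X m)) (jj : Fin r → ℕ)

/-- The generators. -/
def genSet : Set (Γ → E) :=
  {1} ∪ ⋃ i, Set.range fun a => cf A _ (jj i) (c i).2 ((bE W E _).coord a)

lemma genSet_finite : (genSet A c jj).Finite :=
  (Set.finite_singleton _).union (Set.finite_iUnion fun _ => Set.finite_range _)

/-- The module generated by the coefficient functions of finitely many classes. -/
def cMod : Submodule (finFun E Γ) (Γ → E) := Submodule.span _ (genSet A c jj)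

lemma cMod_fg : (cMod A c jj).FG := Submodule.fg_span (genSet_finite A c jj)

lemma smulE_mem {M : Submodule (finFun E Γ) (Γ → E)} (r : E) {f : Γ → E} (hf : f ∈ M) :
    r • f ∈ M := by
  have h1 : r • f = (algebraMap E (finFun E Γ) r) • f := by
    rw [Algebra.algebraMap_eq_smul_one, smul_assoc, one_smul]
  rw [h1]
  exact M.smul_mem _ hf

lemma finmul_mem {M : Submodule (finFun E Γ) (Γ → E)} {f g : Γ → E} (hf : (Set.range f).Finite)
    (hg : g ∈ M) : f * g ∈ M := M.smul_mem (⟨f, hf⟩ : finFun E Γ) hg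

lemma one_mem_cMod : (1 : Γ → E) ∈ cMod A c jj := Submodule.subset_span (Or.inl rfl)

lemma fin_mem {f : Γ → E} (hf : (Set.range f).Finite) : f ∈ cMod A c jj := by
  have := finmul_mem hf (one_mem_cMod A c jj)
  rwa [mul_one] at this

lemma cf_mem_cMod (i : Fin r) (l : HE W E (pw X (c i).1) →ₗ[E] E) :
    cf A _ (jj i) (c i).2 l ∈ cMod A c jj := by
  rw [cf_expand]
  apply Submodule.sum_mem
  intro a _
  apply smulE_mem
  apply Submodule.subset_span
  exact Or.inr (Set.mem_iUnion.2 ⟨i, ⟨a, rfl⟩⟩)

variable {A c jj} {R : ClassPred W}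

/-- The coefficient functions of the generated classes. -/
lemma cf_gen (hc : ∀ i, R.P (pw X (c i).1) (jj i) (c i).2) {n : ℕ} {y : W.H (pw X n)}
    (hy : y ∈ genOver W (finPred A R).P X c n) (j : ℕ) (l : HE W E (pw X n) →ₗ[E] E) :
    cf A (pw X n) j (H914.proj (W.isInternal (pw X n)) (2 * j) y) l ∈ cMod A c jj := by
  unfold genOver at hy
  induction hy using Submodule.span_induction with
  | mem y hy =>
    rcases hy with ⟨i, hy⟩ | hy
    · by_cases hij : i = j
      · subst hij
        rw [proj_same _ ((finPred A R).gr hy)]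
        exact fin_mem A c jj ((finOrb_iff A i y).1 hy.2 l)
      · rw [proj_ne _ ((finPred A R).gr hy) (by omega), cf_zero]
        exact Submodule.zero_mem _
    · obtain ⟨i, hi⟩ := Set.mem_iUnion.1 hy
      obtain ⟨m, z, hz, rfl⟩ := hi
      change (finPred A R).P ((pw X (c i).1).prod (pw X n)) m z at hz
      have hzc : R.P ((pw X (c i).1).prod (pw X n)) (m + jj i) (z * W.map (fst _ _) (c i).2) := R.mul hz.1 (R.map _ (hc i))
      by_cases h : j + ((pw X (c i).1).prod (pw X n)).dim = (m + jj i) + (pw X n).dim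
      · have h1 := R.push (snd (pw X (c i).1) (pw X n)) h hzc
        rw [proj_same _ (R.gr h1)]
        have key : cf A (pw X n) j (W.push (snd (pw X (c i).1) (pw X n))
            (z * W.map (fst _ _) (c i).2)) l =
            ∑ a, cf A ((pw X (c i).1).prod (pw X n)) m z ((bE W E _).coord a) * cf A _ (jj i) (c i).2
              (l ∘ₗ pushE W E (snd (pw X (c i).1) (pw X n)) ∘ₗ
                LinearMap.mulLeft E (bE W E _ a) ∘ₗ
                  (mapE W E (fst (pw X (c i).1) (pw X n))).toLinearMap) := by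
          funext t
          rw [Finset.sum_apply]
          simp only [Pi.mul_apply, cf, LinearMap.comp_apply, LinearMap.mulLeft_apply,
            AlgHom.toLinearMap_apply, Basis.coord_apply]
          rw [← pushE_tmul, tw_push A _ h]
          have h2 : (1 : E) ⊗ₜ[W.K] (z * W.map (fst (pw X (c i).1) (pw X n)) (c i).2) =
              (1 ⊗ₜ[W.K] z) * mapE W E (fst (pw X (c i).1) (pw X n)) (1 ⊗ₜ[W.K] (c i).2) := by
            rw [mapE_tmul, Algebra.TensorProduct.tmul_mul_tmul, one_mul]
          rw [h2, tw_mul, tw_map]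
          conv_lhs => rw [← (bE W E _).sum_repr (tw A _ m t (1 ⊗ₜ[W.K] z))]
          rw [Finset.sum_mul, map_sum, map_sum]
          refine Finset.sum_congr rfl fun a _ => ?_
          rw [smul_mul_assoc, map_smul, map_smul, smul_eq_mul]
        rw [key]
        apply Submodule.sum_mem
        intro a _
        exact finmul_mem ((finOrb_iff A m z).1 hz.2 _) (cf_mem_cMod A c jj i _)
      · have h1 := W.push_mem (snd (pw X (c i).1) (pw X n)) (R.gr hzc)
        have h3 : H914.proj (W.isInternal (pw X n)) (2 * j)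
            (W.push (snd (pw X (c i).1) (pw X n)) (z * W.map (fst _ _) (c i).2)) = 0 := by
          rcases lt_or_ge (((2 * (m + jj i) : ℕ) : ℤ) + 2 * (((pw X n).dim : ℤ) -
            ((pw X (c i).1).prod (pw X n)).dim)) 0
            with h2 | h2
          · rw [grZ_of_neg h2, Submodule.mem_bot] at h1
            rw [h1, map_zero]
          · obtain ⟨q, hq⟩ := Int.eq_ofNat_of_zero_le h2
            rw [hq, grZ_natCast] at h1
            exact proj_ne _ h1 (by omega)
        rw [h3, cf_zero]
        exact Submodule.zero_mem _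
  | zero => rw [map_zero, cf_zero]; exact Submodule.zero_mem _
  | add a b _ _ ha hb => rw [map_add, cf_add]; exact Submodule.add_mem _ ha hb
  | smul s a _ ha => rw [map_smul, cf_smul]; exact smulE_mem _ ha

/-- If the classes with the property `R` on the powers of `X` are generated by finitely many of them
over the classes with finite orbits, then all their orbits are finite. -/
theorem all_fin (hc : ∀ i, R.P (pw X (c i).1) (jj i) (c i).2)
    (hg : ∀ n j z, R.P (pw X n) j z → z ∈ genOver W (finPred A R).P X c n) (n j : ℕ)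
    (z : W.H (pw X n)) (hz : R.P (pw X n) j z) : FinOrb A (pw X n) j z := by
  let S : Set (Γ → E) := {f | ∃ n j z l, R.P (pw X n) j z ∧ f = cf A (pw X n) j z l}
  let N : Submodule (finFun E Γ) (Γ → E) := Submodule.span _ ({1} ∪ S)
  have hS : ∀ n j z l, R.P (pw X n) j z → cf A (pw X n) j z l ∈ N := fun n j z l h =>
    Submodule.subset_span (Or.inr ⟨n, j, z, l, h, rfl⟩)
  have h1N : (1 : Γ → E) ∈ N := Submodule.subset_span (Or.inl rfl)
  have hNM : N = cMod A c jj := by
    apply le_antisymm
    · apply Submodule.span_le.2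
      rintro f (hf | ⟨n, j, z, l, h, rfl⟩)
      · rw [Set.mem_singleton_iff] at hf
        rw [hf]
        exact one_mem_cMod A c jj
      · have h2 := cf_gen hc (hg n j z h) j l
        rwa [proj_same _ (R.gr h)] at h2
    · apply Submodule.span_le.2
      rintro f (hf | hf)
      · rw [Set.mem_singleton_iff] at hf
        rw [hf]
        exact h1N
      · obtain ⟨i, ⟨a, rfl⟩⟩ := Set.mem_iUnion.1 hf
        exact hS _ _ _ _ (hc i)
  have hmul : ∀ f g, f ∈ N → g ∈ N → f * g ∈ N := by
    have h2 : N * N ≤ N := by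
      change Submodule.span _ _ * Submodule.span _ _ ≤ _
      rw [Submodule.span_mul_span, Submodule.span_le]
      rintro _ ⟨f, hf, g, hg, rfl⟩
      rcases hf with hf | ⟨n, j, z, l, h, rfl⟩
      · rw [Set.mem_singleton_iff] at hf
        subst hf
        simp only [one_mul]
        exact Submodule.subset_span hg
      · rcases hg with hg | ⟨n', j', z', l', h', rfl⟩
        · rw [Set.mem_singleton_iff] at hg
          subst hg
          simp only [mul_one]
          exact hS _ _ _ _ h
        · obtain ⟨q, hq⟩ := cf_mul A (i := j) (j := j') z z' l l' (pwAdd X n n')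
          simp only [hq]
          exact hS _ _ _ _ (R.map _ (R.mul (R.map _ h) (R.map _ h')))
    exact fun f g hf hg => h2 (Submodule.mul_mem_mul hf hg)
  let N' : Subalgebra (finFun E Γ) (Γ → E) := N.toSubalgebra h1N hmul
  have hfg : (Subalgebra.toSubmodule N').FG := by
    have h2 : Subalgebra.toSubmodule N' = cMod A c jj := by
      rw [← hNM]
      exact Submodule.toSubalgebra_toSubmodule _ _ _
    rw [h2]
    exact cMod_fg A c jj
  rw [finOrb_iff]
  intro l
  apply finite_of_integral
  exact IsIntegral.of_mem_of_fg N' hfg _ (hS n j z l hz)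

end Gen

/-- **The zero-one law.** -/
theorem zero_one (R : ClassPred W) (X : 𝒱.Obj) [Nontrivial (W.H X)]
    (hnd : ∀ n, (finPred A R).sys.Nondeg (pw X n)) :
    (∀ n j c, R.P (pw X n) j c → FinOrb A (pw X n) j c) ∨
      HasIndex (fun n => dimBy W R.P (pw X n)) (fun n => dimBy W (finPred A R).P (pw X n)) ⊤ := by
  obtain ⟨N, -, -, -, h1, -, -, -, -, -, -, h2, -⟩ :=
    (finPred A R).tower R (fun h => h.1) X hnd
  by_cases hN : N = ⊤
  · right
    rw [← hN]
    exact h1
  · left
    obtain ⟨r, c, -, hc, hg⟩ := h2 hN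
    choose jj hjj using hc
    exact all_fin hjj hg

end Pool.Agent.H60ZO
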