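import Pool.Agent.H60ZO.Emb3

/-!
# The index law for classes with extended coefficients
-/

open CategoryTheory AlgebraicGeometry Filter Topology

open scoped TensorProduct ENNReal

universe u v w x y

namespace Pool.Agent.H60ZO

open Module
open Pool.Agent.H914 Pool.Agent.H914.VarClass Pool.Agent.H914.VarClass.Obj
  Pool.Agent.H914.WeilCohomology
open Pool.Agent.Y133.Half (ClassPred pw HasIndex dimBy Sys genOver imagesBy)
open Gal

section Alg

variable {K E L : Type*} [Field K] [Field E] [Algebra K E] [Field L] [Algebra K L]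
  {A : Type*} [Ring A] [Algebra K A]

lemma ctr_phi (ι : E →ₐ[K] L) (f : L →ₗ[K] K) (z : E ⊗[K] A) :
    ctr f (phi ι A z) = ctr (f ∘ₗ ι.toLinearMap) z := by
  induction z using TensorProduct.induction_on with
  | zero => rw [map_zero, map_zero, map_zero]
  | add a b ha hb => rw [map_add, map_add, ha, hb, map_add]
  | tmul s c => rw [phi_tmul, ctr_tmul, ctr_tmul]; rfl

/-- Membership in the extension of a subspace can be tested after a further extension. -/
lemma mem_of_phi_mem [FiniteDimensional K A] (ι : E →ₐ[K] L) {p : Submodule K A} {z : E ⊗[K] A}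
    (h : phi ι A z ∈ p.baseChange L) : z ∈ p.baseChange E := by
  rw [mem_bc_iff]
  intro f
  obtain ⟨r, hr⟩ := LinearMap.exists_leftInverse_of_injective ι.toLinearMap
    (LinearMap.ker_eq_bot.2 ι.injective)
  have h1 := ctr_mem h (f ∘ₗ r)
  rw [ctr_phi, LinearMap.comp_assoc, hr, LinearMap.comp_id] at h1
  exact h1

end Alg

variable {k : Type u} [Field k] {𝒱 : VarClass k} {ops : CycleOps 𝒱}
  {W : WeilCohomology.{u, v} ops} {X Y Z : 𝒱.Obj}

lemma genOver_mono {P P' : ∀ Z : 𝒱.Obj, ℕ → W.H Z → Prop}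
    (h : ∀ {Z : 𝒱.Obj} {j : ℕ} {c : W.H Z}, P Z j c → P' Z j c) (X : 𝒱.Obj) {r : ℕ}
    (c : Fin r → Σ m, W.H (pw X m)) (n : ℕ) : genOver W P X c n ≤ genOver W P' X c n := by
  apply Submodule.span_mono
  apply Set.union_subset_union
  · rintro z ⟨j, hz⟩
    exact ⟨j, h hz⟩
  · apply Set.iUnion_mono
    rintro i z ⟨m, y, hy, hz⟩
    exact ⟨m, y, h hy, hz⟩

/-- The index law with families of automorphisms. -/
theorem index_fin (Q R : ClassPred W)
    (hQR : ∀ {Z : 𝒱.Obj} {j : ℕ} {c : W.H Z}, Q.P Z j c → R.P Z j c) (X : 𝒱.Obj)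
    [Nontrivial (W.H X)] (hnd : ∀ n, Q.sys.Nondeg (pw X n)) :
    ∃ N : ℕ∞, 1 ≤ N ∧
      HasIndex (fun n => dimBy W R.P (pw X n)) (fun n => dimBy W Q.P (pw X n)) N ∧
      (N = 1 ↔ ∀ n j c, R.P (pw X n) j c → Q.P (pw X n) j c) ∧
      (N ≠ ⊤ → ∀ {E : Type w} [Field E] [Algebra W.K E] {Γ : Type x} (A : Act W E Γ),
        (∀ {Z : 𝒱.Obj} {j : ℕ} {c : W.H Z}, Q.P Z j c → FinOrb A Z j c) →
        ∀ n j c, R.P (pw X n) j c → FinOrb A (pw X n) j c) := by
  obtain ⟨N, M, h1, -, h2, -, -, h3, -, -, -, h4, -⟩ := Q.tower R hQR X hnd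
  refine ⟨N, h1, h2, h3, fun hN E _ _ Γ A hA n j c hc => ?_⟩
  obtain ⟨r, g, -, hg, hgen⟩ := h4 hN
  choose jj hjj using hg
  refine all_fin (A := A) (R := R) hjj (fun n j z hz => ?_) n j c hc
  exact genOver_mono (fun h => ⟨hQR h, hA h⟩) X g n (hgen n j z hz)

end Pool.Agent.H60ZO
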