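import Pool.Agent.H60ZO.Law2

/-!
# Fixed classes, and the classes with several properties
-/

open CategoryTheory AlgebraicGeometry Filter Topology

open scoped TensorProduct ENNReal

universe u v w x y z

namespace Pool.Agent.H60ZO

open Module
open Pool.Agent.H914 Pool.Agent.H914.VarClass Pool.Agent.H914.VarClass.Obj
  Pool.Agent.H914.WeilCohomology
open Pool.Agent.Y133.Half (ClassPred pw HasIndex dimBy Sys genOver imagesBy)
open Pool.Agent.Y133.Hdg (HodgeStr IsHodge hodgePred isHodge_iff)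
open Gal

variable {k : Type u} [Field k] {𝒱 : VarClass k} {ops : CycleOps 𝒱}
  {W : WeilCohomology.{u, v} ops} {X Y Z : 𝒱.Obj}

attribute [local instance] baseAlg

section Fix

variable {E : Type w} [Field E] [Algebra W.K E] {Γ : Type x} {A : Act W E Γ}

/-- The class is fixed by the family. -/
def Fix (A : Act W E Γ) (X : 𝒱.Obj) (j : ℕ) (c : W.H X) : Prop :=
  ∀ t, tw A X j t (1 ⊗ₜ[W.K] c) = 1 ⊗ₜ[W.K] c

lemma Fix.finOrb {j : ℕ} {c : W.H X} (h : Fix A X j c) : FinOrb A X j c := FinOrb.of_fixed h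

lemma one_smul_tmul (r : W.K) (c : W.H X) :
    (1 : E) ⊗ₜ[W.K] (r • c) = algebraMap W.K E r • ((1 : E) ⊗ₜ[W.K] c) := by
  rw [TensorProduct.tmul_smul, ← algebraMap_smul E r]

lemma one_mul_tmul (a b : W.H X) :
    (1 : E) ⊗ₜ[W.K] (a * b) = (1 ⊗ₜ[W.K] a) * (1 ⊗ₜ[W.K] b) := by
  rw [Algebra.TensorProduct.tmul_mul_tmul, one_mul]

variable (A) in
/-- The fixed classes. -/
noncomputable def fixAll : ClassPred W where
  P X j c := c ∈ W.gr X (2 * j) ∧ Fix A X j c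
  gr h := h.1
  zero := ⟨Submodule.zero_mem _, fun t => by rw [TensorProduct.tmul_zero, tw_zero]⟩
  add ha hb := ⟨Submodule.add_mem _ ha.1 hb.1, fun t => by
    rw [TensorProduct.tmul_add, tw_add, ha.2, hb.2]⟩
  smul r _ ha := ⟨Submodule.smul_mem _ _ ha.1, fun t => by
    rw [one_smul_tmul, tw_smul, AlgEquiv.commutes, ha.2]⟩
  cl hz := ⟨W.cl_mem hz, fun t => tw_cl hz t⟩
  mul ha hb := ⟨by rw [mul_add]; exact W.mul_mem ha.1 hb.1, fun t => by
    rw [one_mul_tmul, tw_mul, ha.2, hb.2]⟩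
  map f _ _ h := ⟨W.map_mem f h.1, fun t => by
    rw [← mapE_tmul, tw_map, h.2]⟩
  push {X Y} f {j l} hl {a} h := by
    refine ⟨?_, fun t => ?_⟩
    · have h5 := W.push_mem f h.1
      have h6 : ((2 * j : ℕ) : ℤ) + 2 * ((Y.dim : ℤ) - X.dim) = ((2 * l : ℕ) : ℤ) := by omega
      rw [h6, grZ_natCast] at h5
      exact h5
    · rw [← pushE_tmul, tw_push A f hl, h.2]

variable (A) in
/-- The classes with finite orbits. -/
noncomputable def finAll : ClassPred W where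
  P X j c := c ∈ W.gr X (2 * j) ∧ FinOrb A X j c
  gr h := h.1
  zero := ⟨Submodule.zero_mem _, FinOrb.zero⟩
  add ha hb := ⟨Submodule.add_mem _ ha.1 hb.1, ha.2.add hb.2⟩
  smul r _ ha := ⟨Submodule.smul_mem _ _ ha.1, ha.2.smul r⟩
  cl hz := ⟨W.cl_mem hz, FinOrb.cl hz⟩
  mul ha hb := ⟨by rw [mul_add]; exact W.mul_mem ha.1 hb.1, ha.2.mul hb.2⟩
  map f _ _ h := ⟨W.map_mem f h.1, h.2.map f⟩
  push {X Y} f {j l} hl {a} h := by
    refine ⟨?_, h.2.push f hl⟩
    have h5 := W.push_mem f h.1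
    have h6 : ((2 * j : ℕ) : ℤ) + 2 * ((Y.dim : ℤ) - X.dim) = ((2 * l : ℕ) : ℤ) := by omega
    rw [h6, grZ_natCast] at h5
    exact h5

lemma hl_inj' {D : X.Cycles} (hHL : HardLefschetz W X D) {i : ℕ} (hi : i ≤ X.dim) {x : W.H X}
    (hx : x ∈ W.gr X i) (h : W.cl X D ^ (X.dim - i) * x = 0) : x = 0 := by
  apply (hHL i hi).1 x hx
  rw [LinearMap.pow_mulLeft, LinearMap.mulLeft_apply, h]

/-- The property is stable under the inverses of the Lefschetz isomorphisms. -/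
def Lifts (Q : ClassPred W) : Prop :=
  ∀ (X : 𝒱.Obj) (D : X.Cycles), X.IsCyc 1 D → HardLefschetz W X D → ∀ j, 2 * j ≤ X.dim →
    ∀ x ∈ W.gr X (2 * j), Q.P X (X.dim - j) (W.cl X D ^ (X.dim - 2 * j) * x) → Q.P X j x

lemma fixAll_lifts : Lifts (fixAll A) := by
  intro X D hD hL j hj x hx h
  refine ⟨hx, fun t => ?_⟩
  rw [← sub_eq_zero]
  refine mulE_inj (i := 2 * j) (w := W.cl X D ^ (X.dim - 2 * j))
    (fun y hy h => hl_inj' hL hj hy h)
    (Submodule.sub_mem _ (tw_mem hx t) (Submodule.tmul_mem_baseChange_of_mem _ hx)) ?_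
  have h1 := h.2 t
  rw [one_mul_tmul, show X.dim - j = X.dim - 2 * j + j by omega, tw_mul, tw_pow hD] at h1
  rw [mul_sub, h1, sub_self]

lemma finAll_lifts : Lifts (finAll A) := by
  intro X D hD hL j hj x hx h
  refine ⟨hx, FinOrb.lift hD (m := X.dim - 2 * j)
      (fun y hy h => hl_inj' hL hj hy h) hx ?_⟩
  rw [show X.dim - 2 * j + j = X.dim - j by omega]
  exact h.2

end Fix

lemma tatePred_lifts {E : Type w} [Field E] [Algebra W.K E] {Γ : Type x} [Group Γ]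
    (hL : HasLefschetz W) (G : GaloisAction W E Γ) : Lifts (tatePred hL G) := by
  intro X D hD hH j hj x hx h
  exact (isTate_iff G hL hx).2 (finAll_lifts (A := galAct G hL) X D hD hH j hj x hx
    ⟨h.1, (isTate_iff G hL h.1).1 h⟩).2

/-- The classes with several properties. -/
def interFam (Q₀ : ClassPred W) {ι : Sort z} (Q : ι → ClassPred W) : ClassPred W where
  P X j c := Q₀.P X j c ∧ ∀ i, (Q i).P X j c
  gr h := Q₀.gr h.1
  zero := ⟨Q₀.zero, fun i => (Q i).zero⟩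
  add ha hb := ⟨Q₀.add ha.1 hb.1, fun i => (Q i).add (ha.2 i) (hb.2 i)⟩
  smul r _ ha := ⟨Q₀.smul r ha.1, fun i => (Q i).smul r (ha.2 i)⟩
  cl hz := ⟨Q₀.cl hz, fun i => (Q i).cl hz⟩
  mul ha hb := ⟨Q₀.mul ha.1 hb.1, fun i => (Q i).mul (ha.2 i) (hb.2 i)⟩
  map f _ _ h := ⟨Q₀.map f h.1, fun i => (Q i).map f (h.2 i)⟩
  push f _ _ hl _ h := ⟨Q₀.push f hl h.1, fun i => (Q i).push f hl (h.2 i)⟩

lemma csub_interFam {Q₀ : ClassPred W} {ι : Sort z} {Q : ι → ClassPred W} {j : ℕ}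
    {F : Type v} [Field F] [Algebra W.K F] {c : F ⊗[W.K] W.H X}
    (h0 : c ∈ (csub Q₀ X j).baseChange F) (h : ∀ i, c ∈ (csub (Q i) X j).baseChange F) :
    c ∈ (csub (interFam Q₀ Q) X j).baseChange F := by
  rw [mem_bc_iff]
  intro f
  exact ⟨ctr_mem h0 f, fun i => ctr_mem (h i) f⟩

section Hodge

variable [Algebra W.K ℝ] (Ψ : HodgeStr W)

lemma hr_fam {ι : Sort z} {Q : ι → ClassPred W} (h : ∀ i, Lifts (Q i)) (X : 𝒱.Obj) :
    ∃ D, (interFam (hodgePred Ψ) Q).HR X D := by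
  obtain ⟨D, hD, hL, hpos⟩ := Ψ.sys.polar X
  refine ⟨D, hD, ?_, ?_⟩
  · rintro j hj v ⟨hv1, hv2⟩
    obtain ⟨x, hx, hxv⟩ := Pool.Agent.Y133.Half.hodge_lift hD hL hj (isHodge_iff.1 hv1)
    refine ⟨x, ⟨isHodge_iff.2 hx, fun i => h i X D hD hL j hj x hx.1 ?_⟩, hxv⟩
    rw [hxv]
    exact hv2 i
  · rintro j hj x ⟨hx1, -⟩ h0 hx0
    exact hpos j hj x hx1.1 hx1.2 h0 hx0

/-- The action of the nonzero complex numbers as a Galois action. -/
noncomputable def hodgeGal : GaloisAction W ℝ ℂˣ where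
  χ := (Units.map ((normHom : ℂ →*₀ ℝ) : ℂ →* ℝ)) ^ 2
  act X t := Ψ.h X t
  isAction X :=
    { one := (Ψ.action X).one
      mul := (Ψ.action X).mul
      gr := (Ψ.action X).gr
      cyc := fun j c hc t => by
        have h1 : Ψ.h X t (Pool.Agent.Y133.Hdg.toRC c) =
            (‖(t : ℂ)‖ ^ (2 * j)) • Pool.Agent.Y133.Hdg.toRC c := (Ψ.action X).cyc j c hc t
        have h2 : ((((Units.map ((normHom : ℂ →*₀ ℝ) : ℂ →* ℝ)) ^ 2 : ℂˣ →* ℝˣ) t : ℝˣ) : ℝ) ^ j =
            ‖(t : ℂ)‖ ^ (2 * j) := by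
          rw [pow_mul]
          rfl
        rw [h2]
        exact h1 }
  comm f := Ψ.map f

lemma hodgeGal_χ (t : ℂˣ) (j : ℕ) : (((hodgeGal Ψ).χ t : ℝˣ) : ℝ) ^ j = ‖(t : ℂ)‖ ^ (2 * j) := by
  rw [pow_mul]
  rfl

lemma isTate_hodgeGal {j : ℕ} {c : W.H X} : IsTate (hodgeGal Ψ) X j c ↔ IsHodge Ψ X j c := by
  refine and_congr_right fun _ => ?_
  constructor
  · rintro ⟨Δ, hΔ, h⟩ t
    obtain ⟨s, hs⟩ := exists_root Δ.index (Nat.pos_of_ne_zero Subgroup.index_ne_zero_of_finite) t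
    have h1 : t ∈ Δ := by
      rw [← hs]
      exact Subgroup.pow_index_mem Δ s
    have h2 := h t h1
    rw [hodgeGal_χ] at h2
    exact h2
  · intro h
    refine ⟨⊤, inferInstance, fun t _ => ?_⟩
    rw [hodgeGal_χ]
    exact h t

end Hodge

section Coef

variable {E : Type w} [Field E] [Algebra W.K E] {Γ : Type x} [Group Γ]
  {F : Type v} [Field F] [Algebra W.K F] {L : Type y} [Field L] [Algebra W.K L] [Algebra F L]
  [IsScalarTower W.K F L]

lemma ph_tmul (l : F) (a : W.H X) : ph W F L X (l ⊗ₜ[W.K] a : F ⊗[W.K] W.H X) =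
    algebraMap F L l • ((1 : L) ⊗ₜ[W.K] a) := by
  change phi (IsScalarTower.toAlgHom W.K F L) (W.H X) (l ⊗ₜ[W.K] a) = _
  rw [phi_tmul, TensorProduct.smul_tmul', smul_eq_mul, mul_one]
  rfl

/-- Combinations of rational Tate classes have finite orbits. -/
lemma base_finOrb (hL : HasLefschetz W) (G : GaloisAction W E Γ) (ι : E →ₐ[W.K] L) {j : ℕ}
    {c : (baseW W F).H X} (hc : c ∈ (csub (tatePred hL G) X j).baseChange F) :
    FinOrb (embAct F G ι hL) X j c := by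
  refine base_induction (P := fun c : F ⊗[W.K] W.H X => FinOrb (embAct F G ι hL) X j c)
    FinOrb.zero (fun x y hx hy => FinOrb.add hx hy) ?_ hc
  rintro l a ⟨-, Δ, hΔ, h⟩
  refine (embAct_finOrb_iff G ι hL).2 ⟨Δ, hΔ, fun s hs => ?_⟩
  rw [ph_tmul, map_smul, (eact_rat G ι).2 (h s hs), smul_comm]

variable [Algebra W.K ℂ] [Algebra F ℂ] [IsScalarTower W.K F ℂ]

/-- **Classes with finite orbits are combinations of rational Tate classes.** -/
theorem rational_of_finOrb (hL : HasLefschetz W) (G : GaloisAction W E Γ)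
    (hne : Nonempty (E →ₐ[W.K] ℂ)) {j : ℕ} {c : (baseW W F).H X}
    (hc : c ∈ (baseW W F).gr X (2 * j))
    (h : ∀ ι : E →ₐ[W.K] ℂ, FinOrb (embAct F G ι hL) X j c) :
    c ∈ (csub (tatePred hL G) X j).baseChange F := by
  have h1 : ph W F ℂ X c ∈ potSub G ℂ X j := by
    refine ⟨?_, fun ι => (embAct_finOrb_iff G ι hL).1 (h ι)⟩
    refine base_induction (P := fun c : F ⊗[W.K] W.H X => ph W F ℂ X c ∈
      (W.gr X (2 * j)).baseChange ℂ) ?_ ?_ ?_ hc
    · change phi (IsScalarTower.toAlgHom W.K F ℂ) (W.H X) 0 ∈ _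
      rw [map_zero]; exact Submodule.zero_mem _
    · intro x y hx hy
      change phi (IsScalarTower.toAlgHom W.K F ℂ) (W.H X) (x + y) ∈ _
      rw [map_add]; exact Submodule.add_mem _ hx hy
    · intro l a ha
      rw [ph_tmul]
      exact Submodule.smul_mem _ _ (Submodule.tmul_mem_baseChange_of_mem _ ha)
  exact mem_of_phi_mem (IsScalarTower.toAlgHom W.K F ℂ) (pot_rational hL G hne h1)

end Coef

end Pool.Agent.H60ZO
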