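import Mathlib

/-!
# Embeddings of the `p`-adic numbers into the complex numbers
-/

namespace Pool.Agent.H60ZO

open Cardinal

theorem card_padic_le (p : ℕ) [Fact p.Prime] : #ℚ_[p] ≤ 𝔠 := by
  have h1 : #ℚ_[p] ≤ #(CauSeq ℚ (padicNorm p)) := Cardinal.mk_le_of_surjective
    (f := fun x => (Quotient.mk _ x : ℚ_[p])) (by
      intro x
      exact Quotient.exists_rep x)
  refine h1.trans ((Cardinal.mk_subtype_le _).trans ?_)
  have h2 : #(ℕ → ℚ) = 𝔠 := by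
    rw [Cardinal.mk_arrow]
    simp
  exact h2.le

theorem exists_emb (p : ℕ) [Fact p.Prime] : Nonempty (ℚ_[p] →+* ℂ) := by
  have hge : 𝔠 ≤ #ℚ_[p] := continuum_le_cardinal_of_nontriviallyNormedField ℚ_[p]
  have h1 : #(AlgebraicClosure ℚ_[p]) ≤ 𝔠 := by
    refine (Algebra.IsAlgebraic.cardinalMk_le_max ℚ_[p] (AlgebraicClosure ℚ_[p])).trans ?_
    exact max_le (card_padic_le p) Cardinal.aleph0_le_continuum
  have h2 : 𝔠 ≤ #(AlgebraicClosure ℚ_[p]) :=
    hge.trans (Cardinal.mk_le_of_injective (algebraMap ℚ_[p] (AlgebraicClosure ℚ_[p])).injective)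
  have h3 : #(AlgebraicClosure ℚ_[p]) = #ℂ := by
    rw [le_antisymm h1 h2, Cardinal.mk_complex]
  obtain ⟨e⟩ := IsAlgClosed.ringEquiv_of_equiv_of_charZero (K := AlgebraicClosure ℚ_[p]) (L := ℂ)
    (by rw [le_antisymm h1 h2]; exact Cardinal.aleph0_lt_continuum) (Cardinal.eq.1 h3)
  exact ⟨e.toRingHom.comp (algebraMap ℚ_[p] (AlgebraicClosure ℚ_[p]))⟩

end Pool.Agent.H60ZO
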