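import Pool.Agent.H60ZO.Law3
import Pool.Agent.H60ZO.GDefs2
import Pool.Agent.H60ZO.PEmb

/-!
# The laws for Tate classes with extended coefficients
-/

open CategoryTheory AlgebraicGeometry Filter Topology

open scoped TensorProduct ENNReal

universe u v w x y z

namespace Pool.Agent.H60ZO

open Module
open Pool.Agent.H914 Pool.Agent.H914.VarClass Pool.Agent.H914.VarClass.Obj
  Pool.Agent.H914.WeilCohomology
open Pool.Agent.Y133.Half (ClassPred pw HasIndex dimBy Sys genOver imagesBy algDim AtMostHalf)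
open Pool.Agent.Y133.Hdg (HodgeStr IsHodge hodgePred isHodge_iff)
open Gal

variable {k : Type u} [Field k] {𝒱 : VarClass k} {ops : CycleOps 𝒱}
  {W : WeilCohomology.{u, v} ops} {X Y Z : 𝒱.Obj}

attribute [local instance] baseAlg

section Self

variable {F : Type v} [Field F] [Algebra W.K F] {Γ : Type x} [Group Γ]

lemma ph_self (c : (baseW W F).H X) : ph W F F X c = c := by
  have h : ∀ c : F ⊗[W.K] W.H X, phi (IsScalarTower.toAlgHom W.K F F) (W.H X) c = c := by
    intro c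
    induction c using TensorProduct.induction_on with
    | zero => rw [map_zero]
    | add a b ha hb => rw [map_add, ha, hb]
    | tmul s c => rw [phi_tmul]; rfl
  exact h c

lemma eact_self (G : GaloisAction W F Γ) (s : Γ) (c : F ⊗[W.K] W.H X) :
    eact G (AlgHom.id W.K F) X s c = actHom G X s c := by
  have h : ∀ c : F ⊗[W.K] W.H X, phi (AlgHom.id W.K F) (W.H X) c = c := by
    intro c
    induction c using TensorProduct.induction_on with
    | zero => rw [map_zero]
    | add a b ha hb => rw [map_add, ha, hb]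
    | tmul s c => rw [phi_tmul]; rfl
  have h1 := eact_phi G (AlgHom.id W.K F) s c
  rw [h, h] at h1
  exact h1

lemma inSpan_iff {p : Submodule W.K (W.H X)} {c : EC W.K F (W.H X)} :
    InSpan (p : Set (W.H X)) c ↔ (c : F ⊗[W.K] W.H X) ∈ p.baseChange F := by
  rw [Submodule.baseChange_eq_span]
  rfl

lemma finAll_iff (G : GaloisAction W F Γ) (hL : HasLefschetz W) {j : ℕ} {c : (baseW W F).H X} :
    (finAll (embAct F G (AlgHom.id W.K F) hL)).P X j c ↔ IsTateClass G X j c := by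
  refine and_congr inSpan_iff.symm ?_
  rw [embAct_finOrb_iff, ph_self]
  refine exists_congr fun Δ => and_congr_right fun _ => forall₂_congr fun s _ => ?_
  have key := eact_self G s (X := X) c
  exact ⟨fun h => key.symm.trans h, fun h => key.trans h⟩

lemma fixAll_iff (G : GaloisAction W F Γ) (hL : HasLefschetz W) {j : ℕ} {c : (baseW W F).H X} :
    (fixAll (embAct F G (AlgHom.id W.K F) hL)).P X j c ↔ IsInvariant G X j c := by
  refine and_congr inSpan_iff.symm (forall_congr' fun s => ?_)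
  have hu : (G.χ s : F) ^ j ≠ 0 := pow_ne_zero _ (G.χ s).ne_zero
  rw [embAct_tw, LinearEquiv.symm_apply_eq, kp_one, ph_self]
  have key := eact_self G s (X := X) c
  have h1 : ∀ a b : F ⊗[W.K] W.H X, ((G.χ s : F) ^ j)⁻¹ • a = b ↔ a = ((G.χ s : F) ^ j) • b :=
    fun a b => inv_smul_eq_iff₀ hu
  refine Iff.trans (h1 _ c) ?_
  exact ⟨fun h => key.symm.trans h, fun h => key.trans h⟩

lemma fixAll_iff' {E : Type w} [Field E] [Algebra W.K E] (G : GaloisAction W E Γ)
    (hL : HasLefschetz W) {j : ℕ} {c : W.H X} :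
    (fixAll (galAct G hL)).P X j c ↔ IsInvariant G X j (toEC (K := W.K) c) := by
  have h0 : c ∈ W.gr X (2 * j) ↔ InSpan (K := W.K) (E := E) (W.gr X (2 * j) : Set (W.H X))
      (toEC c) := by
    have h1 : InSpan (K := W.K) (E := E) (W.gr X (2 * j) : Set (W.H X)) (toEC c) ↔
        ((1 : E) ⊗ₜ[W.K] c) ∈ (W.gr X (2 * j)).baseChange E := by
      rw [Submodule.baseChange_eq_span]
      rfl
    rw [h1, one_tmul_mem_iff]
  refine and_congr h0 (forall_congr' fun s => ?_)
  exact galAct_fix G hL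

lemma dimBy_eq_dimE (Q : ClassPred (baseW W F)) {P : ℕ → EC W.K F (W.H Z) → Prop}
    (h : ∀ j c, Q.P Z j c ↔ P j c) : dimBy (baseW W F) Q.P Z = dimE {c | ∃ j, P j c} := by
  have h1 : {c | ∃ j, Q.P Z j c} = {c : EC W.K F (W.H Z) | ∃ j, P j c} := by
    ext c
    exact exists_congr fun j => h j c
  have h2 : dimBy (baseW W F) Q.P Z =
    dimE (K := W.K) (E := F) (A := W.H Z) {c | ∃ j, Q.P Z j c} := rfl
  exact h2.trans (congrArg (fun S => dimE (K := W.K) (E := F) (A := W.H Z) S) h1)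

end Self

variable [Algebra W.K ℝ]

/-- The properties given by a family of actions. -/
noncomputable def optPred (Q₀ : ClassPred W) {I : Type z} (Q : I → ClassPred W) :
    Option I → ClassPred W := fun o => o.elim Q₀ Q

/-- The law for the Tate classes. -/
theorem pot_law {F : Type v} [Field F] [Algebra W.K F] (Ψ : HodgeStr W) {Γ₀ : Type} [Group Γ₀]
    (G₀ : GaloisAction W F Γ₀) {I : Type z} {E : I → Type w} [∀ i, Field (E i)]
    [∀ i, Algebra W.K (E i)] {Γ : I → Type} [∀ i, Group (Γ i)]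
    (G : ∀ i, GaloisAction W (E i) (Γ i)) [Algebra W.K ℂ] [Algebra F ℂ] [IsScalarTower W.K F ℂ]
    (hR : Nonempty (ℝ →ₐ[W.K] ℂ)) (hne : ∀ i, Nonempty (E i →ₐ[W.K] ℂ)) (X : 𝒱.Obj)
    [Nontrivial (W.H X)] :
    (∀ n j x, IsTateClass G₀ (pw X n) j x →
      InSpan {c | IsHodge Ψ (pw X n) j c ∧ IsTate G₀ (pw X n) j c ∧
        ∀ i, IsTate (G i) (pw X n) j c} x) ↔
    ¬ Tendsto (fun n => (dimBy W (fun Z j c => IsHodge Ψ Z j c ∧ IsTate G₀ Z j c ∧
        ∀ i, IsTate (G i) Z j c) (pw X n) : ℝ) / dimE {x | ∃ j, IsTateClass G₀ (pw X n) j x})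
          atTop (𝓝 0) := by
  have hL := hasLefschetz Ψ
  let Q : Option I → ClassPred W := optPred (tatePred hL G₀) fun i => tatePred hL (G i)
  have hQ : ∀ o, Lifts (Q o) := by
    rintro (_ | i)
    · exact tatePred_lifts hL G₀
    · exact tatePred_lifts hL (G i)
  let S : ClassPred W := interFam (hodgePred Ψ) Q
  have hS : ∀ {Z : 𝒱.Obj} {j : ℕ} {c : W.H Z}, S.P Z j c ↔
      (IsHodge Ψ Z j c ∧ IsTate G₀ Z j c ∧ ∀ i, IsTate (G i) Z j c) := by
    intro Z j c
    refine and_congr_right fun _ => ?_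
    constructor
    · intro h
      exact ⟨h none, fun i => h (some i)⟩
    · rintro ⟨h1, h2⟩ (_ | i)
      · exact h1
      · exact h2 i
  have hle : ∀ (o : Option I) (Z : 𝒱.Obj) (j : ℕ), csub S Z j ≤ csub (Q o) Z j :=
    fun o Z j c hc => hc.2 o
  let R : ClassPred (baseW W F) := finAll (embAct F G₀ (AlgHom.id W.K F) hL)
  have hQR : ∀ {Z : 𝒱.Obj} {j : ℕ} {c : (baseW W F).H Z}, (basePred F S).P Z j c → R.P Z j c := by
    intro Z j c hc
    exact ⟨(basePred F S).gr hc, base_finOrb hL G₀ _ (Submodule.baseChange_mono F (hle none Z j) hc)⟩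
  have hnt : Nontrivial ((baseW W F).H X) := Pool.Agent.Y129.nontrivial_base F
  obtain ⟨N, h1, h2, h3, h4⟩ := index_fin (basePred F S) R hQR X (fun n => by
    obtain ⟨D, hD⟩ := hr_fam Ψ hQ (pw X n)
    exact basePred_nondeg F hD.nondeg)
  have e1 : ∀ n, dimBy (baseW W F) (basePred F S).P (pw X n) =
      dimBy W (fun Z j c => IsHodge Ψ Z j c ∧ IsTate G₀ Z j c ∧
        ∀ i, IsTate (G i) Z j c) (pw X n) := fun n => by
    rw [dimBy_base]
    exact dimBy_congr fun j c => hS
  have e2 : ∀ n, dimBy (baseW W F) R.P (pw X n) =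
      dimE {x | ∃ j, IsTateClass G₀ (pw X n) j x} :=
    fun n => dimBy_eq_dimE R fun j c => finAll_iff G₀ hL
  have e3 : ∀ n j, (csub S (pw X n) j : Set (W.H (pw X n))) = {c | IsHodge Ψ (pw X n) j c ∧
      IsTate G₀ (pw X n) j c ∧ ∀ i, IsTate (G i) (pw X n) j c} := fun n j => Set.ext fun c => hS
  constructor
  · intro hA
    refine not_tendsto_of_eq (fun n => ?_) fun n => ?_
    · rw [← e1, ← e2]
      refine dimBy_congr fun j c => ⟨hQR, fun hc => ?_⟩
      have h5 := hA n j c ((finAll_iff G₀ hL).1 hc)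
      rw [← e3] at h5
      exact inSpan_iff.1 h5
    · rw [← e2]
      exact dimBy_pos R X n
  · intro h5 n j x hx
    have hN : N ≠ ⊤ := by
      intro hN
      rw [hN] at h2
      have h6 := tendsto_zero_of_index h2
      simp only [e1, e2] at h6
      exact h5 h6
    have hRx : R.P (pw X n) j x := (finAll_iff G₀ hL).2 hx
    have k0 : ∀ o, x ∈ (csub (Q o) (pw X n) j).baseChange F := by
      rintro (_ | i)
      · exact rational_of_finOrb hL G₀ ⟨IsScalarTower.toAlgHom W.K F ℂ⟩ hRx.1 fun ι =>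
          h4 hN (embAct F G₀ ι hL) (fun {Z j c} hc =>
            base_finOrb hL G₀ ι (Submodule.baseChange_mono F (hle none Z j) hc)) n j x hRx
      · exact rational_of_finOrb hL (G i) (hne i) hRx.1 fun ι =>
          h4 hN (embAct F (G i) ι hL) (fun {Z j c} hc =>
            base_finOrb hL (G i) ι (Submodule.baseChange_mono F (hle (some i) Z j) hc)) n j x hRx
    have hH : ∀ (Z : 𝒱.Obj) (j : ℕ), csub (tatePred hL (hodgeGal Ψ)) Z j =
        csub (hodgePred Ψ) Z j := fun Z j => Submodule.ext fun c => isTate_hodgeGal Ψ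
    have k1 : x ∈ (csub (hodgePred Ψ) (pw X n) j).baseChange F := by
      rw [← hH]
      exact rational_of_finOrb hL (hodgeGal Ψ) hR hRx.1 fun ι =>
        h4 hN (embAct F (hodgeGal Ψ) ι hL) (fun {Z j c} hc => by
          refine base_finOrb hL (hodgeGal Ψ) ι ?_
          rw [hH]
          have h6 : csub S Z j ≤ csub (hodgePred Ψ) Z j := fun c hc => hc.1
          exact Submodule.baseChange_mono F h6 hc) n j x hRx
    have k2 : x ∈ (csub S (pw X n) j).baseChange F := csub_interFam k1 k0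
    have k4 := inSpan_iff.2 k2
    rw [e3] at k4
    exact k4

omit [Algebra W.K ℝ] in
lemma alg_le (Q : ClassPred W) (Z : 𝒱.Obj) : algDim W Z ≤ dimBy W Q.P Z := by
  apply Submodule.finrank_mono
  apply Submodule.span_mono
  rintro c ⟨j, z, hz, rfl⟩
  exact ⟨j, Q.cl hz⟩

/-- The law for the invariant classes. -/
theorem inv_law {F : Type v} [Field F] [Algebra W.K F] (Ψ : HodgeStr W) {Γ₀ : Type} [Group Γ₀]
    (G₀ : GaloisAction W F Γ₀) {I : Type z} {E : I → Type w} [∀ i, Field (E i)]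
    [∀ i, Algebra W.K (E i)] {Γ : I → Type} [∀ i, Group (Γ i)]
    (G : ∀ i, GaloisAction W (E i) (Γ i)) [Algebra W.K ℂ] [Algebra F ℂ] [IsScalarTower W.K F ℂ]
    (hR : Nonempty (ℝ →ₐ[W.K] ℂ)) (hne : ∀ i, Nonempty (E i →ₐ[W.K] ℂ)) (X : 𝒱.Obj)
    [Nontrivial (W.H X)] : ∃ N : ℕ∞, 1 ≤ N ∧
    HasIndex (fun n => dimE {x | ∃ j, IsInvariant G₀ (pw X n) j x})
      (fun n => dimBy W (fun Z j c => IsHodge Ψ Z j c ∧ IsInvariant G₀ Z j (toEC c) ∧
        ∀ i, IsInvariant (G i) Z j (toEC c)) (pw X n)) N ∧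
    (∀ n, algDim W (pw X n) ≤ dimBy W (fun Z j c => IsHodge Ψ Z j c ∧
      IsInvariant G₀ Z j (toEC c) ∧ ∀ i, IsInvariant (G i) Z j (toEC c)) (pw X n)) ∧
    (N = 1 ↔ ∀ n j x, IsInvariant G₀ (pw X n) j x →
      InSpan {c | IsHodge Ψ (pw X n) j c ∧ IsInvariant G₀ (pw X n) j (toEC c) ∧
        ∀ i, IsInvariant (G i) (pw X n) j (toEC c)} x) ∧
    (N ≠ ⊤ → ∀ n j x, IsInvariant G₀ (pw X n) j x →
      InSpan {c | IsHodge Ψ (pw X n) j c ∧ IsTate G₀ (pw X n) j c ∧
        ∀ i, IsTate (G i) (pw X n) j c} x) := by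
  have hL := hasLefschetz Ψ
  let Q : Option I → ClassPred W := optPred (tatePred hL G₀) fun i => tatePred hL (G i)
  let Q' : Option I → ClassPred W := optPred (fixAll (galAct G₀ hL)) fun i => fixAll (galAct (G i) hL)
  have hQ' : ∀ o, Lifts (Q' o) := by
    rintro (_ | i)
    · exact fixAll_lifts
    · exact fixAll_lifts
  let S : ClassPred W := interFam (hodgePred Ψ) Q
  have hS : ∀ {Z : 𝒱.Obj} {j : ℕ} {c : W.H Z}, S.P Z j c ↔
      (IsHodge Ψ Z j c ∧ IsTate G₀ Z j c ∧ ∀ i, IsTate (G i) Z j c) := by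
    intro Z j c
    refine and_congr_right fun _ => ?_
    constructor
    · intro h
      exact ⟨h none, fun i => h (some i)⟩
    · rintro ⟨h1, h2⟩ (_ | i)
      · exact h1
      · exact h2 i
  let S' : ClassPred W := interFam (hodgePred Ψ) Q'
  have hS' : ∀ {Z : 𝒱.Obj} {j : ℕ} {c : W.H Z}, S'.P Z j c ↔
      (IsHodge Ψ Z j c ∧ IsInvariant G₀ Z j (toEC c) ∧
        ∀ i, IsInvariant (G i) Z j (toEC c)) := by
    intro Z j c
    refine and_congr_right fun _ => ?_
    constructor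
    · intro h
      exact ⟨(fixAll_iff' G₀ hL).1 (h none), fun i => (fixAll_iff' (G i) hL).1 (h (some i))⟩
    · rintro ⟨h1, h2⟩ (_ | i)
      · exact (fixAll_iff' G₀ hL).2 h1
      · exact (fixAll_iff' (G i) hL).2 (h2 i)
  have hSS : ∀ (Z : 𝒱.Obj) (j : ℕ), csub S' Z j ≤ csub S Z j := by
    rintro Z j c ⟨h1, h2⟩
    refine ⟨h1, ?_⟩
    rintro (_ | i)
    · exact (isTate_iff G₀ hL (h2 none).1).2 (h2 none).2.finOrb
    · exact (isTate_iff (G i) hL (h2 (some i)).1).2 (h2 (some i)).2.finOrb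
  have hle : ∀ (o : Option I) (Z : 𝒱.Obj) (j : ℕ), csub S' Z j ≤ csub (Q o) Z j :=
    fun o Z j c hc => (hSS Z j hc).2 o
  let R : ClassPred (baseW W F) := fixAll (embAct F G₀ (AlgHom.id W.K F) hL)
  have hQR : ∀ {Z : 𝒱.Obj} {j : ℕ} {c : (baseW W F).H Z}, (basePred F S').P Z j c →
      R.P Z j c := by
    intro Z j c hc
    refine (fixAll_iff G₀ hL).2 ⟨inSpan_iff.2 ((basePred F S').gr hc), fun s => ?_⟩
    refine base_induction (P := fun c : F ⊗[W.K] W.H Z =>
      actHom G₀ Z s c = ((G₀.χ s : F) ^ j) • c) ?_ ?_ ?_ hc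
    · rw [map_zero, smul_zero]
    · intro x y hx hy
      rw [map_add, hx, hy, smul_add]
    · intro l a ha
      have h1 : l ⊗ₜ[W.K] a = l • ((1 : F) ⊗ₜ[W.K] a) := by
        rw [TensorProduct.smul_tmul', smul_eq_mul, mul_one]
      have h2 : actHom G₀ Z s ((1 : F) ⊗ₜ[W.K] a) = ((G₀.χ s : F) ^ j) • ((1 : F) ⊗ₜ[W.K] a) :=
        (galAct_fix G₀ hL).1 ((ha.2 none).2 s)
      rw [h1, map_smul, h2, smul_comm]
  have hnt : Nontrivial ((baseW W F).H X) := Pool.Agent.Y129.nontrivial_base F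
  obtain ⟨N, h1, h2, h3, h4⟩ := index_fin (basePred F S') R hQR X (fun n => by
    obtain ⟨D, hD⟩ := hr_fam Ψ hQ' (pw X n)
    exact basePred_nondeg F hD.nondeg)
  have e1 : ∀ n, dimBy (baseW W F) (basePred F S').P (pw X n) =
      dimBy W (fun Z j c => IsHodge Ψ Z j c ∧ IsInvariant G₀ Z j (toEC c) ∧
        ∀ i, IsInvariant (G i) Z j (toEC c)) (pw X n) := fun n => by
    rw [dimBy_base]
    exact dimBy_congr fun j c => hS'
  have e2 : ∀ n, dimBy (baseW W F) R.P (pw X n) =
      dimE {x | ∃ j, IsInvariant G₀ (pw X n) j x} :=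
    fun n => dimBy_eq_dimE R fun j c => fixAll_iff G₀ hL
  refine ⟨N, h1, ?_, ?_, ?_, ?_⟩
  · simp only [e1, e2] at h2
    exact h2
  · intro n
    rw [← e1, dimBy_base]
    exact alg_le S' _
  · rw [h3]
    refine forall_congr' fun n => forall_congr' fun j => forall_congr' fun x => ?_
    have k3 : (csub S' (pw X n) j : Set (W.H (pw X n))) = {c | IsHodge Ψ (pw X n) j c ∧
        IsInvariant G₀ (pw X n) j (toEC c) ∧ ∀ i, IsInvariant (G i) (pw X n) j (toEC c)} :=
      Set.ext fun c => hS'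
    refine imp_congr (fixAll_iff G₀ hL) ?_
    rw [← k3]
    exact inSpan_iff.symm
  · intro hN n j x hx
    have hRx : R.P (pw X n) j x := (fixAll_iff G₀ hL).2 hx
    have k0 : ∀ o, x ∈ (csub (Q o) (pw X n) j).baseChange F := by
      rintro (_ | i)
      · exact rational_of_finOrb hL G₀ ⟨IsScalarTower.toAlgHom W.K F ℂ⟩ hRx.1 fun ι =>
          h4 hN (embAct F G₀ ι hL) (fun {Z j c} hc =>
            base_finOrb hL G₀ ι (Submodule.baseChange_mono F (hle none Z j) hc)) n j x hRx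
      · exact rational_of_finOrb hL (G i) (hne i) hRx.1 fun ι =>
          h4 hN (embAct F (G i) ι hL) (fun {Z j c} hc =>
            base_finOrb hL (G i) ι (Submodule.baseChange_mono F (hle (some i) Z j) hc)) n j x hRx
    have hH : ∀ (Z : 𝒱.Obj) (j : ℕ), csub (tatePred hL (hodgeGal Ψ)) Z j =
        csub (hodgePred Ψ) Z j := fun Z j => Submodule.ext fun c => isTate_hodgeGal Ψ
    have k1 : x ∈ (csub (hodgePred Ψ) (pw X n) j).baseChange F := by
      rw [← hH]
      exact rational_of_finOrb hL (hodgeGal Ψ) hR hRx.1 fun ι =>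
        h4 hN (embAct F (hodgeGal Ψ) ι hL) (fun {Z j c} hc => by
          refine base_finOrb hL (hodgeGal Ψ) ι ?_
          rw [hH]
          have h6 : csub S' Z j ≤ csub (hodgePred Ψ) Z j := fun c hc => hc.1
          exact Submodule.baseChange_mono F h6 hc) n j x hRx
    have k2 : x ∈ (csub S (pw X n) j).baseChange F := csub_interFam k1 k0
    have k3 : (csub S (pw X n) j : Set (W.H (pw X n))) = {c | IsHodge Ψ (pw X n) j c ∧
        IsTate G₀ (pw X n) j c ∧ ∀ i, IsTate (G i) (pw X n) j c} := Set.ext fun c => hS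
    have k4 := inSpan_iff.2 k2
    rw [k3] at k4
    exact k4

end Pool.Agent.H60ZO
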