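import Pool.Agent.H60ZO.Law4

/-!
# The laws for the `p`-adic cohomology theories
-/

open CategoryTheory AlgebraicGeometry Filter Topology

open scoped TensorProduct ENNReal

universe u v w x y z

namespace Pool.Agent.H60ZO

open Module
open Pool.Agent.H914 Pool.Agent.H914.VarClass Pool.Agent.H914.VarClass.Obj
  Pool.Agent.H914.WeilCohomology
open Pool.Agent.Y133.Half (ClassPred pw HasIndex dimBy algDim AtMostHalf atMostHalf_of_index)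
open Pool.Agent.Y133.Hdg (HodgeStr IsHodge hodgePred isHodge_iff)
open Gal

attribute [local instance] baseAlg

lemma hom_unique {K L : Type*} [Field K] [Field L] [CharZero K] (hK : ∀ a : K, ∃ q : ℚ, (q : K) = a)
    (f g : K →+* L) (a : K) : f a = g a := by
  obtain ⟨q, rfl⟩ := hK a
  rw [map_ratCast, map_ratCast]

variable {k : Type u} [Field k] {𝒱 : VarClass k} {ops : CycleOps 𝒱}
  {W : WeilCohomology.{u, 0} ops} [Algebra W.K ℝ] {X Y Z : 𝒱.Obj}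

lemma setup (hK : ∀ a : W.K, ∃ q : ℚ, (q : W.K) = a) (ℓ : ℕ) [Fact ℓ.Prime]
    [Algebra W.K ℚ_[ℓ]] {P : Prop}
    (h : ∀ [Algebra W.K ℂ] [Algebra ℚ_[ℓ] ℂ] [IsScalarTower W.K ℚ_[ℓ] ℂ],
      Nonempty (ℝ →ₐ[W.K] ℂ) → (∀ (p : ℕ) [Fact p.Prime] [Algebra W.K ℚ_[p]],
        Nonempty (ℚ_[p] →ₐ[W.K] ℂ)) → P) : P := by
  let i1 : Algebra W.K ℂ := (Complex.ofRealHom.comp (algebraMap W.K ℝ)).toAlgebra
  let i2 : Algebra ℚ_[ℓ] ℂ := (exists_emb ℓ).some.toAlgebra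
  have i3 : IsScalarTower W.K ℚ_[ℓ] ℂ := IsScalarTower.of_algebraMap_eq fun a =>
    hom_unique hK (algebraMap W.K ℂ) ((algebraMap ℚ_[ℓ] ℂ).comp (algebraMap W.K ℚ_[ℓ])) a
  refine h ⟨{ Complex.ofRealHom with commutes' := fun a => rfl }⟩ fun p _ _ => ?_
  obtain ⟨ι⟩ := exists_emb p
  have h1 : ∀ a, ι (algebraMap W.K ℚ_[p] a) = algebraMap W.K ℂ a := fun a =>
    hom_unique hK (ι.comp (algebraMap W.K ℚ_[p])) (algebraMap W.K ℂ) a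
  exact ⟨{ ι with commutes' := h1 }⟩

/-- The law for Tate classes and Hodge classes. -/
theorem law6 (hK : ∀ a : W.K, ∃ q : ℚ, (q : W.K) = a) (Ψ : HodgeStr W) (ℓ : ℕ) [Fact ℓ.Prime]
    [Algebra W.K ℚ_[ℓ]] {Γ : Type} [Group Γ] (G : GaloisAction W ℚ_[ℓ] Γ) (X : 𝒱.Obj)
    [Nontrivial (W.H X)] :
    (∀ n j x, IsTateClass G (pw X n) j x →
      InSpan {c | IsHodge Ψ (pw X n) j c ∧ IsTate G (pw X n) j c} x) ↔
    ¬ Tendsto (fun n => (dimBy W (fun Z j c => IsHodge Ψ Z j c ∧ IsTate G Z j c) (pw X n) : ℝ) /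
      dimE {x | ∃ j, IsTateClass G (pw X n) j x}) atTop (𝓝 0) := by
  refine setup hK ℓ ?_
  intro _ _ _ hR hp
  have h := pot_law (E := fun _ : Empty => ℝ) (Γ := fun _ : Empty => ℂˣ) Ψ G
    (fun i : Empty => i.elim) hR (fun i => i.elim) X
  have e : ∀ {Z : 𝒱.Obj} {j : ℕ} {c : W.H Z}, (IsHodge Ψ Z j c ∧ IsTate G Z j c ∧
      ∀ i : Empty, IsTate (i.elim : GaloisAction W ℝ ℂˣ) Z j c) ↔
        (IsHodge Ψ Z j c ∧ IsTate G Z j c) := by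
    intro Z j c
    exact ⟨fun h => ⟨h.1, h.2.1⟩, fun h => ⟨h.1, h.2, fun i => i.elim⟩⟩
  simp only [e] at h
  exact h

variable [∀ (p : ℕ) [Fact p.Prime], Algebra W.K ℚ_[p]] {Γ : Type} [Group Γ]

lemma factPrime (p : {p : ℕ // p.Prime}) : Fact (p : ℕ).Prime := ⟨p.2⟩

attribute [local instance] factPrime

/-- The law for the Tate classes, for all primes. -/
theorem law7 (hK : ∀ a : W.K, ∃ q : ℚ, (q : W.K) = a) (Ψ : HodgeStr W)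
    (G : ∀ (p : ℕ) [Fact p.Prime], GaloisAction W ℚ_[p] Γ) (ℓ : ℕ) [Fact ℓ.Prime] (X : 𝒱.Obj)
    [Nontrivial (W.H X)] :
    (∀ n j x, IsTateClass (G ℓ) (pw X n) j x →
      InSpan {c | IsHodge Ψ (pw X n) j c ∧ ∀ (p : ℕ) [Fact p.Prime], IsTate (G p) (pw X n) j c} x) ↔
    ¬ Tendsto (fun n => (dimBy W (fun Z j c => IsHodge Ψ Z j c ∧
      ∀ (p : ℕ) [Fact p.Prime], IsTate (G p) Z j c) (pw X n) : ℝ) /
        dimE {x | ∃ j, IsTateClass (G ℓ) (pw X n) j x}) atTop (𝓝 0) := by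
  refine setup hK ℓ ?_
  intro _ _ _ hR hp
  have h := pot_law Ψ (G ℓ) (fun p : {p : ℕ // p.Prime} => G p.1) hR (fun p => hp p.1) X
  have e : ∀ {Z : 𝒱.Obj} {j : ℕ} {c : W.H Z}, (IsHodge Ψ Z j c ∧ IsTate (G ℓ) Z j c ∧
      ∀ p : {p : ℕ // p.Prime}, IsTate (G p.1) Z j c) ↔
        (IsHodge Ψ Z j c ∧ ∀ (p : ℕ) [Fact p.Prime], IsTate (G p) Z j c) := by
    intro Z j c
    exact ⟨fun h => ⟨h.1, fun p hp => h.2.2 ⟨p, hp.out⟩⟩,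
      fun h => ⟨h.1, h.2 ℓ, fun p => h.2 p.1⟩⟩
  simp only [e] at h
  exact h

/-- The law for the invariants, for all primes. -/
theorem law8 (hK : ∀ a : W.K, ∃ q : ℚ, (q : W.K) = a) (Ψ : HodgeStr W)
    (G : ∀ (p : ℕ) [Fact p.Prime], GaloisAction W ℚ_[p] Γ) (ℓ : ℕ) [Fact ℓ.Prime] (X : 𝒱.Obj)
    [Nontrivial (W.H X)] : ∃ N : ℕ∞, 1 ≤ N ∧
    HasIndex (fun n => dimE {x | ∃ j, IsInvariant (G ℓ) (pw X n) j x})
      (fun n => dimBy W (fun Z j c => IsHodge Ψ Z j c ∧ ∀ (p : ℕ) [Fact p.Prime],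
        IsInvariant (G p) Z j (toEC c)) (pw X n)) N ∧
    (∀ n, algDim W (pw X n) ≤ dimBy W (fun Z j c => IsHodge Ψ Z j c ∧ ∀ (p : ℕ) [Fact p.Prime],
      IsInvariant (G p) Z j (toEC c)) (pw X n)) ∧
    (N = 1 ↔ ∀ n j x, IsInvariant (G ℓ) (pw X n) j x →
      InSpan {c | IsHodge Ψ (pw X n) j c ∧ ∀ (p : ℕ) [Fact p.Prime],
        IsInvariant (G p) (pw X n) j (toEC c)} x) ∧
    (N ≠ ⊤ → ∀ n j x, IsInvariant (G ℓ) (pw X n) j x →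
      InSpan {c | IsHodge Ψ (pw X n) j c ∧ ∀ (p : ℕ) [Fact p.Prime],
        IsTate (G p) (pw X n) j c} x) := by
  refine setup hK ℓ ?_
  intro _ _ _ hR hp
  have h := inv_law Ψ (G ℓ) (fun p : {p : ℕ // p.Prime} => G p.1) hR (fun p => hp p.1) X
  have e : ∀ {Z : 𝒱.Obj} {j : ℕ} {c : W.H Z}, (IsHodge Ψ Z j c ∧ IsTate (G ℓ) Z j c ∧
      ∀ p : {p : ℕ // p.Prime}, IsTate (G p.1) Z j c) ↔
        (IsHodge Ψ Z j c ∧ ∀ (p : ℕ) [Fact p.Prime], IsTate (G p) Z j c) := by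
    intro Z j c
    exact ⟨fun h => ⟨h.1, fun p hp => h.2.2 ⟨p, hp.out⟩⟩,
      fun h => ⟨h.1, h.2 ℓ, fun p => h.2 p.1⟩⟩
  have e' : ∀ {Z : 𝒱.Obj} {j : ℕ} {c : W.H Z}, (IsHodge Ψ Z j c ∧
      IsInvariant (G ℓ) Z j (toEC c) ∧ ∀ p : {p : ℕ // p.Prime},
        IsInvariant (G p.1) Z j (toEC c)) ↔
        (IsHodge Ψ Z j c ∧ ∀ (p : ℕ) [Fact p.Prime], IsInvariant (G p) Z j (toEC c)) := by
    intro Z j c
    exact ⟨fun h => ⟨h.1, fun p hp => h.2.2 ⟨p, hp.out⟩⟩,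
      fun h => ⟨h.1, h.2 ℓ, fun p => h.2 p.1⟩⟩
  simp only [e, e'] at h
  exact h

end Pool.Agent.H60ZO
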