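import Pool.Agent.H60ZO.Law5

/-!
# The Mumford-Tate conjecture and the Tate conjecture: the final forms
-/

open CategoryTheory AlgebraicGeometry Filter Topology

open scoped TensorProduct ENNReal

universe u v w x y z

namespace Pool.Agent.H60ZO

open Module
open Pool.Agent.H914 Pool.Agent.H914.VarClass Pool.Agent.H914.VarClass.Obj
  Pool.Agent.H914.WeilCohomology
open Pool.Agent.Y133.Half (ClassPred pw HasIndex dimBy algDim AtMostHalf atMostHalf_of_index)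
open Pool.Agent.Y133.Hdg (HodgeStr IsHodge hodgePred isHodge_iff)
open Gal

variable {k : Type u} [Field k] {𝒱 : VarClass k} {ops : CycleOps 𝒱}
  {W : WeilCohomology.{u, 0} ops} [Algebra W.K ℝ] {X Y Z : 𝒱.Obj}

attribute [local instance] baseAlg

/-- The law for the Mumford-Tate conjecture. -/
theorem mt_law (hK : ∀ a : W.K, ∃ q : ℚ, (q : W.K) = a) (Ψ : HodgeStr W) (ℓ : ℕ) [Fact ℓ.Prime]
    [Algebra W.K ℚ_[ℓ]] {Γ : Type} [Group Γ] (G : GaloisAction W ℚ_[ℓ] Γ) (X : 𝒱.Obj)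
    [Nontrivial (W.H X)] :
    ((∀ n j x, IsTateClass G (pw X n) j x →
      InSpan {c | IsHodge Ψ (pw X n) j c ∧ IsTate G (pw X n) j c} x) ↔
      ¬ Tendsto (fun n => (dimBy W (fun Z j c => IsHodge Ψ Z j c ∧ IsTate G Z j c) (pw X n) : ℝ) /
        dimE {x | ∃ j, IsTateClass G (pw X n) j x}) atTop (𝓝 0)) ∧
    ((∀ n j x, IsTateClass G (pw X n) j x ↔ InSpan {c | IsHodge Ψ (pw X n) j c} x) ↔
      ¬ Tendsto (fun n => (dimBy W (fun Z j c => IsHodge Ψ Z j c ∧ IsTate G Z j c) (pw X n) : ℝ) /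
        dimBy W (IsHodge Ψ) (pw X n)) atTop (𝓝 0) ∧
      ¬ Tendsto (fun n => (dimBy W (fun Z j c => IsHodge Ψ Z j c ∧ IsTate G Z j c) (pw X n) : ℝ) /
        dimE {x | ∃ j, IsTateClass G (pw X n) j x}) atTop (𝓝 0)) := by
  have hL := hasLefschetz Ψ
  have k1 := law6 hK Ψ ℓ G X
  have k2 := law_tate Ψ G X
  refine ⟨k1, ?_⟩
  rw [← k1, ← k2]
  constructor
  · intro h
    have h1 : ∀ n j c, IsHodge Ψ (pw X n) j c → IsTate G (pw X n) j c := fun n j c hc =>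
      ⟨hc.1, ((h n j (toEC c)).2 (Submodule.subset_span ⟨c, hc, rfl⟩)).2⟩
    refine ⟨h1, fun n j x hx => ?_⟩
    have h2 := (h n j x).1 hx
    have h3 : {c | IsHodge Ψ (pw X n) j c} =
        {c | IsHodge Ψ (pw X n) j c ∧ IsTate G (pw X n) j c} :=
      Set.ext fun c => ⟨fun hc => ⟨hc, h1 n j c hc⟩, fun hc => hc.1⟩
    rwa [h3] at h2
  · rintro ⟨h1, h2⟩ n j x
    constructor
    · intro hx
      refine Submodule.span_mono ?_ (h2 n j x hx)
      rintro _ ⟨c, hc, rfl⟩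
      exact ⟨c, hc.1, rfl⟩
    · intro hx
      refine (finAll_iff G hL).1 ?_
      have h3 : x ∈ (csub (hodgePred Ψ) (pw X n) j).baseChange ℚ_[ℓ] := inSpan_iff.1 hx
      refine base_induction (P := fun x : ℚ_[ℓ] ⊗[W.K] W.H (pw X n) =>
        (finAll (embAct ℚ_[ℓ] G (AlgHom.id W.K ℚ_[ℓ]) hL)).P (pw X n) j x) ?_ ?_ ?_ h3
      · exact (finAll _).zero
      · intro a b ha hb
        exact (finAll _).add ha hb
      · intro l a ha
        have h4 : a ∈ csub (tatePred hL G) (pw X n) j := h1 n j a ha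
        refine ⟨?_, base_finOrb hL G _ (Submodule.tmul_mem_baseChange_of_mem l h4)⟩
        exact Submodule.tmul_mem_baseChange_of_mem l h4.1

/-- Motivated classes and the law. -/
lemma mot_both (Ψ : HodgeStr W) {E : Type w} [Field E] [Algebra W.K E] {Γ : Type} [Group Γ]
    (G : GaloisAction W E Γ) (Z : 𝒱.Obj) : dimBy W (Pool.Agent.R920.MT.IsMotivated W) Z ≤
      dimBy W (fun Z j c => IsHodge Ψ Z j c ∧ IsTate G Z j c) Z := by
  apply Submodule.finrank_mono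
  apply Submodule.span_mono
  rintro c ⟨j, hc⟩
  exact ⟨j, mot_hodge Ψ hc, mot_tate Ψ G hc⟩

lemma atMostHalf_mono {a b t : ℕ → ℕ} (h : ∀ n, a n ≤ b n) (hb : AtMostHalf b t) :
    AtMostHalf a t := by
  intro ε hε
  obtain ⟨n₀, hn⟩ := hb ε hε
  refine ⟨n₀, fun n hn' => le_trans ?_ (hn n hn')⟩
  exact_mod_cast h n

variable [∀ (p : ℕ) [Fact p.Prime], Algebra W.K ℚ_[p]] {Γ : Type} [Group Γ]

/-- The law for the invariants, final form. -/
theorem inv_final (hK : ∀ a : W.K, ∃ q : ℚ, (q : W.K) = a) (Ψ : HodgeStr W)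
    (G : ∀ (p : ℕ) [Fact p.Prime], GaloisAction W ℚ_[p] Γ) (ℓ : ℕ) [Fact ℓ.Prime] (X : 𝒱.Obj)
    [Nontrivial (W.H X)] :
    (∃ N : ℕ∞, 1 ≤ N ∧
      HasIndex (fun n => dimE {x | ∃ j, IsInvariant (G ℓ) (pw X n) j x})
        (fun n => dimBy W (fun Z j c => IsHodge Ψ Z j c ∧ ∀ (p : ℕ) [Fact p.Prime],
          IsInvariant (G p) Z j (toEC c)) (pw X n)) N ∧
      (N = 1 ↔ ∀ n j x, IsInvariant (G ℓ) (pw X n) j x →
        InSpan {c | IsHodge Ψ (pw X n) j c ∧ ∀ (p : ℕ) [Fact p.Prime],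
          IsInvariant (G p) (pw X n) j (toEC c)} x) ∧
      (N ≠ ⊤ → ∀ n j x, IsInvariant (G ℓ) (pw X n) j x →
        InSpan {c | IsHodge Ψ (pw X n) j c ∧ ∀ (p : ℕ) [Fact p.Prime],
          IsTate (G p) (pw X n) j c} x)) ∧
    (¬ Tendsto (fun n => (algDim W (pw X n) : ℝ) / dimE {x | ∃ j, IsInvariant (G ℓ) (pw X n) j x})
        atTop (𝓝 0) → ∀ n j x, IsInvariant (G ℓ) (pw X n) j x →
        InSpan {c | IsHodge Ψ (pw X n) j c ∧ ∀ (p : ℕ) [Fact p.Prime],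
          IsTate (G p) (pw X n) j c} x) ∧
    (¬ AtMostHalf (fun n => algDim W (pw X n)) (fun n => dimE {x | ∃ j, IsInvariant (G ℓ) (pw X n) j x})
      → ∀ n j x, IsInvariant (G ℓ) (pw X n) j x →
        InSpan {c | IsHodge Ψ (pw X n) j c ∧ ∀ (p : ℕ) [Fact p.Prime],
          IsInvariant (G p) (pw X n) j (toEC c)} x) := by
  obtain ⟨N, h1, h2, h3, h4, h5⟩ := law8 hK Ψ G ℓ X
  refine ⟨⟨N, h1, h2, h4, h5⟩, fun h => h5 fun hN => h ?_, fun h => h4.1 ?_⟩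
  · rw [hN] at h2
    exact tendsto_of_le h3 (tendsto_zero_of_index h2)
  · by_contra hN
    exact h (atMostHalf_mono h3 (atMostHalf_of_index h1 hN h2))

end Pool.Agent.H60ZO
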