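import Pool.Agent.H60ZO.HodgeAct
import Pool.Agent.H60ZO.DRAct

/-!
# De Rham-Betti classes and Hodge classes
-/

open CategoryTheory AlgebraicGeometry Filter Topology

open scoped TensorProduct ENNReal

universe u v w x

namespace Pool.Agent.H60ZO

open Module
open Pool.Agent.H914 Pool.Agent.H914.VarClass Pool.Agent.H914.VarClass.Obj
  Pool.Agent.H914.WeilCohomology
open Pool.Agent.Y133.Half (ClassPred pw HasIndex dimBy)
open Pool.Agent.Y133.Per Pool.Agent.R920.DB Pool.Agent.R920.MT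
open Pool.Agent.Y133.Hdg (HodgeStr IsHodge hodgePred isHodge_iff)

lemma tendsto_zero_of_index {s t : ℕ → ℕ} (h : HasIndex t s ⊤) :
    Tendsto (fun n => (s n : ℝ) / t n) atTop (𝓝 0) := by
  have h1 : Tendsto (fun n => (t n : ℝ≥0∞) / s n) atTop (𝓝 ⊤) := h
  rw [ENNReal.tendsto_nhds_top_iff_nat] at h1
  rw [Metric.tendsto_atTop]
  intro ε hε
  obtain ⟨N, hN⟩ := exists_nat_gt (1 / ε)
  obtain ⟨n₀, hn₀⟩ := eventually_atTop.1 (h1 (N + 1))
  refine ⟨n₀, fun n hn => ?_⟩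
  have h2 := hn₀ n hn
  rw [Real.dist_eq, sub_zero, abs_of_nonneg (by positivity)]
  have h3 : (N + 1) * s n < t n := by
    rcases Nat.eq_zero_or_pos (s n) with h0 | h0
    · rw [h0, Nat.mul_zero]
      rcases Nat.eq_zero_or_pos (t n) with h4 | h4
      · rw [h0, h4] at h2
        simp at h2
      · exact h4
    · rw [ENNReal.lt_div_iff_mul_lt (Or.inl (by exact_mod_cast h0.ne'))
        (Or.inl (ENNReal.natCast_ne_top _))] at h2
      exact_mod_cast h2
  have ht : (0 : ℝ) < t n := by exact_mod_cast (Nat.zero_le _).trans_lt h3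
  rw [div_lt_iff₀ ht]
  have h4 : ((N : ℝ) + 1) * s n < t n := by exact_mod_cast h3
  have h5 : 1 < ε * N := by
    have := mul_lt_mul_of_pos_left hN hε
    rwa [mul_one_div_cancel hε.ne'] at this
  have h6 : (0 : ℝ) ≤ s n := Nat.cast_nonneg _
  calc (s n : ℝ) ≤ ε * (((N : ℝ) + 1) * s n) := by nlinarith
    _ < ε * t n := mul_lt_mul_of_pos_left h4 hε

variable {k : Type u} [Field k] {𝒱 : VarClass k} {ops : CycleOps 𝒱}

lemma classPred_ext {W : WeilCohomology.{u, v} ops} {Q R : ClassPred W}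
    (h : ∀ X j c, Q.P X j c ↔ R.P X j c) : Q = R := by
  have h1 : Q.P = R.P := funext fun X => funext fun j => funext fun c => propext (h X j c)
  cases Q
  cases R
  cases h1
  rfl

/-- The classes with both properties. -/
def inter {W : WeilCohomology.{u, v} ops} (Q R : ClassPred W) : ClassPred W where
  P X j c := Q.P X j c ∧ R.P X j c
  gr h := Q.gr h.1
  zero := ⟨Q.zero, R.zero⟩
  add ha hb := ⟨Q.add ha.1 hb.1, R.add ha.2 hb.2⟩
  smul r _ ha := ⟨Q.smul r ha.1, R.smul r ha.2⟩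
  cl hz := ⟨Q.cl hz, R.cl hz⟩
  mul ha hb := ⟨Q.mul ha.1 hb.1, R.mul ha.2 hb.2⟩
  map f _ _ h := ⟨Q.map f h.1, R.map f h.2⟩
  push f _ _ hl _ h := ⟨Q.push f hl h.1, R.push f hl h.2⟩

variable {W : WeilCohomology.{u, v} ops} [Algebra W.K ℝ] [Algebra W.K ℂ] {F : Subfield ℂ}
  {X Y Z : 𝒱.Obj} (Ψ : HodgeStr W) (D : DeRham W F)

omit [Algebra W.K ℂ] in
include Ψ in
lemma hasLefschetz : HasLefschetz W := by
  intro X
  obtain ⟨E, hE, hL, -⟩ := Ψ.sys.polar X
  exact ⟨E, hE, hL⟩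

/-- The classes which are Hodge classes and de Rham-Betti classes. -/
noncomputable def hdPred : ClassPred W := inter (hodgePred Ψ) (drbPred D)

lemma hd_hr (hD : IsGraded D) (X : 𝒱.Obj) : ∃ E, (hdPred Ψ D).HR X E := by
  obtain ⟨E, hE, hL, hpos⟩ := Ψ.sys.polar X
  refine ⟨E, hE, ?_, ?_⟩
  · rintro j hj v ⟨hv1, hv2⟩
    obtain ⟨x, hx, hxv⟩ := Pool.Agent.Y133.Half.hodge_lift hE hL hj (isHodge_iff.1 hv1)
    refine ⟨x, ⟨isHodge_iff.2 hx, drb_lift hD hE hL hj hx.1 ?_⟩, hxv⟩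
    rw [powMul, hxv]
    exact hv2
  · rintro j hj x ⟨hx1, -⟩ h0 hx0
    exact hpos j hj x hx1.1 hx1.2 h0 hx0

lemma hd_nondeg (hD : IsGraded D) (X : 𝒱.Obj) : (hdPred Ψ D).sys.Nondeg X := by
  obtain ⟨E, hE⟩ := hd_hr Ψ D hD X
  exact hE.nondeg

lemma fin_hodge : finPred (hodgeAct Ψ.sys) (drbPred D) = hdPred Ψ D := by
  apply classPred_ext
  intro X j c
  constructor
  · rintro ⟨h1, h2⟩
    exact ⟨isHodge_iff.2 ((hodge_finOrb_iff Ψ.sys ((drbPred D).gr h1)).2 h2), h1⟩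
  · rintro ⟨h1, h2⟩
    exact ⟨h2, (hodge_finOrb_iff Ψ.sys ((drbPred D).gr h2)).1 (isHodge_iff.1 h1)⟩

lemma fin_drb (hF : ∀ a : ℂ, IsAlgebraic F a → a ∈ F) (hD : IsGraded D) (X₀ : 𝒱.Obj) :
    finPred (dRAct D hD (hasLefschetz Ψ) X₀) (hodgePred Ψ) = hdPred Ψ D := by
  apply classPred_ext
  intro X j c
  constructor
  · rintro ⟨h1, h2⟩
    exact ⟨h1, (drb_finOrb_iff D hD (hasLefschetz Ψ) X₀ hF ((hodgePred Ψ).gr h1)).2 h2⟩
  · rintro ⟨h1, h2⟩
    exact ⟨h1, (drb_finOrb_iff D hD (hasLefschetz Ψ) X₀ hF ((hodgePred Ψ).gr h1)).1 h2⟩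

/-- The zero-one law for the Hodge classes among the de Rham-Betti classes. -/
theorem law_drb (hD : IsGraded D) (X : 𝒱.Obj) [Nontrivial (W.H X)] :
    (∀ n j c, IsDRB D (pw X n) j c → IsHodge Ψ (pw X n) j c) ∨
      Tendsto (fun n => (dimBy W (hdPred Ψ D).P (pw X n) : ℝ) / dimBy W (IsDRB D) (pw X n))
        atTop (𝓝 0) := by
  rcases zero_one (hodgeAct Ψ.sys) (drbPred D) X (fun n => by
    rw [fin_hodge]
    exact hd_nondeg Ψ D hD _) with h | h
  · left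
    intro n j c hc
    have h1 : (finPred (hodgeAct Ψ.sys) (drbPred D)).P (pw X n) j c := ⟨hc, h n j c hc⟩
    rw [fin_hodge] at h1
    exact h1.1
  · right
    rw [fin_hodge] at h
    exact tendsto_zero_of_index h

/-- The zero-one law for the de Rham-Betti classes among the Hodge classes. -/
theorem law_hodge (hF : ∀ a : ℂ, IsAlgebraic F a → a ∈ F) (hD : IsGraded D) (X : 𝒱.Obj)
    [Nontrivial (W.H X)] :
    (∀ n j c, IsHodge Ψ (pw X n) j c → IsDRB D (pw X n) j c) ∨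
      Tendsto (fun n => (dimBy W (hdPred Ψ D).P (pw X n) : ℝ) / dimBy W (IsHodge Ψ) (pw X n))
        atTop (𝓝 0) := by
  rcases zero_one (dRAct D hD (hasLefschetz Ψ) X) (hodgePred Ψ) X (fun n => by
    rw [fin_drb Ψ D hF]
    exact hd_nondeg Ψ D hD _) with h | h
  · left
    intro n j c hc
    have h1 : (finPred (dRAct D hD (hasLefschetz Ψ) X) (hodgePred Ψ)).P (pw X n) j c :=
      ⟨hc, h n j c hc⟩
    rw [fin_drb Ψ D hF] at h1
    exact h1.2
  · right
    rw [fin_drb Ψ D hF] at h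
    exact tendsto_zero_of_index h

omit [Algebra W.K ℂ] in
/-- The Hodge classes form a system. -/
lemma isSystem_hodge' : IsSystem (W := W) (IsHodge Ψ) where
  lin X j := ⟨{ carrier := {c | IsHodge Ψ X j c}
                add_mem' := fun ha hb => (hodgePred Ψ).add ha hb
                zero_mem' := (hodgePred Ψ).zero
                smul_mem' := fun r _ ha => (hodgePred Ψ).smul r ha }, fun _ => Iff.rfl⟩
  cl _ _ _ hz := (hodgePred Ψ).cl hz
  mul _ _ _ _ _ ha hb := (hodgePred Ψ).mul ha hb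
  map _ _ f _ _ h := (hodgePred Ψ).map f h
  push _ _ f _ _ _ hl h := (hodgePred Ψ).push f hl h
  lift X E j hE hL hj x hx h := by
    obtain ⟨y, hy, hyv⟩ := Pool.Agent.Y133.Half.hodge_lift hE hL hj (isHodge_iff.1 h)
    have h1 : x = y := by
      rw [← sub_eq_zero]
      apply Pool.Agent.Y133.Half.hl_inj hL hj (Submodule.sub_mem _ hx hy.1)
      rw [mul_sub, hyv, powMul, sub_self]
    rw [h1]
    exact isHodge_iff.2 hy

omit [Algebra W.K ℂ] in
lemma mot_hodge {j : ℕ} {c : W.H X} (h : IsMotivated W X j c) : IsHodge Ψ X j c :=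
  h _ (isSystem_hodge' Ψ)

lemma mot_le (hD : IsGraded D) (X : 𝒱.Obj) :
    dimBy W (IsMotivated W) X ≤ dimBy W (hdPred Ψ D).P X := by
  have h1 := ClassPred.sys_le (Q := motPred W) (R := hdPred Ψ D)
    (fun h => ⟨mot_hodge Ψ h, mot_drb hD h⟩) X
  exact Submodule.finrank_mono h1

/-- A quotient which is one does not tend to zero. -/
lemma not_tendsto_of_eq {a b : ℕ → ℕ} (h : ∀ n, a n = b n) (hb : ∀ n, 0 < b n) :
    ¬ Tendsto (fun n => (a n : ℝ) / b n) atTop (𝓝 0) := by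
  intro h1
  have h2 : (fun n => (a n : ℝ) / b n) = fun _ => (1 : ℝ) := by
    funext n
    have : (b n : ℝ) ≠ 0 := by exact_mod_cast (hb n).ne'
    rw [h n, div_self this]
  rw [h2] at h1
  exact one_ne_zero (tendsto_nhds_unique tendsto_const_nhds h1)

lemma tendsto_of_le {a a' b : ℕ → ℕ} (h : ∀ n, a n ≤ a' n)
    (h1 : Tendsto (fun n => (a' n : ℝ) / b n) atTop (𝓝 0)) :
    Tendsto (fun n => (a n : ℝ) / b n) atTop (𝓝 0) := by
  refine squeeze_zero (fun n => by positivity) (fun n => ?_) h1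
  have : (a n : ℝ) ≤ a' n := by exact_mod_cast h n
  gcongr

omit [Algebra W.K ℝ] [Algebra W.K ℂ] in
lemma dimBy_pos (Q : ClassPred W) (X : 𝒱.Obj) [Nontrivial (W.H X)] (n : ℕ) :
    0 < dimBy W Q.P (pw X n) := Q.sys.finrank_pos_pw n

omit [Algebra W.K ℝ] [Algebra W.K ℂ] in
lemma dimBy_congr {P Q : ∀ Z : 𝒱.Obj, ℕ → W.H Z → Prop} {Z : 𝒱.Obj}
    (h : ∀ j c, P Z j c ↔ Q Z j c) : dimBy W P Z = dimBy W Q Z := by
  have h1 : P Z = Q Z := funext fun j => funext fun c => propext (h j c)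
  unfold dimBy
  rw [h1]

theorem mainA {F : Subfield ℂ} (D : DeRham W F) (hD : IsGraded D) (X : 𝒱.Obj)
    [Nontrivial (W.H X)] :
    ((∀ n j c, IsDRB D (pw X n) j c → IsHodge Ψ (pw X n) j c) ↔
      ¬ Tendsto (fun n => (dimBy W (fun Z j c => IsHodge Ψ Z j c ∧ IsDRB D Z j c) (pw X n) : ℝ) /
        dimBy W (IsDRB D) (pw X n)) atTop (𝓝 0)) ∧
    (¬ Tendsto (fun n => (dimBy W (IsMotivated W) (pw X n) : ℝ) /
        dimBy W (IsDRB D) (pw X n)) atTop (𝓝 0) →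
      ∀ n j c, IsDRB D (pw X n) j c → IsHodge Ψ (pw X n) j c) ∧
    ((∀ n j c, IsHodge Ψ (pw X n) j c → IsMotivated W (pw X n) j c) →
      ((∀ n j c, IsDRB D (pw X n) j c → IsMotivated W (pw X n) j c) ↔
        ¬ Tendsto (fun n => (dimBy W (IsMotivated W) (pw X n) : ℝ) /
          dimBy W (IsDRB D) (pw X n)) atTop (𝓝 0))) := by
  have k1 := law_drb Ψ D hD X
  have e0 : (hdPred Ψ D).P = fun Z j c => IsHodge Ψ Z j c ∧ IsDRB D Z j c := rfl
  rw [e0] at k1
  have hle := fun n => mot_le Ψ D hD (pw X n)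
  rw [e0] at hle
  have m1 : ¬ Tendsto (fun n => (dimBy W (IsMotivated W) (pw X n) : ℝ) /
        dimBy W (IsDRB D) (pw X n)) atTop (𝓝 0) →
      ∀ n j c, IsDRB D (pw X n) j c → IsHodge Ψ (pw X n) j c := fun h =>
    k1.resolve_right fun h1 => h (tendsto_of_le hle h1)
  refine ⟨⟨fun h => ?_, fun h => k1.resolve_right h⟩, m1, fun hHM => ⟨fun h => ?_,
      fun h n j c hc => hHM n j c (m1 h n j c hc)⟩⟩
  · exact not_tendsto_of_eq (fun n => dimBy_congr fun j c => ⟨fun h1 => h1.2, fun h1 => ⟨h n j c h1, h1⟩⟩)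
      fun n => dimBy_pos (drbPred D) X n
  · exact not_tendsto_of_eq (fun n => dimBy_congr fun j c => ⟨mot_drb hD, h n j c⟩)
      fun n => dimBy_pos (drbPred D) X n

theorem mainB {F : Subfield ℂ} (hF : ∀ a : ℂ, IsAlgebraic F a → a ∈ F) (D : DeRham W F)
    (hD : IsGraded D) (X : 𝒱.Obj) [Nontrivial (W.H X)] :
    ((∀ n j c, IsHodge Ψ (pw X n) j c → IsDRB D (pw X n) j c) ↔
      ¬ Tendsto (fun n => (dimBy W (fun Z j c => IsHodge Ψ Z j c ∧ IsDRB D Z j c) (pw X n) : ℝ) /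
        dimBy W (IsHodge Ψ) (pw X n)) atTop (𝓝 0)) ∧
    (¬ Tendsto (fun n => (dimBy W (IsMotivated W) (pw X n) : ℝ) /
        dimBy W (IsHodge Ψ) (pw X n)) atTop (𝓝 0) →
      ∀ n j c, IsHodge Ψ (pw X n) j c → IsDRB D (pw X n) j c) := by
  have k2 := law_hodge Ψ D hF hD X
  have e0 : (hdPred Ψ D).P = fun Z j c => IsHodge Ψ Z j c ∧ IsDRB D Z j c := rfl
  rw [e0] at k2
  have hle := fun n => mot_le Ψ D hD (pw X n)
  rw [e0] at hle
  refine ⟨⟨fun h => ?_, fun h => k2.resolve_right h⟩,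
    fun h => k2.resolve_right fun h1 => h (tendsto_of_le hle h1)⟩
  exact not_tendsto_of_eq (fun n => dimBy_congr fun j c => ⟨fun h1 => h1.1, fun h1 => ⟨h1, h n j c h1⟩⟩)
      fun n => dimBy_pos (hodgePred Ψ) X n

end Pool.Agent.H60ZO
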