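import Pool.Agent.H60ZO.Law6

/-!
# The index of the motivated classes in the Tate classes
-/

open CategoryTheory AlgebraicGeometry Filter Topology

open scoped TensorProduct ENNReal

universe u v w x y z

namespace Pool.Agent.H60ZO

open Module
open Pool.Agent.H914 Pool.Agent.H914.VarClass Pool.Agent.H914.VarClass.Obj
  Pool.Agent.H914.WeilCohomology
open Pool.Agent.Y133.Half (ClassPred pw HasIndex dimBy algDim AtMostHalf atMostHalf_of_index)
open Pool.Agent.Y133.Hdg (HodgeStr IsHodge hodgePred isHodge_iff)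
open Pool.Agent.R920.MT (IsMotivated motPred)
open Gal

variable {k : Type u} [Field k] {𝒱 : VarClass k} {ops : CycleOps 𝒱}
  {W : WeilCohomology.{u, v} ops} {X Y Z : 𝒱.Obj}

lemma mot_lifts : Lifts (motPred W) := fun _ _ hD hL _ hj _ hx h =>
  Pool.Agent.R920.MT.IsMotivated.lift hD hL hj hx h

variable [Algebra W.K ℝ]

lemma mot_HR (Ψ : HodgeStr W) (Z : 𝒱.Obj) : (motPred W).sys.Nondeg Z := by
  obtain ⟨D, hD⟩ := hr_fam Ψ (Q := fun _ : Unit => motPred W) (fun _ => mot_lifts) Z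
  have h1 : interFam (hodgePred Ψ) (fun _ : Unit => motPred W) = motPred W :=
    classPred_ext fun Z j c => ⟨fun h => h.2 (), fun h => ⟨mot_hodge Ψ h, fun _ => h⟩⟩
  rw [h1] at hD
  exact hD.nondeg

attribute [local instance] baseAlg

/-- The index of the motivated classes. -/
theorem mot_index {F : Type v} [Field F] [Algebra W.K F] (Ψ : HodgeStr W) {Γ₀ : Type} [Group Γ₀]
    (G₀ : GaloisAction W F Γ₀) {I : Type z} {E : I → Type w} [∀ i, Field (E i)]
    [∀ i, Algebra W.K (E i)] {Γ : I → Type} [∀ i, Group (Γ i)]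
    (G : ∀ i, GaloisAction W (E i) (Γ i)) [Algebra W.K ℂ] [Algebra F ℂ] [IsScalarTower W.K F ℂ]
    (hR : Nonempty (ℝ →ₐ[W.K] ℂ)) (hne : ∀ i, Nonempty (E i →ₐ[W.K] ℂ)) (X : 𝒱.Obj)
    [Nontrivial (W.H X)] : ∃ N : ℕ∞, 1 ≤ N ∧
    HasIndex (fun n => dimE {x | ∃ j, IsTateClass G₀ (pw X n) j x})
      (fun n => dimBy W (IsMotivated W) (pw X n)) N ∧
    (N = 1 ↔ ∀ n j x, IsTateClass G₀ (pw X n) j x →
      InSpan {c | IsMotivated W (pw X n) j c} x) ∧
    (N ≠ ⊤ → ∀ n j x, IsTateClass G₀ (pw X n) j x →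
      InSpan {c | IsHodge Ψ (pw X n) j c ∧ IsTate G₀ (pw X n) j c ∧
        ∀ i, IsTate (G i) (pw X n) j c} x) := by
  have hL := hasLefschetz Ψ
  let Q : Option I → ClassPred W := optPred (tatePred hL G₀) fun i => tatePred hL (G i)
  let S : ClassPred W := interFam (hodgePred Ψ) Q
  have hS : ∀ {Z : 𝒱.Obj} {j : ℕ} {c : W.H Z}, S.P Z j c ↔
      (IsHodge Ψ Z j c ∧ IsTate G₀ Z j c ∧ ∀ i, IsTate (G i) Z j c) := by
    intro Z j c
    refine and_congr_right fun _ => ?_
    constructor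
    · intro h
      exact ⟨h none, fun i => h (some i)⟩
    · rintro ⟨h1, h2⟩ (_ | i)
      · exact h1
      · exact h2 i
  let M : ClassPred W := motPred W
  have hMS : ∀ (Z : 𝒱.Obj) (j : ℕ), csub M Z j ≤ csub S Z j := fun Z j c hc =>
    hS.2 ⟨mot_hodge Ψ hc, mot_tate Ψ G₀ hc, fun i => mot_tate Ψ (G i) hc⟩
  have hle : ∀ (o : Option I) (Z : 𝒱.Obj) (j : ℕ), csub M Z j ≤ csub (Q o) Z j :=
    fun o Z j c hc => (hMS Z j hc).2 o
  let R : ClassPred (baseW W F) := finAll (embAct F G₀ (AlgHom.id W.K F) hL)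
  have hQR : ∀ {Z : 𝒱.Obj} {j : ℕ} {c : (baseW W F).H Z}, (basePred F M).P Z j c → R.P Z j c := by
    intro Z j c hc
    exact ⟨(basePred F M).gr hc, base_finOrb hL G₀ _ (Submodule.baseChange_mono F (hle none Z j) hc)⟩
  have hnt : Nontrivial ((baseW W F).H X) := Pool.Agent.Y129.nontrivial_base F
  obtain ⟨N, h1, h2, h3, h4⟩ := index_fin (basePred F M) R hQR X (fun n =>
    basePred_nondeg F (mot_HR Ψ (pw X n)))
  have e1 : ∀ n, dimBy (baseW W F) (basePred F M).P (pw X n) =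
      dimBy W (IsMotivated W) (pw X n) := fun n => by
    rw [dimBy_base]
    rfl
  have e2 : ∀ n, dimBy (baseW W F) R.P (pw X n) =
      dimE {x | ∃ j, IsTateClass G₀ (pw X n) j x} :=
    fun n => dimBy_eq_dimE R fun j c => finAll_iff G₀ hL
  refine ⟨N, h1, ?_, ?_, ?_⟩
  · simp only [e1, e2] at h2
    exact h2
  · rw [h3]
    refine forall_congr' fun n => forall_congr' fun j => forall_congr' fun x => ?_
    have k3 : (csub M (pw X n) j : Set (W.H (pw X n))) = {c | IsMotivated W (pw X n) j c} := rfl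
    refine imp_congr (finAll_iff G₀ hL) ?_
    rw [← k3]
    exact inSpan_iff.symm
  · intro hN n j x hx
    have hRx : R.P (pw X n) j x := (finAll_iff G₀ hL).2 hx
    have k0 : ∀ o, x ∈ (csub (Q o) (pw X n) j).baseChange F := by
      rintro (_ | i)
      · exact rational_of_finOrb hL G₀ ⟨IsScalarTower.toAlgHom W.K F ℂ⟩ hRx.1 fun ι =>
          h4 hN (embAct F G₀ ι hL) (fun {Z j c} hc =>
            base_finOrb hL G₀ ι (Submodule.baseChange_mono F (hle none Z j) hc)) n j x hRx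
      · exact rational_of_finOrb hL (G i) (hne i) hRx.1 fun ι =>
          h4 hN (embAct F (G i) ι hL) (fun {Z j c} hc =>
            base_finOrb hL (G i) ι (Submodule.baseChange_mono F (hle (some i) Z j) hc)) n j x hRx
    have hH : ∀ (Z : 𝒱.Obj) (j : ℕ), csub (tatePred hL (hodgeGal Ψ)) Z j =
        csub (hodgePred Ψ) Z j := fun Z j => Submodule.ext fun c => isTate_hodgeGal Ψ
    have k1 : x ∈ (csub (hodgePred Ψ) (pw X n) j).baseChange F := by
      rw [← hH]
      exact rational_of_finOrb hL (hodgeGal Ψ) hR hRx.1 fun ι =>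
        h4 hN (embAct F (hodgeGal Ψ) ι hL) (fun {Z j c} hc => by
          refine base_finOrb hL (hodgeGal Ψ) ι ?_
          rw [hH]
          have h6 : csub M Z j ≤ csub (hodgePred Ψ) Z j := fun c hc => mot_hodge Ψ hc
          exact Submodule.baseChange_mono F h6 hc) n j x hRx
    have k2 : x ∈ (csub S (pw X n) j).baseChange F := csub_interFam k1 k0
    have k3 : (csub S (pw X n) j : Set (W.H (pw X n))) = {c | IsHodge Ψ (pw X n) j c ∧
        IsTate G₀ (pw X n) j c ∧ ∀ i, IsTate (G i) (pw X n) j c} := Set.ext fun c => hS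
    have k4 := inSpan_iff.2 k2
    rw [k3] at k4
    exact k4

end Pool.Agent.H60ZO
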