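import Pool.Agent.H60ZO.Mot

/-!
# The index of the motivated classes for all primes
-/

open CategoryTheory AlgebraicGeometry Filter Topology

open scoped TensorProduct ENNReal

universe u v w x y z

namespace Pool.Agent.H60ZO

open Module
open Pool.Agent.H914 Pool.Agent.H914.VarClass Pool.Agent.H914.VarClass.Obj
  Pool.Agent.H914.WeilCohomology
open Pool.Agent.Y133.Half (ClassPred pw HasIndex dimBy algDim AtMostHalf atMostHalf_of_index)
open Pool.Agent.Y133.Hdg (HodgeStr IsHodge hodgePred isHodge_iff)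
open Pool.Agent.R920.MT (IsMotivated motPred)
open Gal

section Alg

variable {K E A : Type*} [Field K] [Field E] [Algebra K E] [Ring A] [Algebra K A]

lemma finrank_bc (p : Submodule K A) : finrank E (p.baseChange E) = finrank K p := by
  have h1 : Function.Injective (p.subtype.baseChange E) :=
    Module.Flat.lTensor_preserves_injective_linearMap (M := E) p.subtype p.injective_subtype
  have h2 : p.baseChange E = LinearMap.range (p.subtype.baseChange E) := rfl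
  rw [h2, LinearMap.finrank_range_of_inj h1, Module.finrank_baseChange]

lemma span_toEC (S : Set A) : (Submodule.span E (toEC (K := K) (E := E) '' S) :
    Submodule E (EC K E A)) = ((Submodule.span K S).baseChange E : Submodule E (E ⊗[K] A)) := by
  rw [Submodule.baseChange_span]
  rfl

lemma dimE_toEC (S : Set A) : dimE (toEC (K := K) (E := E) '' S) = Set.finrank K S := by
  have h1 : dimE (toEC (K := K) (E := E) '' S) = finrank E ((Submodule.span K S).baseChange E) := by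
    unfold dimE
    rw [span_toEC]
    rfl
  rw [h1, finrank_bc]
  rfl

variable [FiniteDimensional K A]

lemma finrank_mono_tensor {s t : Submodule E (E ⊗[K] A)} (h : s ≤ t) :
    finrank E s ≤ finrank E t := Submodule.finrank_mono h

lemma finrank_mono_EC {s t : Submodule E (EC K E A)} (h : s ≤ t) :
    finrank E s ≤ finrank E t := finrank_mono_tensor (K := K) (E := E) (A := A) h

lemma dimE_le {S : Set A} {T : Set (EC K E A)} (h : ∀ x ∈ T, InSpan S x) :
    dimE T ≤ Set.finrank K S := by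
  rw [← dimE_toEC (E := E)]
  exact finrank_mono_EC (Submodule.span_le.2 fun x hx => h x hx)

lemma le_dimE {S : Set A} {T : Set (EC K E A)} (h : ∀ c ∈ S, toEC c ∈ T) :
    Set.finrank K S ≤ dimE T := by
  rw [← dimE_toEC (E := E)]
  apply finrank_mono_EC
  apply Submodule.span_mono
  rintro _ ⟨c, hc, rfl⟩
  exact h c hc

end Alg

variable {k : Type u} [Field k] {𝒱 : VarClass k} {ops : CycleOps 𝒱}
  {W : WeilCohomology.{u, 0} ops} [Algebra W.K ℝ] {X Y Z : 𝒱.Obj}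

attribute [local instance] baseAlg

variable [∀ (p : ℕ) [Fact p.Prime], Algebra W.K ℚ_[p]] {Γ : Type} [Group Γ]

attribute [local instance] factPrime

/-- The index of the motivated classes, for all primes. -/
theorem mot_primes (hK : ∀ a : W.K, ∃ q : ℚ, (q : W.K) = a) (Ψ : HodgeStr W)
    (G : ∀ (p : ℕ) [Fact p.Prime], GaloisAction W ℚ_[p] Γ) (ℓ : ℕ) [Fact ℓ.Prime] (X : 𝒱.Obj)
    [Nontrivial (W.H X)] : ∃ N : ℕ∞, 1 ≤ N ∧
    HasIndex (fun n => dimE {x | ∃ j, IsTateClass (G ℓ) (pw X n) j x})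
      (fun n => dimBy W (IsMotivated W) (pw X n)) N ∧
    (N = 1 ↔ ∀ n j x, IsTateClass (G ℓ) (pw X n) j x →
      InSpan {c | IsMotivated W (pw X n) j c} x) ∧
    (N ≠ ⊤ → ∀ n j x, IsTateClass (G ℓ) (pw X n) j x →
      InSpan {c | IsHodge Ψ (pw X n) j c ∧ ∀ (p : ℕ) [Fact p.Prime],
        IsTate (G p) (pw X n) j c} x) := by
  refine setup hK ℓ ?_
  intro _ _ _ hR hp
  have h := mot_index Ψ (G ℓ) (fun p : {p : ℕ // p.Prime} => G p.1) hR (fun p => hp p.1) X
  have e : ∀ {Z : 𝒱.Obj} {j : ℕ} {c : W.H Z}, (IsHodge Ψ Z j c ∧ IsTate (G ℓ) Z j c ∧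
      ∀ p : {p : ℕ // p.Prime}, IsTate (G p.1) Z j c) ↔
        (IsHodge Ψ Z j c ∧ ∀ (p : ℕ) [Fact p.Prime], IsTate (G p) Z j c) := by
    intro Z j c
    exact ⟨fun h => ⟨h.1, fun p hp => h.2.2 ⟨p, hp.out⟩⟩,
      fun h => ⟨h.1, h.2 ℓ, fun p => h.2 p.1⟩⟩
  simp only [e] at h
  exact h

omit [Algebra W.K ℝ] in
/-- Rational classes which are Tate classes for all primes. -/
lemma dim_le_of_rational (G : ∀ (p : ℕ) [Fact p.Prime], GaloisAction W ℚ_[p] Γ) {ℓ p : ℕ}
    [Fact ℓ.Prime] [Fact p.Prime] {P : ℕ → W.H Z → Prop}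
    (h : ∀ j x, IsTateClass (G ℓ) Z j x → InSpan {c | P j c} x)
    (hP : ∀ j c, P j c → IsTateClass (G p) Z j (toEC c)) :
    dimE {x | ∃ j, IsTateClass (G ℓ) Z j x} ≤ dimE {x | ∃ j, IsTateClass (G p) Z j x} := by
  refine (dimE_le (S := {c | ∃ j, P j c}) ?_).trans (le_dimE ?_)
  · rintro x ⟨j, hx⟩
    refine Submodule.span_mono ?_ (h j x hx)
    rintro _ ⟨c, hc, rfl⟩
    exact ⟨c, ⟨j, hc⟩, rfl⟩
  · rintro c ⟨j, hc⟩
    exact ⟨j, hP j c hc⟩

omit [Algebra W.K ℝ] [∀ (p : ℕ) [Fact p.Prime], Algebra W.K ℚ_[p]] in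
lemma isTateClass_toEC {E : Type} [Field E] [Algebra W.K E] {G : GaloisAction W E Γ} {j : ℕ}
    {c : W.H Z} (h : IsTate G Z j c) : IsTateClass G Z j (toEC c) :=
  ⟨Submodule.subset_span ⟨c, h.1, rfl⟩, h.2⟩

lemma HasIndex.unique {a b : ℕ → ℕ} {N N' : ℕ∞} (h : HasIndex a b N) (h' : HasIndex a b N') :
    N = N' := by
  have := tendsto_nhds_unique h h'
  exact_mod_cast this

lemma HasIndex.le_of {a a' b : ℕ → ℕ} {N N' : ℕ∞} (h : HasIndex a b N) (h' : HasIndex a' b N')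
    (hle : ∀ n, a n ≤ a' n) : N ≤ N' := by
  have h1 := le_of_tendsto_of_tendsto' h h' fun n =>
    ENNReal.div_le_div_right (by exact_mod_cast hle n : (a n : ℝ≥0∞) ≤ a' n) (b n)
  exact_mod_cast h1

/-- **The index of the motivated classes and its independence of the prime.** -/
theorem mot_final (hK : ∀ a : W.K, ∃ q : ℚ, (q : W.K) = a) (Ψ : HodgeStr W)
    (G : ∀ (p : ℕ) [Fact p.Prime], GaloisAction W ℚ_[p] Γ) (ℓ : ℕ) [Fact ℓ.Prime] (X : 𝒱.Obj)
    [Nontrivial (W.H X)] : ∃ N : ℕ∞, 1 ≤ N ∧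
    HasIndex (fun n => dimE {x | ∃ j, IsTateClass (G ℓ) (pw X n) j x})
      (fun n => dimBy W (IsMotivated W) (pw X n)) N ∧
    (N = 1 ↔ ∀ n j x, IsTateClass (G ℓ) (pw X n) j x →
      InSpan {c | IsMotivated W (pw X n) j c} x) ∧
    (N ≠ ⊤ → ∀ n j x, IsTateClass (G ℓ) (pw X n) j x →
      InSpan {c | IsHodge Ψ (pw X n) j c ∧ ∀ (p : ℕ) [Fact p.Prime],
        IsTate (G p) (pw X n) j c} x) ∧
    (N ≠ ⊤ → ∀ (p : ℕ) [Fact p.Prime] (N' : ℕ∞),
      HasIndex (fun n => dimE {x | ∃ j, IsTateClass (G p) (pw X n) j x})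
        (fun n => dimBy W (IsMotivated W) (pw X n)) N' →
      N ≤ N' ∧ (N' ≠ ⊤ → N = N' ∧ ∀ n, dimE {x | ∃ j, IsTateClass (G ℓ) (pw X n) j x} =
        dimE {x | ∃ j, IsTateClass (G p) (pw X n) j x})) := by
  obtain ⟨N, h1, h2, h3, h4⟩ := mot_primes hK Ψ G ℓ X
  refine ⟨N, h1, h2, h3, h4, fun hN p _ N' hN' => ?_⟩
  obtain ⟨M, k1, k2, k3, k4⟩ := mot_primes hK Ψ G p X
  have hM : M = N' := HasIndex.unique k2 hN'
  subst hM
  have e1 : ∀ n, dimE {x | ∃ j, IsTateClass (G ℓ) (pw X n) j x} ≤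
      dimE {x | ∃ j, IsTateClass (G p) (pw X n) j x} := fun n =>
    dim_le_of_rational G (h4 hN n) fun j c hc => isTateClass_toEC (hc.2 p)
  refine ⟨HasIndex.le_of h2 k2 e1, fun hM => ?_⟩
  have e2 : ∀ n, dimE {x | ∃ j, IsTateClass (G p) (pw X n) j x} ≤
      dimE {x | ∃ j, IsTateClass (G ℓ) (pw X n) j x} := fun n =>
    dim_le_of_rational G (k4 hM n) fun j c hc => isTateClass_toEC (hc.2 ℓ)
  exact ⟨le_antisymm (HasIndex.le_of h2 k2 e1) (HasIndex.le_of k2 h2 e2),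
    fun n => le_antisymm (e1 n) (e2 n)⟩

end Pool.Agent.H60ZO
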